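import Mathlib

/-! Independent families and good pairs (construction of filters whose coideals are rigid).
Paper proof: helper583. -/

set_option autoImplicit false

namespace Pool.Agent.R196.Coi

open Set Cardinal

/-- the index set of the independent family -/
abbrev Ix := ℕ → Bool

def pre (n : ℕ) (x : Ix) : Fin n → Bool := fun i => x i

/-- the independent family -/
def X (x : Ix) : Set ℕ :=
  {k | ∃ p : (Σ n : ℕ, Finset (Fin n → Bool)), Encodable.encode p = k ∧ pre p.1 x ∈ p.2}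

/-- the Boolean combination -/
def B (D : Finset Ix) (f : Ix → Bool) : Set ℕ := {k | ∀ i ∈ D, (k ∈ X i ↔ f i = true)}

lemma mem_X (x : Ix) (p : Σ n : ℕ, Finset (Fin n → Bool)) :
    Encodable.encode p ∈ X x ↔ pre p.1 x ∈ p.2 := by
  constructor
  · rintro ⟨p', h, h'⟩
    have := Encodable.encode_injective h
    rw [← this]; exact h'
  · intro h
    exact ⟨p, rfl, h⟩

lemma separate (D : Finset Ix) : ∃ N : ℕ, ∀ x ∈ D, ∀ y ∈ D, x ≠ y → ∃ j < N, x j ≠ y j := by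
  classical
  have h1 : ∀ p : Ix × Ix, ∃ N : ℕ, p.1 ≠ p.2 → ∃ j < N, p.1 j ≠ p.2 j := by
    intro p
    by_cases h : p.1 = p.2
    · exact ⟨0, fun h' => absurd h h'⟩
    · obtain ⟨j, hj⟩ := Function.ne_iff.1 h
      exact ⟨j + 1, fun _ => ⟨j, Nat.lt_succ_self j, hj⟩⟩
  choose N hN using h1
  refine ⟨(D ×ˢ D).sup N, fun x hx y hy hxy => ?_⟩
  obtain ⟨j, hj, h⟩ := hN (x, y) hxy
  refine ⟨j, lt_of_lt_of_le hj ?_, h⟩
  exact Finset.le_sup (f := N) (Finset.mk_mem_product hx hy)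

lemma B_infinite (D : Finset Ix) (f : Ix → Bool) : (B D f).Infinite := by
  classical
  obtain ⟨N, hN⟩ := separate D
  let q : ℕ → (Σ n : ℕ, Finset (Fin n → Bool)) := fun n =>
    ⟨N + n, (D.filter (fun x => f x = true)).image (pre (N + n))⟩
  have hinj : Function.Injective (fun n => Encodable.encode (q n)) := by
    intro a b hab
    have h := congrArg Sigma.fst (Encodable.encode_injective hab)
    simpa [q] using h
  refine Set.infinite_of_injective_forall_mem hinj fun n => ?_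
  intro x hx
  rw [mem_X]
  show pre (N + n) x ∈ (D.filter (fun x => f x = true)).image (pre (N + n)) ↔ _
  rw [Finset.mem_image]
  constructor
  · rintro ⟨y, hy, h⟩
    rw [Finset.mem_filter] at hy
    by_cases hxy : y = x
    · rw [← hxy]; exact hy.2
    · obtain ⟨j, hj, hne⟩ := hN y hy.1 x hx hxy
      exact absurd (congrFun h ⟨j, by omega⟩) hne
  · intro h
    exact ⟨x, Finset.mem_filter.2 ⟨hx, h⟩, rfl⟩

open Classical in
/-- the union of two finite partial functions -/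
noncomputable def mrg (D : Finset Ix) (f g : Ix → Bool) : Ix → Bool :=
  fun i => if i ∈ D then f i else g i

open Classical in
lemma B_mrg (D E : Finset Ix) (f g : Ix → Bool) (h : ∀ i ∈ D, i ∈ E → f i = g i) :
    B (D ∪ E) (mrg D f g) = B D f ∩ B E g := by
  ext k
  simp only [B, mrg, Finset.mem_union, Set.mem_setOf_eq, Set.mem_inter_iff]
  constructor
  · intro hk
    constructor
    · intro i hi
      have := hk i (Or.inl hi)
      rwa [if_pos hi] at this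
    · intro i hi
      have h1 := hk i (Or.inr hi)
      by_cases hD : i ∈ D
      · rw [if_pos hD, h i hD hi] at h1
        exact h1
      · rwa [if_neg hD] at h1
  · rintro ⟨h1, h2⟩ i hi
    by_cases hD : i ∈ D
    · rw [if_pos hD]; exact h1 i hD
    · rw [if_neg hD]
      exact h2 i (hi.resolve_left hD)

/-- good pairs -/
def GoodP (S : Set (Set ℕ)) (R : Set Ix) : Prop :=
  ∀ S0 : Set (Set ℕ), S0 ⊆ S → S0.Finite → ∀ D : Finset Ix, (∀ i ∈ D, i ∉ R) → ∀ f : Ix → Bool,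
    (⋂₀ S0 ∩ B D f).Infinite

lemma good_empty : GoodP ∅ ∅ := by
  intro S0 h1 _ D _ f
  have : S0 = ∅ := Set.subset_empty_iff.1 h1
  rw [this, Set.sInter_empty, Set.univ_inter]
  exact B_infinite D f

lemma GoodP.mono {S S' : Set (Set ℕ)} {R R' : Set Ix} (h : GoodP S R) (hS : S' ⊆ S)
    (hR : R ⊆ R') : GoodP S' R' := fun S0 h1 h2 D hD f =>
  h S0 (h1.trans hS) h2 D (fun i hi hi' => hD i hi (hR hi')) f

lemma good_insert {S : Set (Set ℕ)} {R : Set Ix} {P : Set ℕ}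
    (h : ∀ S0 : Set (Set ℕ), S0 ⊆ S → S0.Finite → ∀ D : Finset Ix, (∀ i ∈ D, i ∉ R) →
      ∀ f : Ix → Bool, (⋂₀ S0 ∩ P ∩ B D f).Infinite) : GoodP (insert P S) R := by
  intro S0 h1 h2 D hD f
  refine (h (S0 \ {P}) ?_ (h2.subset Set.diff_subset) D hD f).mono ?_
  · intro s hs
    exact (h1 hs.1).resolve_left (fun e => hs.2 e)
  · rintro k ⟨⟨hk1, hk2⟩, hk3⟩
    refine ⟨?_, hk3⟩
    intro s hs
    by_cases hsP : s = P
    · rw [hsP]; exact hk2
    · exact hk1 s ⟨hs, hsP⟩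

lemma not_good_insert {S : Set (Set ℕ)} {R : Set Ix} {P : Set ℕ} (h : ¬ GoodP (insert P S) R) :
    ∃ S0 : Set (Set ℕ), S0 ⊆ S ∧ S0.Finite ∧ ∃ D : Finset Ix, (∀ i ∈ D, i ∉ R) ∧
      ∃ f : Ix → Bool, (⋂₀ S0 ∩ P ∩ B D f).Finite := by
  by_contra hc
  apply h
  apply good_insert
  intro S0 h1 h2 D hD f
  by_contra hf
  exact hc ⟨S0, h1, h2, D, hD, f, Set.not_infinite.1 hf⟩

open Classical in
lemma good_insert_B {S : Set (Set ℕ)} {R : Set Ix} (h : GoodP S R) (D : Finset Ix)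
    (hD : ∀ i ∈ D, i ∉ R) (f : Ix → Bool) : GoodP (insert (B D f) S) (R ∪ (D : Set Ix)) := by
  apply good_insert
  intro S0 h1 h2 E hE g
  have hdis : ∀ i ∈ D, i ∈ E → f i = g i := fun i hi hi' =>
    absurd (Or.inr (Finset.mem_coe.2 hi)) (hE i hi')
  have := h S0 h1 h2 (D ∪ E) (fun i hi => by
    rcases Finset.mem_union.1 hi with h' | h'
    · exact hD i h'
    · exact fun hR => hE i h' (Or.inl hR)) (mrg D f g)
  rw [B_mrg D E f g hdis, ← Set.inter_assoc] at this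
  exact this

/-- Kunen's lemma: any set can be decided. -/
lemma decide_set {S : Set (Set ℕ)} {R : Set Ix} (h : GoodP S R) (x : Set ℕ) :
    ∃ (t : Set (Set ℕ)) (Q : Set Ix), t.Finite ∧ Q.Finite ∧ GoodP (S ∪ t) (R ∪ Q) ∧
      (x ∈ t ∨ xᶜ ∈ t) := by
  by_cases hx : GoodP (insert x S) R
  · refine ⟨{x}, ∅, Set.finite_singleton x, Set.finite_empty, ?_, Or.inl rfl⟩
    rw [Set.union_empty, Set.union_singleton]
    exact hx
  · obtain ⟨S0, h1, h2, D, hD, f, hf⟩ := not_good_insert hx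
    refine ⟨{xᶜ, B D f}, (D : Set Ix), by simp, D.finite_toSet, ?_, Or.inr (by simp)⟩
    have h3 := good_insert_B h D hD f
    have h4 : GoodP (insert xᶜ (insert (B D f) S)) (R ∪ (D : Set Ix)) := by
      apply good_insert
      intro S1 h5 h6 E hE g
      have h7 := h3 (S1 ∪ insert (B D f) S0)
        (Set.union_subset h5 (Set.insert_subset_insert h1)) (h6.union (h2.insert _)) E hE g
      refine (h7.diff hf).mono ?_
      rintro k ⟨⟨hk1, hk2⟩, hk3⟩
      have hk4 : k ∈ ⋂₀ S0 := fun s hs => hk1 s (Or.inr (Or.inr hs))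
      have hk5 : k ∈ B D f := hk1 _ (Or.inr (Or.inl rfl))
      refine ⟨⟨fun s hs => hk1 s (Or.inl hs), ?_⟩, hk2⟩
      intro hkx
      exact hk3 ⟨⟨hk4, hkx⟩, hk5⟩
    refine h4.mono ?_ le_rfl
    rintro s (hs | rfl | hs)
    · exact Or.inr (Or.inr hs)
    · exact Or.inl rfl
    · rw [Set.mem_singleton_iff] at hs
      rw [hs]; exact Or.inr (Or.inl rfl)

lemma incompat {Ξ : Type*} (f : Ξ → Ix → Bool) : ∀ (n : ℕ) (T : Set Ξ), T.Infinite →
    ∀ D : Ξ → Finset Ix, (∀ ξ ∈ T, (D ξ).card ≤ n) →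
      ∃ ξ ∈ T, ∃ η ∈ T, ξ ≠ η ∧ ∀ i ∈ D ξ, i ∈ D η → f ξ i = f η i := by
  classical
  intro n
  induction n with
  | zero =>
    intro T hT D hD
    obtain ⟨ξ, hξ⟩ := hT.nonempty
    obtain ⟨η, hη, hne⟩ := hT.exists_notMem_finite (Set.finite_singleton ξ)
    refine ⟨ξ, hξ, η, hη, fun h => hne h.symm, fun i hi => ?_⟩
    have := Finset.card_eq_zero.1 (Nat.le_zero.1 (hD ξ hξ))
    rw [this] at hi
    exact absurd hi (Finset.notMem_empty i)
  | succ n ih =>
    intro T hT D hD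
    by_contra hc
    have hc' : ∀ ξ ∈ T, ∀ η ∈ T, ξ ≠ η → ∃ i ∈ D ξ, i ∈ D η ∧ f ξ i ≠ f η i := by
      intro ξ hξ η hη hne
      by_contra h'
      exact hc ⟨ξ, hξ, η, hη, hne, fun i hi hi' => by
        by_contra h''
        exact h' ⟨i, hi, hi', h''⟩⟩
    obtain ⟨ξ₀, hξ₀⟩ := hT.nonempty
    have hT' : (T \ {ξ₀}).Infinite := hT.diff (Set.finite_singleton ξ₀)
    have hsub : T \ {ξ₀} ⊆ ⋃ i ∈ (D ξ₀ : Set Ix), {ξ | ξ ∈ T ∧ i ∈ D ξ ∧ f ξ₀ i ≠ f ξ i} := by
      rintro ξ ⟨hξ, hne⟩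
      obtain ⟨i, hi, hi', h'⟩ := hc' ξ₀ hξ₀ ξ hξ (fun h => hne h.symm)
      rw [Set.mem_iUnion₂]
      exact ⟨i, Finset.mem_coe.2 hi, hξ, hi', h'⟩
    have hex : ∃ i ∈ (D ξ₀ : Set Ix), {ξ | ξ ∈ T ∧ i ∈ D ξ ∧ f ξ₀ i ≠ f ξ i}.Infinite := by
      by_contra hno
      apply hT'
      refine ((D ξ₀).finite_toSet.biUnion fun i hi => ?_).subset hsub
      by_contra h'
      exact hno ⟨i, hi, h'⟩
    obtain ⟨i, _, hinf⟩ := hex
    obtain ⟨ξ, hξ, η, hη, hne, hag⟩ := ih _ hinf (fun ξ => (D ξ).erase i) (fun ξ hξ => by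
      rw [Finset.card_erase_of_mem hξ.2.1]
      have := hD ξ hξ.1
      omega)
    obtain ⟨j, hj, hj', hfj⟩ := hc' ξ hξ.1 η hη.1 hne
    apply hfj
    by_cases hji : j = i
    · have h1 := hξ.2.2
      have h2 := hη.2.2
      rw [hji]
      revert h1 h2
      cases f ξ₀ i <;> cases f ξ i <;> cases f η i <;> simp
    · exact hag j (Finset.mem_erase.2 ⟨hji, hj⟩) (Finset.mem_erase.2 ⟨hji, hj'⟩)

lemma mk_finset_lt {α : Type} (h : #α < 𝔠) : #(Finset α) < 𝔠 := by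
  rcases finite_or_infinite α with h' | h'
  · exact (Cardinal.lt_aleph0_of_finite _).trans Cardinal.aleph0_lt_continuum
  · rw [Cardinal.mk_finset_of_infinite]; exact h

/-- fewer than continuum many members of an almost disjoint family are bad -/
lemma ad_ext {S : Set (Set ℕ)} {R : Set Ix} (h : GoodP S R) (hS : #S < 𝔠) {Ξ : Type}
    (Z : Ξ → Set ℕ) (hZ : ∀ ξ η, ξ ≠ η → (Z ξ ∩ Z η).Finite) :
    #{ξ | ¬ GoodP (insert (Z ξ)ᶜ S) R} < 𝔠 := by
  classical
  by_contra hc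
  rw [not_lt] at hc
  set bad : Set Ξ := {ξ | ¬ GoodP (insert (Z ξ)ᶜ S) R} with hbad
  have key : ∀ ξ : bad, ∃ (S0 : Finset S) (D : Finset Ix) (f : Ix → Bool), (∀ i ∈ D, i ∉ R) ∧
      (⋂₀ (Subtype.val '' (S0 : Set S)) ∩ (Z ξ)ᶜ ∩ B D f).Finite := by
    rintro ⟨ξ, hξ⟩
    obtain ⟨S0, h1, h2, D, hD, f, hf⟩ := not_good_insert hξ
    have hfin : (Subtype.val ⁻¹' S0 : Set S).Finite :=
      h2.preimage Subtype.val_injective.injOn
    refine ⟨hfin.toFinset, D, f, hD, ?_⟩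
    have : Subtype.val '' ((hfin.toFinset : Finset S) : Set S) = S0 := by
      rw [Set.Finite.coe_toFinset, Subtype.image_preimage_coe, Set.inter_eq_right]
      exact h1
    rw [this]
    exact hf
  choose S0 D f hDR hfin using key
  have hcard : #(Finset S × ℕ) < #(bad) := by
    refine lt_of_lt_of_le ?_ hc
    rw [Cardinal.mk_prod, Cardinal.lift_id, Cardinal.lift_id]
    exact Cardinal.mul_lt_of_lt Cardinal.aleph0_le_continuum (mk_finset_lt hS)
      (by rw [Cardinal.mk_nat]; exact Cardinal.aleph0_lt_continuum)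
  have hinf : Infinite bad := Cardinal.infinite_iff.2 (Cardinal.aleph0_le_continuum.trans hc)
  obtain ⟨a, ha⟩ := Cardinal.exists_infinite_fiber (fun ξ : bad => (S0 ξ, (D ξ).card)) hcard
  obtain ⟨ξ, hξ, η, hη, hne, hag⟩ := incompat f a.2
    ((fun ξ : bad => (S0 ξ, (D ξ).card)) ⁻¹' {a}) (Set.infinite_coe_iff.1 ha) D
    (fun ξ hξ => (congrArg Prod.snd hξ).le)
  have h1 : S0 ξ = a.1 := congrArg Prod.fst hξ
  have h2 : S0 η = a.1 := congrArg Prod.fst hη
  have h3 := h (Subtype.val '' ((a.1 : Finset S) : Set S)) (by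
    rintro _ ⟨s, _, rfl⟩; exact s.2) (a.1.finite_toSet.image _) (D ξ ∪ D η) (fun i hi => by
      rcases Finset.mem_union.1 hi with h' | h'
      · exact hDR ξ i h'
      · exact hDR η i h') (mrg (D ξ) (f ξ) (f η))
  rw [B_mrg _ _ _ _ hag] at h3
  apply h3
  have hf1 := hfin ξ
  have hf2 := hfin η
  rw [h1] at hf1
  rw [h2] at hf2
  refine ((hf1.union hf2).union (hZ ξ η (fun h' => hne (Subtype.ext h')))).subset ?_
  rintro k ⟨hk1, hk2, hk3⟩
  by_cases h4 : k ∈ Z ξ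
  · by_cases h5 : k ∈ Z η
    · exact Or.inr ⟨h4, h5⟩
    · exact Or.inl (Or.inr ⟨⟨hk1, h5⟩, hk3⟩)
  · exact Or.inl (Or.inl ⟨⟨hk1, h4⟩, hk2⟩)

end Pool.Agent.R196.Coi
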