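import Pool.Agent.R196.CoiA

/-! A transfinite recursion of length continuum. Paper proof: helper583. -/

set_option autoImplicit false

namespace Pool.Agent.R196.Coi

open Set Cardinal

open Classical in
/-- the next finite set -/
noncomputable def nxt {A : Type} (good D : Set A → Prop) (prev : Set A) : Set A :=
  if h : ∃ t : Set A, t.Finite ∧ good (prev ∪ t) ∧ D (prev ∪ t) then h.choose else ∅

lemma nxt_finite {A : Type} (good D : Set A → Prop) (prev : Set A) :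
    (nxt good D prev).Finite := by
  unfold nxt
  split_ifs with h
  · exact h.choose_spec.1
  · exact Set.finite_empty

theorem recursion {A ι : Type} [LinearOrder ι] [WellFoundedLT ι]
    (hι : ∀ i : ι, #(Set.Iio i) < 𝔠) (good : Set A → Prop) (h0 : good ∅)
    (hdir : ∀ c : Set (Set A), c.Nonempty → DirectedOn (· ⊆ ·) c → (∀ s ∈ c, good s) →
      good (⋃₀ c))
    (D : ι → Set A → Prop) (hmono : ∀ i s t, s ⊆ t → D i s → D i t)
    (hstep : ∀ i s, good s → #s < 𝔠 → ∃ t : Set A, t.Finite ∧ good (s ∪ t) ∧ D i (s ∪ t)) :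
    ∃ s, good s ∧ ∀ i, D i s := by
  classical
  let T : ι → Set A := (wellFounded_lt (α := ι)).fix (C := fun _ => Set A)
    (fun i ih => nxt good (D i) (⋃ j, ⋃ h : j < i, ih j h))
  have hT : ∀ i, T i = nxt good (D i) (⋃ j, ⋃ _ : j < i, T j) := by
    intro i
    exact WellFounded.fix_eq _ _ _
  have hTfin : ∀ i, (T i).Finite := by
    intro i
    rw [hT i]
    exact nxt_finite _ _ _
  -- goodness along lower sets
  have hlow : ∀ L : Set ι, (∀ j ∈ L, good (⋃ k, ⋃ _ : k ≤ j, T k)) → (∀ j ∈ L, ∀ k ≤ j, k ∈ L) →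
      good (⋃ j ∈ L, T j) := by
    intro L h1 h2
    have hc : (⋃ j ∈ L, T j) =
        ⋃₀ (insert ∅ {s | ∃ j ∈ L, s = ⋃ k, ⋃ _ : k ≤ j, T k}) := by
      ext x
      simp only [Set.mem_iUnion, Set.mem_sUnion, Set.mem_insert_iff, Set.mem_ofPred_eq, exists_prop]
      constructor
      · rintro ⟨j, hj, hx⟩
        exact ⟨_, Or.inr ⟨j, hj, rfl⟩, Set.mem_iUnion₂.2 ⟨j, le_rfl, hx⟩⟩
      · rintro ⟨s, rfl | ⟨j, hj, rfl⟩, hx⟩
        · exact absurd hx (Set.notMem_empty x)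
        · obtain ⟨k, hk, hx⟩ := Set.mem_iUnion₂.1 hx
          exact ⟨k, h2 j hj k hk, hx⟩
    rw [hc]
    apply hdir _ ⟨∅, Or.inl rfl⟩
    · rintro s (rfl | ⟨j, hj, rfl⟩) t (rfl | ⟨k, hk, rfl⟩)
      · exact ⟨∅, Or.inl rfl, le_rfl, le_rfl⟩
      · exact ⟨_, Or.inr ⟨k, hk, rfl⟩, Set.empty_subset _, le_rfl⟩
      · exact ⟨_, Or.inr ⟨j, hj, rfl⟩, le_rfl, Set.empty_subset _⟩
      · rcases le_total j k with hjk | hjk
        · refine ⟨_, Or.inr ⟨k, hk, rfl⟩, ?_, le_rfl⟩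
          intro x hx
          obtain ⟨i, hi, hx⟩ := Set.mem_iUnion₂.1 hx
          exact Set.mem_iUnion₂.2 ⟨i, hi.trans hjk, hx⟩
        · refine ⟨_, Or.inr ⟨j, hj, rfl⟩, le_rfl, ?_⟩
          intro x hx
          obtain ⟨i, hi, hx⟩ := Set.mem_iUnion₂.1 hx
          exact Set.mem_iUnion₂.2 ⟨i, hi.trans hjk, hx⟩
    · rintro s (rfl | ⟨j, hj, rfl⟩)
      · exact h0
      · exact h1 j hj
  have hcardP : ∀ i, #(⋃ j ∈ Set.Iio i, T j : Set A) < 𝔠 := by
    intro i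
    refine lt_of_le_of_lt (Cardinal.mk_biUnion_le T (Set.Iio i)) ?_
    refine lt_of_le_of_lt (mul_le_mul_right (b := ⨆ x : Set.Iio i, #(T x.1)) (c := ℵ₀) ?_ _) ?_
    · exact ciSup_le' fun x => (Cardinal.lt_aleph0_iff_finite.2 (hTfin x.1)).le
    · exact Cardinal.mul_lt_of_lt Cardinal.aleph0_le_continuum (hι i) Cardinal.aleph0_lt_continuum
  have heqP : ∀ i, (⋃ j, ⋃ _ : j < i, T j) = ⋃ j ∈ Set.Iio i, T j := fun i => rfl
  have heqT : ∀ i, (⋃ k, ⋃ _ : k ≤ i, T k) = (⋃ j ∈ Set.Iio i, T j) ∪ T i := by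
    intro i
    ext x
    simp only [Set.mem_iUnion, Set.mem_union, Set.mem_Iio, exists_prop]
    constructor
    · rintro ⟨k, hk, hx⟩
      rcases hk.lt_or_eq with h | h
      · exact Or.inl ⟨k, h, hx⟩
      · right; rw [← h]; exact hx
    · rintro (⟨k, hk, hx⟩ | hx)
      · exact ⟨k, hk.le, hx⟩
      · exact ⟨i, le_rfl, hx⟩
  have main : ∀ i, good (⋃ k, ⋃ _ : k ≤ i, T k) ∧ D i (⋃ k, ⋃ _ : k ≤ i, T k) := by
    intro i
    induction i using (wellFounded_lt (α := ι)).induction with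
    | _ i ih =>
    have hg : good (⋃ j ∈ Set.Iio i, T j) :=
      hlow _ (fun j hj => (ih j hj).1) (fun j hj k hk => lt_of_le_of_lt hk hj)
    have hex := hstep i _ hg (hcardP i)
    have hTi : T i = hex.choose := by
      rw [hT i, heqP i]
      unfold nxt
      rw [dif_pos hex]
    rw [heqT i, hTi]
    exact hex.choose_spec.2
  refine ⟨⋃ j ∈ (Set.univ : Set ι), T j, hlow _ (fun j _ => (main j).1) (fun _ _ _ _ => trivial),
    fun i => hmono i _ _ ?_ (main i).2⟩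
  intro x hx
  obtain ⟨k, _, hx⟩ := Set.mem_iUnion₂.1 hx
  exact Set.mem_iUnion₂.2 ⟨k, trivial, hx⟩

end Pool.Agent.R196.Coi
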