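import Mathlib

/-! Interval partitions, almost disjoint families, limits along dense sequences.
Paper proof: helper583. -/

set_option autoImplicit false

namespace Pool.Agent.R196.Coi

open Set Topology

section cyl
variable {σ : Type} [TopologicalSpace σ] [DiscreteTopology σ]

/-- sequences which agree with `a` up to `m` -/
def Cyl (m : ℕ) (a : ℕ → σ) : Set (ℕ → σ) := {y | ∀ n < m, y n = a n}

lemma isOpen_cyl (m : ℕ) (a : ℕ → σ) : IsOpen (Cyl m a) := by
  have : Cyl m a = ⋂ n ∈ (Finset.range m : Set ℕ), (fun y : ℕ → σ => y n) ⁻¹' {a n} := by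
    ext y
    simp [Cyl]
  rw [this]
  exact (Finset.range m).finite_toSet.isOpen_biInter fun n _ =>
    (isOpen_discrete _).preimage (continuous_apply n)

lemma exists_cyl {E : Set (ℕ → σ)} (hE : IsOpen E) {a : ℕ → σ} (ha : a ∈ E) :
    ∃ m, Cyl m a ⊆ E := by
  obtain ⟨J, u, h1, h2⟩ := isOpen_pi_iff.1 hE a ha
  refine ⟨J.sup id + 1, fun y hy => h2 ?_⟩
  intro i hi
  have : i < J.sup id + 1 := Nat.lt_succ_of_le (Finset.le_sup (f := id) hi)
  rw [hy i this]
  exact (h1 i hi).2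

lemma dense_iff_cyl {E : Set (ℕ → σ)} : Dense E ↔ ∀ m a, ∃ y ∈ E, y ∈ Cyl m a := by
  constructor
  · intro h m a
    obtain ⟨y, hy, hy'⟩ := h.inter_open_nonempty (Cyl m a) (isOpen_cyl m a) ⟨a, fun _ _ => rfl⟩
    exact ⟨y, hy', hy⟩
  · intro h
    rw [dense_iff_inter_open]
    rintro U hU ⟨a, ha⟩
    obtain ⟨m, hm⟩ := exists_cyl hU ha
    obtain ⟨y, hy, hy'⟩ := h m a
    exact ⟨y, hm hy', hy⟩

lemma one_block [Finite σ] [Nonempty σ] {E : Set (ℕ → σ)} (hE : IsOpen E) (hd : Dense E) (m : ℕ) :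
    ∃ m' > m, ∃ w : ℕ → σ, ∀ y : ℕ → σ, (∀ n, m ≤ n → n < m' → y n = w n) → y ∈ E := by
  classical
  have : Fintype σ := Fintype.ofFinite σ
  have key : ∀ T : Finset (Fin m → σ), ∃ m' > m, ∃ w : ℕ → σ, ∀ y : ℕ → σ,
      (fun n : Fin m => y n) ∈ T → (∀ n, m ≤ n → n < m' → y n = w n) → y ∈ E := by
    intro T
    induction T using Finset.induction_on with
    | empty =>
      obtain ⟨y0⟩ : Nonempty (ℕ → σ) := inferInstance
      exact ⟨m + 1, Nat.lt_succ_self m, y0, fun y hy => absurd hy (Finset.notMem_empty _)⟩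
    | insert t T _ ih =>
      obtain ⟨m', hm', w, hw⟩ := ih
      obtain ⟨y0, hy0, hc⟩ := dense_iff_cyl.1 hd m' (fun n => if h : n < m then t ⟨n, h⟩ else w n)
      obtain ⟨m2, hm2⟩ := exists_cyl hE hy0
      refine ⟨max m' m2, lt_of_lt_of_le hm' (le_max_left _ _), y0, fun y hy hyw => ?_⟩
      rcases Finset.mem_insert.1 hy with h | h
      · apply hm2
        intro n hn
        by_cases hnm : n < m
        · have h1 : y n = t ⟨n, hnm⟩ := congrFun h ⟨n, hnm⟩
          have h2 := hc n (hnm.trans hm')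
          simp only [hnm, dite_true] at h2
          rw [h1, h2]
        · exact hyw n (not_lt.1 hnm) (lt_of_lt_of_le hn (le_max_right _ _))
      · apply hw y h
        intro n h1 h2
        rw [hyw n h1 (lt_of_lt_of_le h2 (le_max_left _ _))]
        have h3 := hc n h2
        simp only [not_lt.2 h1, dite_false] at h3
        exact h3
  obtain ⟨m', hm', w, hw⟩ := key Finset.univ
  exact ⟨m', hm', w, fun y hy => hw y (Finset.mem_univ _) hy⟩

/-- the union of the blocks with index in `A` -/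
def ZA (z : ℕ → ℕ) (A : Set ℕ) : Set ℕ := {n | ∃ k ∈ A, z k ≤ n ∧ n < z (k + 1)}

lemma block_unique {z : ℕ → ℕ} (hz : StrictMono z) {n k l : ℕ} (h1 : z k ≤ n) (h2 : n < z (k + 1))
    (h3 : z l ≤ n) (h4 : n < z (l + 1)) : k = l := by
  have h5 : z k < z (l + 1) := lt_of_le_of_lt h1 h4
  have h6 : z l < z (k + 1) := lt_of_le_of_lt h3 h2
  have := hz.lt_iff_lt.1 h5
  have := hz.lt_iff_lt.1 h6
  omega

lemma ZA_inter_finite {z : ℕ → ℕ} (hz : StrictMono z) {A A' : Set ℕ} (h : (A ∩ A').Finite) :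
    (ZA z A ∩ ZA z A').Finite := by
  refine (h.biUnion fun k _ => Set.finite_Ico (z k) (z (k + 1))).subset ?_
  rintro n ⟨⟨k, hk, h1, h2⟩, ⟨l, hl, h3, h4⟩⟩
  have := block_unique hz h1 h2 h3 h4
  subst this
  exact Set.mem_biUnion (⟨hk, hl⟩ : k ∈ A ∩ A') (Set.mem_Ico.2 ⟨h1, h2⟩)

/-- interval partitions: comeagre sets contain all sequences which agree infinitely often with a
given one on the blocks -/
lemma partition [Finite σ] [Nonempty σ] {D : Set (ℕ → σ)} (hD : D ∈ residual (ℕ → σ)) :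
    ∃ z : ℕ → ℕ, StrictMono z ∧ ∃ w : ℕ → σ, ∀ A : Set ℕ, A.Infinite → ∀ y : ℕ → σ,
      (∀ n ∈ ZA z A, y n = w n) → y ∈ D := by
  classical
  obtain ⟨C, hC1, hC2, hC3, hC4⟩ := mem_residual_iff.1 hD
  -- enumerate
  obtain ⟨e, he⟩ : ∃ e : ℕ → Set (ℕ → σ), (∀ k, IsOpen (e k)) ∧ (∀ k, Dense (e k)) ∧
      ⋂ k, e k ⊆ D := by
    rcases C.eq_empty_or_nonempty with h | h
    · refine ⟨fun _ => Set.univ, fun _ => isOpen_univ, fun _ => dense_univ, fun y _ => hC4 ?_⟩
      rw [h]; simp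
    · obtain ⟨e, he⟩ := hC3.exists_eq_range h
      refine ⟨e, fun k => hC1 _ (by rw [he]; exact ⟨k, rfl⟩), fun k => hC2 _ (by
        rw [he]; exact ⟨k, rfl⟩), fun y hy => hC4 ?_⟩
      rw [he]
      rintro _ ⟨k, rfl⟩
      exact Set.mem_iInter.1 hy k
  obtain ⟨he1, he2, he3⟩ := he
  -- decreasing
  have hopen : ∀ k, IsOpen (⋂ j ∈ (Finset.range (k + 1) : Set ℕ), e j) := fun k =>
    (Finset.range (k + 1)).finite_toSet.isOpen_biInter fun j _ => he1 j
  have hdense : ∀ k, Dense (⋂ j ∈ (Finset.range (k + 1) : Set ℕ), e j) := by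
    intro k
    have : Dense (⋂ j, e j) := dense_iInter_of_isOpen he1 he2
    refine this.mono ?_
    intro y hy
    rw [Set.mem_iInter₂]
    intro j _
    exact Set.mem_iInter.1 hy j
  have hstep := fun k m => one_block (hopen k) (hdense k) m
  choose nx hnx wd hwd using hstep
  let z : ℕ → ℕ := fun k => Nat.rec (motive := fun _ => ℕ) 0 (fun k m => nx k m) k
  have hz1 : ∀ k, z (k + 1) = nx k (z k) := fun k => rfl
  have hz : StrictMono z := strictMono_nat_of_lt_succ fun k => by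
    rw [hz1]; exact hnx k (z k)
  let kk : ℕ → ℕ := fun n =>
    if h : ∃ k : ℕ, z k ≤ n ∧ n < z (k + 1) then Classical.choose h else 0
  have hkk : ∀ k n, z k ≤ n → n < z (k + 1) → kk n = k := by
    intro k n h1 h2
    have hex : ∃ k, z k ≤ n ∧ n < z (k + 1) := ⟨k, h1, h2⟩
    have : kk n = Classical.choose hex := dif_pos hex
    rw [this]
    exact block_unique hz (Classical.choose_spec hex).1 (Classical.choose_spec hex).2 h1 h2
  refine ⟨z, hz, fun n => wd (kk n) (z (kk n)) n, fun A hA y hy => he3 ?_⟩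
  rw [Set.mem_iInter]
  intro j
  obtain ⟨k, hk, hjk⟩ := hA.exists_gt j
  have := hwd k (z k) y (fun n h1 h2 => by
    rw [← hz1] at h2
    have h3 : y n = wd (kk n) (z (kk n)) n := hy n ⟨k, hk, h1, h2⟩
    rw [hkk k n h1 h2] at h3
    exact h3)
  rw [Set.mem_iInter₂] at this
  exact this j (by
    rw [Finset.coe_range, Set.mem_Iio]; omega)

end cyl

/-- an almost disjoint family of infinite sets -/
def adf (x : ℕ → Bool) : Set ℕ :=
  Set.range fun n : ℕ => Encodable.encode (List.ofFn fun i : Fin n => x i)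

lemma adf_infinite (x : ℕ → Bool) : (adf x).Infinite := by
  refine Set.infinite_range_of_injective fun a b hab => ?_
  have h := congrArg List.length (Encodable.encode_injective hab)
  simpa using h

lemma adf_inter (x y : ℕ → Bool) (h : x ≠ y) : (adf x ∩ adf y).Finite := by
  obtain ⟨j, hj⟩ := Function.ne_iff.1 h
  refine ((Set.finite_Iic j).image
    (fun n : ℕ => Encodable.encode (List.ofFn fun i : Fin n => x i))).subset ?_
  rintro _ ⟨⟨n, rfl⟩, ⟨m, hm⟩⟩
  refine ⟨n, ?_, rfl⟩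
  rw [Set.mem_Iic]
  by_contra hn
  rw [not_le] at hn
  have h1 := Encodable.encode_injective hm
  have h2 : m = n := by simpa using congrArg List.length h1
  subst h2
  have h3 := congrFun (List.ofFn_injective h1) ⟨j, hn⟩
  exact hj h3.symm

/-- `x` is the limit of `(q n).2` as `(q n).1` tends to `y` -/
def Lim (q : ℕ → (ℕ → Bool × Bool) × (ℕ → Bool)) (y : ℕ → Bool × Bool) (x : ℕ → Bool) : Prop :=
  ∀ m, ∃ l, ∀ n, (q n).1 ∈ Cyl l y → (q n).2 ∈ Cyl m x

def DenseQ (q : ℕ → (ℕ → Bool × Bool) × (ℕ → Bool)) : Prop :=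
  ∀ m a, ∃ n, (q n).1 ∈ Cyl m a

def HQ (q : ℕ → (ℕ → Bool × Bool) × (ℕ → Bool)) : Set (ℕ → Bool × Bool) := {y | ∃ x, Lim q y x}

lemma cyl_mono {σ : Type} {m l : ℕ} (h : m ≤ l) (a : ℕ → σ) : Cyl l a ⊆ Cyl m a :=
  fun _ hy n hn => hy n (lt_of_lt_of_le hn h)

lemma HQ_residual (q : ℕ → (ℕ → Bool × Bool) × (ℕ → Bool)) (hq : DenseQ q) (hd : Dense (HQ q)) :
    HQ q ∈ residual (ℕ → Bool × Bool) := by
  classical
  let O : ℕ → Set (ℕ → Bool × Bool) := fun m =>
    {y | ∃ l, ∀ n n', (q n).1 ∈ Cyl l y → (q n').1 ∈ Cyl l y → (q n').2 ∈ Cyl m (q n).2}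
  have hO1 : ∀ m, IsOpen (O m) := by
    intro m
    have : O m = ⋃ l, ⋃ a ∈ {a | ∀ n n', (q n).1 ∈ Cyl l a → (q n').1 ∈ Cyl l a →
        (q n').2 ∈ Cyl m (q n).2}, Cyl l a := by
      ext y
      simp only [Set.mem_iUnion, exists_prop, Set.mem_ofPred_eq, O]
      constructor
      · rintro ⟨l, hl⟩
        exact ⟨l, y, hl, fun _ _ => rfl⟩
      · rintro ⟨l, a, ha, hy⟩
        refine ⟨l, fun n n' h1 h2 => ha n n' ?_ ?_⟩
        · intro i hi; rw [h1 i hi, hy i hi]
        · intro i hi; rw [h2 i hi, hy i hi]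
    rw [this]
    exact isOpen_iUnion fun l => isOpen_biUnion fun a _ => isOpen_cyl l a
  have hsub1 : ∀ m, HQ q ⊆ O m := by
    rintro m y ⟨x, hx⟩
    obtain ⟨l, hl⟩ := hx m
    refine ⟨l, fun n n' h1 h2 i hi => ?_⟩
    rw [hl n h1 i hi, hl n' h2 i hi]
  have hsub2 : ⋂ m, O m ⊆ HQ q := by
    intro y hy
    rw [Set.mem_iInter] at hy
    choose l hl using hy
    choose n hn using fun m => hq (l m) y
    refine ⟨fun i => (q (n (i + 1))).2 i, fun m => ?_⟩
    refine ⟨(Finset.range m).sup (fun i => l (i + 1)), fun k hk i hi => ?_⟩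
    refine hl (i + 1) (n (i + 1)) k (hn (i + 1)) (cyl_mono ?_ _ hk) i (Nat.lt_succ_self i)
    exact Finset.le_sup (f := fun i => l (i + 1)) (Finset.mem_range.2 hi)
  refine Filter.mem_of_superset ?_ hsub2
  rw [mem_residual_iff]
  refine ⟨Set.range O, ?_, ?_, Set.countable_range O, ?_⟩
  · rintro _ ⟨m, rfl⟩; exact hO1 m
  · rintro _ ⟨m, rfl⟩; exact hd.mono (hsub1 m)
  · rw [Set.sInter_range]

end Pool.Agent.R196.Coi
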