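import Pool.Agent.R196.CoiB
import Pool.Agent.R196.CoiC

/-! The construction of the pair of ultrafilters. Paper proof: helper583. -/

set_option autoImplicit false

namespace Pool.Agent.R196.Coi

open Set Cardinal Topology

/-- the states are sets of elements of this type -/
abbrev St := (Bool × Set ℕ) ⊕ Ix

def Sb (s : Set St) (b : Bool) : Set (Set ℕ) := {x | Sum.inl (b, x) ∈ s}

def Rr (s : Set St) : Set Ix := {i | Sum.inr i ∈ s}

def good (s : Set St) : Prop := ∀ b, GoodP (Sb s b) (Rr s)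

def mk (τ : Bool → Set (Set ℕ)) (Q : Set Ix) : Set St :=
  (⋃ b, (fun x => Sum.inl (b, x)) '' τ b) ∪ Sum.inr '' Q

lemma mk_finite {τ : Bool → Set (Set ℕ)} {Q : Set Ix} (h : ∀ b, (τ b).Finite) (hQ : Q.Finite) :
    (mk τ Q).Finite :=
  (Set.finite_iUnion fun b => (h b).image _).union (hQ.image _)

lemma Sb_mk (s : Set St) (τ : Bool → Set (Set ℕ)) (Q : Set Ix) (b : Bool) :
    Sb (s ∪ mk τ Q) b = Sb s b ∪ τ b := by
  ext x
  simp [Sb, mk]

lemma Rr_mk (s : Set St) (τ : Bool → Set (Set ℕ)) (Q : Set Ix) :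
    Rr (s ∪ mk τ Q) = Rr s ∪ Q := by
  ext x
  simp [Rr, mk]

lemma Sb_mono {s t : Set St} (h : s ⊆ t) (b : Bool) : Sb s b ⊆ Sb t b := fun _ hx => h hx

lemma good_mk {s : Set St} {τ : Bool → Set (Set ℕ)} {Q : Set Ix}
    (h : ∀ b, GoodP (Sb s b ∪ τ b) (Rr s ∪ Q)) : good (s ∪ mk τ Q) := by
  intro b
  rw [Sb_mk, Rr_mk]
  exact h b

lemma finite_dir {α : Type} {c : Set (Set α)} (hne : c.Nonempty) (hc : DirectedOn (· ⊆ ·) c)
    {F : Set α} (hF : F.Finite) (hs : F ⊆ ⋃₀ c) : ∃ s ∈ c, F ⊆ s := by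
  induction F, hF using Set.Finite.induction_on with
  | empty =>
    obtain ⟨s, hs⟩ := hne
    exact ⟨s, hs, Set.empty_subset _⟩
  | @insert a F _ _ ih =>
    obtain ⟨s, hs1, hs2⟩ := ih ((Set.subset_insert _ _).trans hs)
    obtain ⟨t, ht1, ht2⟩ := hs (Set.mem_insert a F)
    obtain ⟨u, hu, h1, h2⟩ := hc s hs1 t ht1
    refine ⟨u, hu, ?_⟩
    rintro x (rfl | hx)
    · exact h2 ht2
    · exact h1 (hs2 hx)

lemma good_dir (c : Set (Set St)) (hne : c.Nonempty) (hc : DirectedOn (· ⊆ ·) c)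
    (h : ∀ s ∈ c, good s) : good (⋃₀ c) := by
  intro b S0 h1 h2 D hD f
  have h3 : (fun x => (Sum.inl (b, x) : St)) '' S0 ⊆ ⋃₀ c := by
    rintro _ ⟨x, hx, rfl⟩
    exact h1 hx
  obtain ⟨s, hs, hs'⟩ := finite_dir hne hc (h2.image _) h3
  exact h s hs b S0 (fun x hx => hs' ⟨x, hx, rfl⟩) h2 D
    (fun i hi hi' => hD i hi ⟨s, hs, hi'⟩) f

lemma good_nil : good ∅ := by
  intro b
  exact good_empty.mono (fun x hx => hx) (Set.empty_subset _)

lemma card_Sb {s : Set St} (hs : #s < 𝔠) (b : Bool) : #(Sb s b) < 𝔠 := by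
  refine lt_of_le_of_lt ?_ hs
  refine Cardinal.mk_le_of_injective (f := fun x : Sb s b => (⟨Sum.inl (b, x.1), x.2⟩ : s)) ?_
  intro x y hxy
  have := congrArg Subtype.val hxy
  simp only [Sum.inl.injEq, Prod.mk.injEq, true_and] at this
  exact Subtype.ext this

lemma card_Rr {s : Set St} (hs : #s < 𝔠) : #(Rr s) < 𝔠 := by
  refine lt_of_le_of_lt ?_ hs
  refine Cardinal.mk_le_of_injective (f := fun x : Rr s => (⟨Sum.inr x.1, x.2⟩ : s)) ?_
  intro x y hxy
  have := congrArg Subtype.val hxy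
  simp only [Sum.inr.injEq] at this
  exact Subtype.ext this

lemma mk_Ix : #Ix = 𝔠 := by
  rw [← Cardinal.power_def, Cardinal.mk_bool, Cardinal.mk_nat, Cardinal.two_power_aleph0]

lemma exists_notMem (R : Set Ix) (h : #R < 𝔠) : ∃ i, i ∉ R := by
  by_contra hc
  have h1 : R = Set.univ := Set.eq_univ_of_forall fun i => by
    by_contra h'
    exact hc ⟨i, h'⟩
  rw [h1, Cardinal.mk_univ, mk_Ix] at h
  exact lt_irrefl _ h

/-- the two halves of the integers -/
def dbl (b : Bool) (n : ℕ) : ℕ := 2 * n + b.toNat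

lemma dbl_inj (b : Bool) : Function.Injective (dbl b) := by
  intro m n h
  unfold dbl at h
  omega

lemma dbl_div (b : Bool) (n : ℕ) : dbl b n / 2 = n := by
  cases b <;> simp [dbl] <;> omega

/-- the formulas for `F⁺ × F⁺` and for `F × F⁺` -/
def phi (φ a b c d : Bool) : Bool := cond φ ((a || b) && (c || d)) ((a && b) && (c || d))

/-- `s` decides that the function `h` is constant `u` modulo the filter `b` -/
def Dec (s : Set St) (b : Bool) (h : ℕ → Bool) (u : Bool) : Prop :=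
  {n | h n = u} ∈ Filter.generate (Sb s b)

lemma gen_mono {S T : Set (Set ℕ)} (h : S ⊆ T) {x : Set ℕ} (hx : x ∈ Filter.generate S) :
    x ∈ Filter.generate T := by
  have : Filter.generate T ≤ Filter.generate S :=
    Filter.le_generate_iff.2 fun y hy => Filter.GenerateSets.basic (h hy)
  exact this hx

lemma gen_basic {S : Set (Set ℕ)} {x : Set ℕ} (hx : x ∈ S) : x ∈ Filter.generate S :=
  Filter.GenerateSets.basic hx

/-- the type of the sequences of pairs -/
abbrev Sq := ℕ → (ℕ → Bool × Bool) × (ℕ → Bool)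

/-- the requirements -/
abbrev Req := (ℕ → ℕ) ⊕ ((Bool × Sq) ⊕ Set ℕ)

def DA (z : ℕ → ℕ) (s : Set St) : Prop :=
  StrictMono z → ∃ A : Set ℕ, A.Infinite ∧
    ∀ b, {n | dbl b n ∉ ZA z A} ∈ Filter.generate (Sb s b)

def DB (φ : Bool) (q : Sq) (s : Set St) : Prop :=
  DenseQ q → Dense (HQ q) → ∃ y x, Lim q y x ∧ ∃ (u : Bool → Bool) (v : Bool → Bool × Bool),
    (∀ b, Dec s b (fun n => x (dbl b n)) (u b)) ∧
    (∀ b, Dec s b (fun n => (y (dbl b n)).1) (v b).1) ∧
    (∀ b, Dec s b (fun n => (y (dbl b n)).2) (v b).2) ∧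
    (u false || u true) ≠ phi φ (v false).1 (v true).1 (v false).2 (v true).2

def DC (x : Set ℕ) (s : Set St) : Prop :=
  ∀ b, x ∈ Filter.generate (Sb s b) ∨ xᶜ ∈ Filter.generate (Sb s b)

def DReq (r : Req) (s : Set St) : Prop :=
  match r with
  | Sum.inl z => DA z s
  | Sum.inr (Sum.inl p) => DB p.1 p.2 s
  | Sum.inr (Sum.inr x) => DC x s

lemma DReq_mono (r : Req) (s t : Set St) (h : s ⊆ t) (hr : DReq r s) : DReq r t := by
  rcases r with z | p | x
  · intro hz
    obtain ⟨A, hA, hb⟩ := hr hz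
    exact ⟨A, hA, fun b => gen_mono (Sb_mono h b) (hb b)⟩
  · intro h1 h2
    obtain ⟨y, x, hl, u, v, h3, h4, h5, h6⟩ := hr h1 h2
    exact ⟨y, x, hl, u, v, fun b => gen_mono (Sb_mono h b) (h3 b),
      fun b => gen_mono (Sb_mono h b) (h4 b), fun b => gen_mono (Sb_mono h b) (h5 b), h6⟩
  · intro b
    exact (hr b).imp (gen_mono (Sb_mono h b)) (gen_mono (Sb_mono h b))

lemma pick_ad {s : Set St} (h : good s) (hs : #s < 𝔠) {z : ℕ → ℕ} (hz : StrictMono z) :
    ∃ ξ : Ix, ∀ b, GoodP (insert {n | dbl b n ∉ ZA z (adf ξ)} (Sb s b)) (Rr s) := by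
  have h1 : ∀ b, #{ξ : Ix | ¬ GoodP (insert {n | dbl b n ∈ ZA z (adf ξ)}ᶜ (Sb s b)) (Rr s)} < 𝔠 := by
    intro b
    refine ad_ext (h b) (card_Sb hs b) (fun ξ => {n | dbl b n ∈ ZA z (adf ξ)}) ?_
    intro ξ η hne
    have := (ZA_inter_finite hz (adf_inter ξ η hne)).preimage (dbl_inj b).injOn
    exact this
  obtain ⟨ξ, hξ⟩ := exists_notMem
    ({ξ : Ix | ¬ GoodP (insert {n | dbl false n ∈ ZA z (adf ξ)}ᶜ (Sb s false)) (Rr s)} ∪
      {ξ : Ix | ¬ GoodP (insert {n | dbl true n ∈ ZA z (adf ξ)}ᶜ (Sb s true)) (Rr s)})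
    (lt_of_le_of_lt (Cardinal.mk_union_le _ _)
      (Cardinal.add_lt_of_lt Cardinal.aleph0_le_continuum (h1 false) (h1 true)))
  refine ⟨ξ, fun b => ?_⟩
  by_contra hb
  apply hξ
  cases b
  · exact Or.inl hb
  · exact Or.inr hb

lemma stageA {s : Set St} (h : good s) (hs : #s < 𝔠) (z : ℕ → ℕ) :
    ∃ t : Set St, t.Finite ∧ good (s ∪ t) ∧ DA z (s ∪ t) := by
  by_cases hz : StrictMono z
  · obtain ⟨ξ, hξ⟩ := pick_ad h hs hz
    refine ⟨mk (fun b => {{n | dbl b n ∉ ZA z (adf ξ)}}) ∅, mk_finite (fun b =>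
      Set.finite_singleton _) Set.finite_empty, good_mk fun b => ?_, fun _ => ?_⟩
    · refine (hξ b).mono ?_ Set.subset_union_left
      rintro x (hx | hx)
      · exact Or.inr hx
      · exact Or.inl hx
    · refine ⟨adf ξ, adf_infinite ξ, fun b => gen_basic ?_⟩
      rw [Sb_mk]
      exact Or.inr rfl
  · refine ⟨∅, Set.finite_empty, by rwa [Set.union_empty], fun hz' => absurd hz' hz⟩

lemma stageC {s : Set St} (h : good s) (x : Set ℕ) :
    ∃ t : Set St, t.Finite ∧ good (s ∪ t) ∧ DC x (s ∪ t) := by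
  choose t Q ht hQ hg hx using fun b => decide_set (h b) x
  refine ⟨mk t (⋃ b, Q b), mk_finite ht (Set.finite_iUnion hQ), good_mk fun b => ?_, fun b => ?_⟩
  · exact (hg b).mono le_rfl (Set.union_subset_union_right _ (Set.subset_iUnion Q b))
  · rw [Sb_mk]
    exact (hx b).imp (fun h => gen_basic (Or.inr h)) (fun h => gen_basic (Or.inr h))

lemma decide_fun {S : Set (Set ℕ)} {R : Set Ix} (h : GoodP S R) (g : ℕ → Bool) :
    ∃ (t : Set (Set ℕ)) (Q : Set Ix) (u : Bool), t.Finite ∧ Q.Finite ∧ GoodP (S ∪ t) (R ∪ Q) ∧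
      {n | g n = u} ∈ t := by
  obtain ⟨t, Q, h1, h2, h3, h4⟩ := decide_set h {n | g n = true}
  rcases h4 with h4 | h4
  · exact ⟨t, Q, true, h1, h2, h3, h4⟩
  · refine ⟨t, Q, false, h1, h2, h3, ?_⟩
    have : {n | g n = false} = {n | g n = true}ᶜ := by
      ext n
      simp
    rw [this]; exact h4

set_option maxRecDepth 100000 in
lemma check8 : ∀ (φ f1 f2 f3 f4 g1 g2 g3 g4 : Bool), ∃ d1 d2 e1 e2 : Bool,
    ((cond d1 (cond d2 f1 f2) (cond d2 f3 f4)) || (cond e1 (cond e2 g1 g2) (cond e2 g3 g4))) ≠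
      phi φ d1 e1 d2 e2 := by
  decide

lemma check (φ : Bool) (f g : Bool × Bool → Bool) : ∃ d e : Bool × Bool,
    (f d || g e) ≠ phi φ d.1 e.1 d.2 e.2 := by
  obtain ⟨d1, d2, e1, e2, h⟩ := check8 φ (f (true, true)) (f (true, false)) (f (false, true))
    (f (false, false)) (g (true, true)) (g (true, false)) (g (false, true)) (g (false, false))
  refine ⟨(d1, d2), (e1, e2), ?_⟩
  revert h
  cases d1 <;> cases d2 <;> cases e1 <;> cases e2 <;> exact id

lemma stageB {s : Set St} (h : good s) (hs : #s < 𝔠) (φ : Bool) (q : Sq) :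
    ∃ t : Set St, t.Finite ∧ good (s ∪ t) ∧ DB φ q (s ∪ t) := by
  classical
  by_cases hq : DenseQ q
  swap
  · exact ⟨∅, Set.finite_empty, by rwa [Set.union_empty], fun hq' => absurd hq' hq⟩
  by_cases hd : Dense (HQ q)
  swap
  · exact ⟨∅, Set.finite_empty, by rwa [Set.union_empty], fun _ hd' => absurd hd' hd⟩
  obtain ⟨z, hz, w, hw⟩ := partition (HQ_residual q hq hd)
  obtain ⟨ξ, hξ⟩ := pick_ad h hs hz
  obtain ⟨i, hi⟩ := exists_notMem (Rr s) (card_Rr hs)
  obtain ⟨j, hj⟩ := exists_notMem (Rr s ∪ {i}) (lt_of_le_of_lt (Cardinal.mk_union_le _ _)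
    (Cardinal.add_lt_of_lt Cardinal.aleph0_le_continuum (card_Rr hs) (by
      rw [Cardinal.mk_singleton]
      exact Cardinal.one_lt_aleph0.trans Cardinal.aleph0_lt_continuum)))
  have hjR : j ∉ Rr s := fun h' => hj (Or.inl h')
  have hji : j ≠ i := fun h' => hj (Or.inr h')
  let y : ℕ → Bool × Bool := fun k =>
    if k ∈ ZA z (adf ξ) then w k else (decide (k / 2 ∈ X i), decide (k / 2 ∈ X j))
  have hyH : y ∈ HQ q := by
    refine hw (adf ξ) (adf_infinite ξ) y fun n hn => ?_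
    show (if n ∈ ZA z (adf ξ) then w n else _) = w n
    rw [if_pos hn]
  obtain ⟨x, hx⟩ := hyH
  let ff : Bool × Bool → Ix → Bool := fun d k => if k = i then d.1 else d.2
  have hgood1 : ∀ (b : Bool) (d : Bool × Bool),
      GoodP (insert (B {i, j} (ff d)) (insert {n | dbl b n ∉ ZA z (adf ξ)} (Sb s b)))
        (Rr s ∪ (({i, j} : Finset Ix) : Set Ix)) := by
    intro b d
    refine good_insert_B (hξ b) {i, j} ?_ (ff d)
    intro k hk
    rcases Finset.mem_insert.1 hk with rfl | hk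
    · exact hi
    · rw [Finset.mem_singleton] at hk
      rw [hk]; exact hjR
  choose t Q u ht hQ hg hu using fun (b : Bool) (d : Bool × Bool) =>
    decide_fun (hgood1 b d) (fun n => x (dbl b n))
  obtain ⟨d, e, hde⟩ := check φ (u false) (u true)
  let δ : Bool → Bool × Bool := fun b => cond b e d
  let τ : Bool → Set (Set ℕ) := fun b =>
    insert (B {i, j} (ff (δ b))) (insert {n | dbl b n ∉ ZA z (adf ξ)} (t b (δ b)))
  have hτ : ∀ b, (τ b).Finite := fun b => ((ht b (δ b)).insert _).insert _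
  refine ⟨mk τ ((({i, j} : Finset Ix) : Set Ix) ∪ ⋃ b, Q b (δ b)), mk_finite hτ
    ((Finset.finite_toSet _).union (Set.finite_iUnion fun b => hQ b (δ b))),
    good_mk fun b => ?_, fun _ _ => ?_⟩
  · refine (hg b (δ b)).mono ?_ ?_
    · rintro a (ha | ha | ha | ha)
      · exact Or.inl (Or.inr (Or.inr ha))
      · exact Or.inl (Or.inl ha)
      · exact Or.inl (Or.inr (Or.inl ha))
      · exact Or.inr ha
    · rintro k ((hk | hk) | hk)
      · exact Or.inl hk
      · exact Or.inr (Or.inl hk)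
      · exact Or.inr (Or.inr (Set.mem_iUnion.2 ⟨b, hk⟩))
  · have hP : ∀ b, {n | dbl b n ∉ ZA z (adf ξ)} ∩ B {i, j} (ff (δ b)) ∈
        Filter.generate (Sb (s ∪ mk τ ((({i, j} : Finset Ix) : Set Ix) ∪ ⋃ b, Q b (δ b))) b) := by
      intro b
      rw [Sb_mk]
      exact Filter.inter_mem (gen_basic (Or.inr (Or.inr (Or.inl rfl))))
        (gen_basic (Or.inr (Or.inl rfl)))
    refine ⟨y, x, hx, fun b => u b (δ b), δ, fun b => ?_, fun b => ?_, fun b => ?_, hde⟩
    · show _ ∈ Filter.generate _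
      rw [Sb_mk]
      exact gen_basic (Or.inr (Or.inr (Or.inr (hu b (δ b)))))
    · refine Filter.mem_of_superset (hP b) ?_
      rintro n ⟨h1, h2⟩
      have h3 := h2 i (by simp)
      have h4 : ff (δ b) i = (δ b).1 := if_pos rfl
      rw [h4] at h3
      show (y (dbl b n)).1 = _
      have h5 : y (dbl b n) = (decide (dbl b n / 2 ∈ X i), decide (dbl b n / 2 ∈ X j)) :=
        if_neg h1
      rw [h5, dbl_div]
      show decide (n ∈ X i) = _
      cases h6 : (δ b).1
      · rw [h6] at h3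
        simpa using h3
      · rw [h6] at h3
        simpa using h3
    · refine Filter.mem_of_superset (hP b) ?_
      rintro n ⟨h1, h2⟩
      have h3 := h2 j (by simp)
      have h4 : ff (δ b) j = (δ b).2 := if_neg hji
      rw [h4] at h3
      show (y (dbl b n)).2 = _
      have h5 : y (dbl b n) = (decide (dbl b n / 2 ∈ X i), decide (dbl b n / 2 ∈ X j)) :=
        if_neg h1
      rw [h5, dbl_div]
      show decide (n ∈ X j) = _
      cases h6 : (δ b).2
      · rw [h6] at h3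
        simpa using h3
      · rw [h6] at h3
        simpa using h3

lemma stage {s : Set St} (h : good s) (hs : #s < 𝔠) (r : Req) :
    ∃ t : Set St, t.Finite ∧ good (s ∪ t) ∧ DReq r (s ∪ t) := by
  rcases r with z | p | x
  · exact stageA h hs z
  · exact stageB h hs p.1 p.2
  · exact stageC h x

lemma mk_Req : #Req ≤ 𝔠 := by
  have h1 : #(ℕ → ℕ) = 𝔠 := by
    rw [← Cardinal.power_def, Cardinal.mk_nat, Cardinal.aleph0_power_aleph0]
  have h2 : #(ℕ → Bool × Bool) = 𝔠 := by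
    rw [← Cardinal.power_def, Cardinal.mk_nat, Cardinal.mk_prod, Cardinal.mk_bool,
      Cardinal.lift_id]
    have : (2 : Cardinal) * 2 = ((4 : ℕ) : Cardinal) := by norm_num
    rw [this, Cardinal.nat_power_aleph0 (by norm_num)]
  have h3 : #(ℕ → Bool) = 𝔠 := mk_Ix
  have h4 : #Sq = 𝔠 := by
    show #(ℕ → (ℕ → Bool × Bool) × (ℕ → Bool)) = 𝔠
    rw [← Cardinal.power_def, Cardinal.mk_nat, Cardinal.mk_prod, h2, h3, Cardinal.lift_id,
      Cardinal.continuum_mul_self, Cardinal.continuum_power_aleph0]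
  have h5 : #(Set ℕ) = 𝔠 := by
    rw [Cardinal.mk_set, Cardinal.mk_nat, Cardinal.two_power_aleph0]
  rw [Cardinal.mk_sum, Cardinal.mk_sum, Cardinal.mk_prod, h1, h4, h5]
  simp

theorem exists_state : ∃ s : Set St, good s ∧ ∀ r, DReq r s := by
  have hcard : #Req ≤ #((𝔠 : Cardinal.{0}).ord.ToType) := by
    rw [Cardinal.mk_ord_toType]; exact mk_Req
  obtain ⟨e⟩ := hcard
  obtain ⟨s, hs, h⟩ := recursion (A := St) (ι := (𝔠 : Cardinal.{0}).ord.ToType)
    (fun i => by simpa using Cardinal.mk_Iio_lt i (by simp))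
    good good_nil good_dir
    (fun i s => ∀ r, e r = i → DReq r s)
    (fun i s t hst h r hr => DReq_mono r s t hst (h r hr))
    (fun i s hg hs => by
      by_cases hi : ∃ r, e r = i
      · obtain ⟨r, hr⟩ := hi
        obtain ⟨t, h1, h2, h3⟩ := stage hg hs r
        refine ⟨t, h1, h2, fun r' hr' => ?_⟩
        rw [e.injective (hr'.trans hr.symm)]
        exact h3
      · exact ⟨∅, Set.finite_empty, by rwa [Set.union_empty], fun r hr => absurd ⟨r, hr⟩ hi⟩)
  exact ⟨s, hs, fun r => h (e r) r rfl⟩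

end Pool.Agent.R196.Coi
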