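import Pool.Agent.R196.CoiD

/-! The filter whose coideal is rigid. Paper proof: helper583. -/

set_option autoImplicit false

namespace Pool.Agent.R196.Coi

open Set Topology

lemma good_mem_infinite {s : Set St} (h : good s) (b : Bool) {A : Set ℕ}
    (hA : A ∈ Filter.generate (Sb s b)) : A.Infinite := by
  obtain ⟨t, h1, h2, h3⟩ := Filter.mem_generate_iff.1 hA
  have h4 := h b t h1 h2 ∅ (fun i hi => absurd hi (Finset.notMem_empty i)) (fun _ => true)
  exact h4.mono fun k hk => h3 hk.1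

lemma dec_iff {s : Set St} (h : good s) (b : Bool) (g : ℕ → Bool) (u : Bool)
    (hd : Dec s b g u) : {n | g n = true} ∈ Filter.generate (Sb s b) ↔ u = true := by
  constructor
  · intro h1
    by_contra hu
    have hu' : u = false := by simpa using hu
    rw [hu'] at hd
    have h2 := good_mem_infinite h b (Filter.inter_mem h1 hd)
    obtain ⟨n, hn1, hn2⟩ := h2.nonempty
    rw [Set.mem_ofPred_eq] at hn1 hn2
    rw [hn1] at hn2
    exact Bool.noConfusion hn2
  · intro hu
    rw [hu] at hd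
    exact hd

/-- the characteristic functions of the positive sets -/
def Pos (F : Filter ℕ) : Set (ℕ → Bool) := {x | ∀ A ∈ F, ∃ n ∈ A, x n = true}

/-- the characteristic functions of the members -/
def Mem (F : Filter ℕ) : Set (ℕ → Bool) := {x | {n | x n = true} ∈ F}

def pr {Q R : Set (ℕ → Bool)} (p : Q × R) : ℕ → Bool × Bool := fun n => (p.1.1 n, p.2.1 n)

lemma continuous_pr {Q R : Set (ℕ → Bool)} : Continuous (pr : Q × R → ℕ → Bool × Bool) := by
  refine continuous_pi fun n => ?_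
  exact (((continuous_apply n).comp continuous_subtype_val).comp continuous_fst).prodMk
    (((continuous_apply n).comp continuous_subtype_val).comp continuous_snd)

lemma nhd_sub {P : Set (ℕ → Bool)} {O : Set P} (hO : IsOpen O) {x : P} (hx : x ∈ O) :
    ∃ l, ∀ x' : P, x'.1 ∈ Cyl l x.1 → x' ∈ O := by
  obtain ⟨O', hO', rfl⟩ := isOpen_induced_iff.1 hO
  obtain ⟨l, hl⟩ := exists_cyl hO' hx
  exact ⟨l, fun x' hx' => hl hx'⟩

lemma nhd_prod {Q R : Set (ℕ → Bool)} {O : Set (Q × R)} (hO : IsOpen O) {p : Q × R} (hp : p ∈ O) :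
    ∃ l, ∀ p' : Q × R, pr p' ∈ Cyl l (pr p) → p' ∈ O := by
  obtain ⟨u, v, hu, hv, h1, h2, h3⟩ := isOpen_prod_iff.1 hO p.1 p.2 hp
  obtain ⟨l, hl⟩ := nhd_sub hu h1
  obtain ⟨m, hm⟩ := nhd_sub hv h2
  refine ⟨max l m, fun p' hp' => h3 ⟨hl p'.1 ?_, hm p'.2 ?_⟩⟩
  · intro n hn
    exact congrArg Prod.fst (hp' n (lt_of_lt_of_le hn (le_max_left _ _)))
  · intro n hn
    exact congrArg Prod.snd (hp' n (lt_of_lt_of_le hn (le_max_right _ _)))

lemma lim_unique {q : Sq} (hq : DenseQ q) {y : ℕ → Bool × Bool} {x x' : ℕ → Bool}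
    (h : Lim q y x) (h' : Lim q y x') : x = x' := by
  funext k
  obtain ⟨l, hl⟩ := h (k + 1)
  obtain ⟨l', hl'⟩ := h' (k + 1)
  obtain ⟨n, hn⟩ := hq (max l l') y
  rw [← hl n (cyl_mono (le_max_left _ _) _ hn) k (Nat.lt_succ_self k),
    ← hl' n (cyl_mono (le_max_right _ _) _ hn) k (Nat.lt_succ_self k)]

lemma homeo_seq {P Q R : Set (ℕ → Bool)} (g : P ≃ₜ (Q × R)) (hQ : Dense Q) (hR : Dense R) :
    ∃ q : Sq, DenseQ q ∧ Dense (HQ q) ∧ ∀ y x, Lim q y x →
      (x ∈ P ↔ ((fun n => (y n).1) ∈ Q ∧ (fun n => (y n).2) ∈ R)) := by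
  have hne : Nonempty (Q × R) := by
    obtain ⟨a, ha⟩ := hQ.nonempty
    obtain ⟨b, hb⟩ := hR.nonempty
    exact ⟨(⟨a, ha⟩, ⟨b, hb⟩)⟩
  have hcyl : ∀ m (a : ℕ → Bool × Bool), ∃ p : Q × R, pr p ∈ Cyl m a := by
    intro m a
    obtain ⟨b, hb, hb'⟩ := dense_iff_cyl.1 hQ m (fun n => (a n).1)
    obtain ⟨c, hc, hc'⟩ := dense_iff_cyl.1 hR m (fun n => (a n).2)
    refine ⟨(⟨b, hb⟩, ⟨c, hc⟩), fun n hn => ?_⟩
    exact Prod.ext (hb' n hn) (hc' n hn)
  let d : ℕ → Q × R := TopologicalSpace.denseSeq (Q × R)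
  have hd : DenseRange d := TopologicalSpace.denseRange_denseSeq _
  let q : Sq := fun n => (pr (d n), (g.symm (d n)).1)
  have hq : DenseQ q := by
    intro m a
    obtain ⟨p, hp⟩ := hcyl m a
    obtain ⟨n, hn⟩ := hd.exists_mem_open ((isOpen_cyl m a).preimage continuous_pr) ⟨p, hp⟩
    exact ⟨n, hn⟩
  have hlim : ∀ p : Q × R, Lim q (pr p) (g.symm p).1 := by
    intro p m
    have hO : IsOpen (g.symm ⁻¹' (Subtype.val ⁻¹' (Cyl m (g.symm p).1) : Set P)) :=
      ((isOpen_cyl m _).preimage continuous_subtype_val).preimage g.symm.continuous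
    obtain ⟨l, hl⟩ := nhd_prod hO (p := p) (fun _ _ => rfl)
    exact ⟨l, fun n hn => hl (d n) hn⟩
  refine ⟨q, hq, ?_, ?_⟩
  · rw [dense_iff_cyl]
    intro m a
    obtain ⟨p, hp⟩ := hcyl m a
    exact ⟨pr p, ⟨_, hlim p⟩, hp⟩
  · intro y x hyx
    constructor
    · intro hx
      have key : y = pr (g ⟨x, hx⟩) := by
        funext k
        have hO : IsOpen (g ⁻¹' (pr ⁻¹' (Cyl (k + 1) (pr (g ⟨x, hx⟩))) : Set (Q × R))) :=
          ((isOpen_cyl _ _).preimage continuous_pr).preimage g.continuous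
        obtain ⟨l, hl⟩ := nhd_sub hO (x := ⟨x, hx⟩) (fun _ _ => rfl)
        obtain ⟨l2, hl2⟩ := hyx l
        obtain ⟨n, hn⟩ := hq (max l2 (k + 1)) y
        have h1 := hl2 n (cyl_mono (le_max_left _ _) _ hn)
        have h2 := hl (g.symm (d n)) h1
        have h3 : pr (g (g.symm (d n))) ∈ Cyl (k + 1) (pr (g ⟨x, hx⟩)) := h2
        rw [g.apply_symm_apply] at h3
        rw [← h3 k (Nat.lt_succ_self k)]
        exact (hn k (lt_of_lt_of_le (Nat.lt_succ_self k) (le_max_right _ _))).symm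
      constructor
      · have : (fun n => (y n).1) = (g ⟨x, hx⟩).1.1 := by rw [key]; rfl
        rw [this]
        exact (g ⟨x, hx⟩).1.2
      · have : (fun n => (y n).2) = (g ⟨x, hx⟩).2.1 := by rw [key]; rfl
        rw [this]
        exact (g ⟨x, hx⟩).2.2
    · rintro ⟨h1, h2⟩
      have h3 : Lim q y (g.symm (⟨_, h1⟩, ⟨_, h2⟩)).1 := hlim (⟨_, h1⟩, ⟨_, h2⟩)
      rw [lim_unique hq hyx h3]
      exact (g.symm (⟨_, h1⟩, ⟨_, h2⟩)).2

theorem main : ∃ F : Filter ℕ, F.NeBot ∧ F ≤ Filter.cofinite ∧ ¬ IsMeagre (Mem F) ∧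
    IsEmpty (Pos F ≃ₜ (Pos F × Pos F)) ∧ IsEmpty (Pos F ≃ₜ (Mem F × Pos F)) := by
  classical
  obtain ⟨s, hs, hR⟩ := exists_state
  set U : Bool → Filter ℕ := fun b => Filter.generate (Sb s b) with hU
  have hinf : ∀ b, ∀ A ∈ U b, A.Infinite := fun b A hA => good_mem_infinite hs b hA
  have hult : ∀ b A, A ∈ U b ∨ Aᶜ ∈ U b := fun b A => hR (Sum.inr (Sum.inr A)) b
  have hcof : ∀ b A, Aᶜ.Finite → A ∈ U b := by
    intro b A hA
    rcases hult b A with h | h
    · exact h
    · exact absurd hA (hinf b _ h)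
  have hcomp : ∀ b (g : ℕ → Bool), {n | g n = true} ∉ U b → {n | g n = false} ∈ U b := by
    intro b g h
    have := (hult b {n | g n = true}).resolve_left h
    have h2 : {n | g n = false} = {n | g n = true}ᶜ := by
      ext n; simp
    rw [h2]; exact this
  let F : Filter ℕ := (U false).map (dbl false) ⊔ (U true).map (dbl true)
  have hF : ∀ A, A ∈ F ↔ (dbl false ⁻¹' A ∈ U false ∧ dbl true ⁻¹' A ∈ U true) := fun A => Iff.rfl
  have hMem : ∀ x, x ∈ Mem F ↔ ({n | x (dbl false n) = true} ∈ U false ∧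
      {n | x (dbl true n) = true} ∈ U true) := fun x => Iff.rfl
  have hdisj : ∀ m n, dbl false m ≠ dbl true n := by
    intro m n h
    simp only [dbl, Bool.toNat_false, Bool.toNat_true] at h
    omega
  have hPos : ∀ x, x ∈ Pos F ↔ ({n | x (dbl false n) = true} ∈ U false ∨
      {n | x (dbl true n) = true} ∈ U true) := by
    intro x
    constructor
    · intro hx
      by_contra hc
      rw [not_or] at hc
      have h1 := hcomp false _ hc.1
      have h2 := hcomp true _ hc.2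
      obtain ⟨n, hn, hn'⟩ := hx {k | x k = false} ((hF _).2 ⟨h1, h2⟩)
      rw [Set.mem_ofPred_eq, hn'] at hn
      exact Bool.noConfusion hn
    · rintro (h | h) A hA
      · obtain ⟨n, hn1, hn2⟩ := (hinf _ _ (Filter.inter_mem h ((hF A).1 hA).1)).nonempty
        exact ⟨dbl false n, hn2, hn1⟩
      · obtain ⟨n, hn1, hn2⟩ := (hinf _ _ (Filter.inter_mem h ((hF A).1 hA).2)).nonempty
        exact ⟨dbl true n, hn2, hn1⟩
  -- membership decided by the values
  have hPosDec : ∀ (x : ℕ → Bool) (u : Bool → Bool), (∀ b, Dec s b (fun n => x (dbl b n)) (u b)) →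
      (x ∈ Pos F ↔ (u false || u true) = true) := by
    intro x u hu
    rw [hPos, Bool.or_eq_true, ← dec_iff hs false _ _ (hu false), ← dec_iff hs true _ _ (hu true)]
  have hMemDec : ∀ (x : ℕ → Bool) (u : Bool → Bool), (∀ b, Dec s b (fun n => x (dbl b n)) (u b)) →
      (x ∈ Mem F ↔ (u false && u true) = true) := by
    intro x u hu
    rw [hMem, Bool.and_eq_true, ← dec_iff hs false _ _ (hu false), ← dec_iff hs true _ _ (hu true)]
  have hfin : ∀ (b : Bool) (m : ℕ), {n | dbl b n < m}.Finite := fun b m =>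
    (Set.finite_Iio m).preimage (dbl_inj b).injOn
  have hMPdense : Dense (Mem F) := by
    rw [dense_iff_cyl]
    intro m a
    refine ⟨fun n => if n < m then a n else true, ?_, fun n hn => if_pos hn⟩
    have : ∀ b, {n | (if dbl b n < m then a (dbl b n) else true) = true} ∈ U b := by
      intro b
      apply hcof
      refine (hfin b m).subset fun n hn => ?_
      by_contra h'
      apply hn
      show (if dbl b n < m then a (dbl b n) else true) = true
      exact if_neg h'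
    exact (hMem _).2 ⟨this false, this true⟩
  have hsub : Mem F ⊆ Pos F := fun x hx => (hPos x).2 (Or.inl ((hMem x).1 hx).1)
  have hPdense : Dense (Pos F) := hMPdense.mono hsub
  refine ⟨F, ?_, ?_, ?_, ⟨fun g => ?_⟩, ⟨fun g => ?_⟩⟩
  · refine ⟨fun hbot => ?_⟩
    have h1 : (∅ : Set ℕ) ∈ F := Filter.empty_mem_iff_bot.2 hbot
    exact hinf false _ ((hF ∅).1 h1).1 (by rw [Set.preimage_empty]; exact Set.finite_empty)
  · intro A hA
    rw [Filter.mem_cofinite] at hA
    exact (hF A).2 ⟨hcof _ _ (hA.preimage (dbl_inj false).injOn),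
      hcof _ _ (hA.preimage (dbl_inj true).injOn)⟩
  · intro hM
    obtain ⟨z, hz, w, hw⟩ := partition hM
    obtain ⟨A, hA, hAb⟩ := hR (Sum.inl z) hz
    have h1 := hw A hA (fun n => if n ∈ ZA z A then w n else true) (fun n hn => if_pos hn)
    apply h1
    rw [hMem]
    constructor
    · refine Filter.mem_of_superset (hAb false) fun n hn => ?_
      exact if_neg hn
    · refine Filter.mem_of_superset (hAb true) fun n hn => ?_
      exact if_neg hn
  · obtain ⟨q, hq, hd, hl⟩ := homeo_seq g hPdense hPdense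
    obtain ⟨y, x, hyx, u, v, h1, h2, h3, h4⟩ := hR (Sum.inr (Sum.inl (true, q))) hq hd
    have h5 := hl y x hyx
    rw [hPosDec x u h1, hPosDec _ (fun b => (v b).1) h2, hPosDec _ (fun b => (v b).2) h3] at h5
    apply h4
    have h6 : phi true (v false).1 (v true).1 (v false).2 (v true).2 =
      (((v false).1 || (v true).1) && ((v false).2 || (v true).2)) := rfl
    rw [h6, Bool.eq_iff_iff, h5, Bool.and_eq_true]
  · obtain ⟨q, hq, hd, hl⟩ := homeo_seq g hMPdense hPdense
    obtain ⟨y, x, hyx, u, v, h1, h2, h3, h4⟩ := hR (Sum.inr (Sum.inl (false, q))) hq hd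
    have h5 := hl y x hyx
    rw [hPosDec x u h1, hMemDec _ (fun b => (v b).1) h2, hPosDec _ (fun b => (v b).2) h3] at h5
    apply h4
    have h6 : phi false (v false).1 (v true).1 (v false).2 (v true).2 =
      (((v false).1 && (v true).1) && ((v false).2 || (v true).2)) := rfl
    rw [h6, Bool.eq_iff_iff, h5]
    simp only [Bool.and_eq_true]

end Pool.Agent.R196.Coi
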