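import Mathlib

/-! Sieves, expansions and derivatives of algebraic power series. -/

set_option autoImplicit false

namespace Pool.Agent.R196.Fer

open Polynomial PowerSeries

/-- the Euler operator `x d/dx` -/
noncomputable def theta (U : ℤ⟦X⟧) : ℤ⟦X⟧ := PowerSeries.mk fun n => (n : ℤ) * PowerSeries.coeff n U

/-- the part of the series with exponents congruent to `a` modulo `m` -/
noncomputable def sieve (m a : ℕ) (U : ℤ⟦X⟧) : ℤ⟦X⟧ :=
  PowerSeries.mk fun n => if n % m = a then PowerSeries.coeff n U else 0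

lemma coeff_theta (U : ℤ⟦X⟧) (n : ℕ) :
    PowerSeries.coeff n (theta U) = (n : ℤ) * PowerSeries.coeff n U := PowerSeries.coeff_mk _ _

lemma coeff_sieve (m a : ℕ) (U : ℤ⟦X⟧) (n : ℕ) :
    PowerSeries.coeff n (sieve m a U) = if n % m = a then PowerSeries.coeff n U else 0 :=
  PowerSeries.coeff_mk _ _

/-- algebraic power series with integer coefficients -/
def Alg (U : ℤ⟦X⟧) : Prop := IsAlgebraic ℤ[X] U

lemma algebraMap_eq (p : ℤ[X]) : algebraMap ℤ[X] ℤ⟦X⟧ p = (p : ℤ⟦X⟧) := by
  rw [PowerSeries.algebraMap_apply']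
  simp

lemma coeff_algebraMap {A : Type*} [CommRing A] (p : ℤ[X]) (n : ℕ) :
    PowerSeries.coeff n (algebraMap ℤ[X] A⟦X⟧ p) = ((p.coeff n : ℤ) : A) := by
  rw [PowerSeries.algebraMap_apply', PowerSeries.coeff_map, Polynomial.coeff_coe]
  simp

lemma alg_poly (p : ℤ[X]) : Alg (p : ℤ⟦X⟧) := by
  rw [← algebraMap_eq]
  exact isAlgebraic_algebraMap p

/-! ### rescaling -/

/-- algebraic complex power series -/
noncomputable abbrev SC : Subalgebra ℤ[X] ℂ⟦X⟧ := Subalgebra.algebraicClosure ℤ[X] ℂ⟦X⟧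

lemma mem_SC (U : ℂ⟦X⟧) : U ∈ SC ↔ IsAlgebraic ℤ[X] U := Iff.rfl

noncomputable def iota : ℤ⟦X⟧ →+* ℂ⟦X⟧ := PowerSeries.map (Int.castRingHom ℂ)

lemma coeff_iota (U : ℤ⟦X⟧) (n : ℕ) :
    PowerSeries.coeff n (iota U) = ((PowerSeries.coeff n U : ℤ) : ℂ) := by
  simp [iota]

lemma iota_inj : Function.Injective iota :=
  PowerSeries.map_injective _ Int.cast_injective

lemma iota_comp : (algebraMap ℤ[X] ℂ⟦X⟧).comp (RingHom.id ℤ[X]) =
    iota.comp (algebraMap ℤ[X] ℤ⟦X⟧) := by
  refine RingHom.ext fun p => ?_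
  ext n
  rw [RingHom.comp_apply, RingHom.comp_apply, coeff_iota, coeff_algebraMap, coeff_algebraMap]
  simp

lemma alg_iff (U : ℤ⟦X⟧) : Alg U ↔ iota U ∈ SC := by
  constructor
  · intro h
    exact IsAlgebraic.ringHom_of_comp_eq (RingHom.id ℤ[X]) iota h Function.injective_id iota_comp
  · intro h
    exact IsAlgebraic.of_ringHom_of_comp_eq (RingHom.id ℤ[X]) iota h Function.surjective_id
      iota_inj iota_comp

lemma C_mem {z : ℂ} (hz : IsAlgebraic ℤ z) : (PowerSeries.C z : ℂ⟦X⟧) ∈ SC := by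
  refine IsAlgebraic.ringHom_of_comp_eq (Polynomial.C : ℤ →+* ℤ[X])
    (PowerSeries.C : ℂ →+* ℂ⟦X⟧) hz Polynomial.C_injective ?_
  refine RingHom.ext fun p => ?_
  ext n
  show PowerSeries.coeff n (algebraMap ℤ[X] ℂ⟦X⟧ (Polynomial.C p)) =
    PowerSeries.coeff n (PowerSeries.C (algebraMap ℤ ℂ p))
  rw [coeff_algebraMap, PowerSeries.coeff_C, Polynomial.coeff_C]
  split_ifs <;> simp

lemma rescale_mem {z : ℂ} (hz : IsAlgebraic ℤ z) (hz0 : z ≠ 0) {U : ℂ⟦X⟧} (hU : U ∈ SC) :
    PowerSeries.rescale z U ∈ SC := by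
  have hp : ∀ p : ℤ[X], PowerSeries.rescale z (algebraMap ℤ[X] ℂ⟦X⟧ p) ∈ SC := by
    intro p
    induction p using Polynomial.induction_on' with
    | add p q hp hq =>
      rw [map_add, map_add]
      exact SC.add_mem hp hq
    | monomial n c =>
      have : PowerSeries.rescale z (algebraMap ℤ[X] ℂ⟦X⟧ (Polynomial.monomial n c)) =
          PowerSeries.C z ^ n * algebraMap ℤ[X] ℂ⟦X⟧ (Polynomial.monomial n c) := by
        ext k
        rw [PowerSeries.coeff_rescale, ← map_pow, PowerSeries.coeff_C_mul, coeff_algebraMap,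
          Polynomial.coeff_monomial]
        by_cases hk : n = k
        · rw [hk]
        · rw [if_neg hk]; simp
      rw [this]
      exact SC.mul_mem (SC.pow_mem (C_mem hz) n) (SC.algebraMap_mem _)
  let f : ℤ[X] →+* SC := ((PowerSeries.rescale z).comp (algebraMap ℤ[X] ℂ⟦X⟧)).codRestrict SC hp
  have hf : Function.Injective f := by
    intro p q hpq
    have h1 : PowerSeries.rescale z (algebraMap ℤ[X] ℂ⟦X⟧ p) =
        PowerSeries.rescale z (algebraMap ℤ[X] ℂ⟦X⟧ q) := congrArg Subtype.val hpq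
    ext n
    have h2 := congrArg (PowerSeries.coeff n) h1
    rw [PowerSeries.coeff_rescale, PowerSeries.coeff_rescale, coeff_algebraMap,
      coeff_algebraMap] at h2
    exact_mod_cast mul_left_cancel₀ (pow_ne_zero n hz0) h2
  have h1 : IsAlgebraic SC (PowerSeries.rescale z U) :=
    IsAlgebraic.ringHom_of_comp_eq f (PowerSeries.rescale z) hU hf rfl
  exact h1.restrictScalars ℤ[X]

lemma alg_zsmul_iff {m : ℤ} (hm : m ≠ 0) {U : ℤ⟦X⟧} (h : Alg (m • U)) : Alg U := by
  have h1 : (Polynomial.C m : ℤ[X]) • U = m • U := by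
    rw [Algebra.smul_def, algebraMap_eq, Polynomial.coe_C, zsmul_eq_mul]
    congr 1
    exact eq_intCast PowerSeries.C m
  unfold Alg at h
  rw [← h1] at h
  exact h.of_smul (mem_nonZeroDivisors_of_ne_zero (by simpa using hm))

lemma alg_sieve {m a : ℕ} (ha : a < m) {U : ℤ⟦X⟧} (hU : Alg U) : Alg (sieve m a U) := by
  have hm : m ≠ 0 := by omega
  have hz := Complex.isPrimitiveRoot_exp m hm
  set z : ℂ := Complex.exp (2 * Real.pi * Complex.I / m) with hzdef
  have hz0 : z ≠ 0 := Complex.exp_ne_zero _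
  have hzalg : IsAlgebraic ℤ z := (hz.isIntegral (Nat.pos_of_ne_zero hm)).isAlgebraic
  apply alg_zsmul_iff (m := (m : ℤ)) (by exact_mod_cast hm)
  rw [alg_iff] at hU ⊢
  have key : iota ((m : ℤ) • sieve m a U) = ∑ k ∈ Finset.range m,
      PowerSeries.C ((z ^ k) ^ ((m - 1) * a)) * PowerSeries.rescale (z ^ k) (iota U) := by
    ext n
    rw [coeff_iota, map_sum, map_smul, coeff_sieve]
    have h1 : ∀ k ∈ Finset.range m, PowerSeries.coeff n
        (PowerSeries.C ((z ^ k) ^ ((m - 1) * a)) * PowerSeries.rescale (z ^ k) (iota U)) =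
        (z ^ ((m - 1) * a + n)) ^ k * ((PowerSeries.coeff n U : ℤ) : ℂ) := by
      intro k _
      rw [PowerSeries.coeff_C_mul, PowerSeries.coeff_rescale, coeff_iota]
      ring
    rw [Finset.sum_congr rfl h1, ← Finset.sum_mul]
    have h3 : n % m = a ↔ m ∣ (m - 1) * a + n := by
      have h4 : (m - 1) * a + n + a = m * a + n := by
        obtain ⟨m', rfl⟩ := Nat.exists_eq_succ_of_ne_zero hm
        simp only [Nat.succ_eq_add_one, Nat.add_sub_cancel]
        ring
      constructor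
      · intro h
        have h5 : m ∣ m * a + (n - a) := by
          refine (Nat.dvd_mul_right m a).add ?_
          rw [← h]
          exact Nat.dvd_sub_mod n
        have h6 : a ≤ n := by rw [← h]; exact Nat.mod_le n m
        have h7 : (m - 1) * a + n = m * a + (n - a) := by omega
        rw [h7]; exact h5
      · rintro ⟨c, hc⟩
        have h5 : m * c + a = m * a + n := by rw [← hc]; exact h4
        have h6 := congrArg (· % m) h5
        simp only [Nat.mul_add_mod] at h6
        rw [Nat.mod_eq_of_lt ha] at h6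
        exact h6.symm
    by_cases h : m ∣ (m - 1) * a + n
    · rw [if_pos (h3.2 h)]
      have h8 : z ^ ((m - 1) * a + n) = 1 := (hz.pow_eq_one_iff_dvd _).2 h
      rw [h8]
      simp
    · rw [if_neg (fun h' => h (h3.1 h'))]
      have h8 : z ^ ((m - 1) * a + n) ≠ 1 := fun h' => h ((hz.pow_eq_one_iff_dvd _).1 h')
      have h9 : (∑ k ∈ Finset.range m, (z ^ ((m - 1) * a + n)) ^ k) *
          (z ^ ((m - 1) * a + n) - 1) = 0 := by
        rw [geom_sum_mul, ← pow_mul, mul_comm, pow_mul, hz.pow_eq_one, one_pow, sub_self]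
      have h10 := (mul_eq_zero.1 h9).resolve_right (sub_ne_zero.2 h8)
      rw [h10]
      simp
  rw [key]
  refine Subalgebra.sum_mem _ fun k _ => SC.mul_mem (C_mem ?_) (rescale_mem ?_ ?_ hU)
  · exact (hzalg.pow k).pow _
  · exact hzalg.pow k
  · exact pow_ne_zero _ hz0

end Pool.Agent.R196.Fer
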