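import Pool.Agent.R196.FerA

/-! Expansions, derivatives and rational power series. -/

set_option autoImplicit false

namespace Pool.Agent.R196.Fer

open Polynomial PowerSeries

lemma theta_eq (U : ℤ⟦X⟧) : theta U = PowerSeries.X * PowerSeries.derivative ℤ U := by
  ext n
  rw [coeff_theta]
  cases n with
  | zero => simp
  | succ n =>
    rw [PowerSeries.coeff_succ_X_mul, PowerSeries.coeff_derivative]
    push_cast
    ring

lemma theta_mul (U V : ℤ⟦X⟧) : theta (U * V) = theta U * V + U * theta V := by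
  rw [theta_eq, theta_eq, theta_eq, Derivation.leibniz]
  simp only [smul_eq_mul]
  ring

lemma theta_add (U V : ℤ⟦X⟧) : theta (U + V) = theta U + theta V := by
  ext n
  rw [map_add, coeff_theta, coeff_theta, coeff_theta, map_add, mul_add]

lemma theta_poly (p : ℤ[X]) : ∃ q : ℤ[X], theta (p : ℤ⟦X⟧) = q := by
  refine ⟨Polynomial.X * Polynomial.derivative p, ?_⟩
  rw [theta_eq, PowerSeries.derivative_coe]
  simp

lemma theta_pow (U : ℤ⟦X⟧) (n : ℕ) : theta (U ^ n) = (n : ℤ⟦X⟧) * U ^ (n - 1) * theta U := by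
  rw [theta_eq, theta_eq, Derivation.leibniz_pow]
  simp only [smul_eq_mul, nsmul_eq_mul]
  ring

/-- chain rule: `theta (p(U)) = A + p'(U) theta U` with `A` algebraic -/
lemma theta_aeval {U : ℤ⟦X⟧} (hU : Alg U) (p : ℤ[X][X]) :
    ∃ A, Alg A ∧ theta (aeval U p) = A + aeval U (Polynomial.derivative p) * theta U := by
  induction p using Polynomial.induction_on' with
  | add p q hp hq =>
    obtain ⟨A, hA, h1⟩ := hp
    obtain ⟨B, hB, h2⟩ := hq
    refine ⟨A + B, IsAlgebraic.add hA hB, ?_⟩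
    rw [map_add, theta_add, h1, h2, Polynomial.derivative_add, map_add]
    ring
  | monomial n c =>
    obtain ⟨q, hq⟩ := theta_poly c
    refine ⟨q * U ^ n, IsAlgebraic.mul (alg_poly q) (hU.pow n), ?_⟩
    rw [Polynomial.aeval_monomial, Polynomial.derivative_monomial, Polynomial.aeval_monomial,
      algebraMap_eq, algebraMap_eq, theta_mul, theta_pow, hq]
    simp only [Polynomial.coe_mul]
    have : (((n : ℤ[X]) : ℤ[X]) : ℤ⟦X⟧) = (n : ℤ⟦X⟧) := by
      rw [← algebraMap_eq]; simp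
    rw [this]
    ring

lemma alg_theta {U : ℤ⟦X⟧} (hU : Alg U) : Alg (theta U) := by
  classical
  have hex : ∃ d : ℕ, ∃ p : ℤ[X][X], p ≠ 0 ∧ aeval U p = 0 ∧ p.natDegree = d := by
    obtain ⟨p, h1, h2⟩ := hU
    exact ⟨_, p, h1, h2, rfl⟩
  obtain ⟨p, hp0, hpU, hpd⟩ := Nat.find_spec hex
  have hmin : ∀ q : ℤ[X][X], q ≠ 0 → aeval U q = 0 → p.natDegree ≤ q.natDegree := by
    intro q h1 h2
    rw [hpd]
    exact Nat.find_min' hex ⟨q, h1, h2, rfl⟩
  have hdeg : p.natDegree ≠ 0 := by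
    intro h
    rw [Polynomial.eq_C_of_natDegree_eq_zero h] at hpU hp0
    rw [Polynomial.aeval_C, algebraMap_eq] at hpU
    apply hp0
    have : p.coeff 0 = 0 := by
      have h' : ((p.coeff 0 : ℤ[X]) : ℤ⟦X⟧) = ((0 : ℤ[X]) : ℤ⟦X⟧) := by
        rw [hpU]; simp
      exact Polynomial.coe_injective ℤ h'
    rw [this]; simp
  have hd0 : Polynomial.derivative p ≠ 0 := by
    intro h
    exact hdeg (Polynomial.derivative_eq_zero.1 h)
  have hd1 : aeval U (Polynomial.derivative p) ≠ 0 := by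
    intro h
    have h1 := hmin _ hd0 h
    have h2 := Polynomial.natDegree_derivative_lt hdeg
    omega
  obtain ⟨A, hA, h⟩ := theta_aeval hU p
  rw [hpU] at h
  have h0 : theta (0 : ℤ⟦X⟧) = 0 := by
    ext n; rw [coeff_theta]; simp
  rw [h0] at h
  have h1 : aeval U (Polynomial.derivative p) * theta U = -A := by
    linear_combination -h
  have halg : IsAlgebraic ℤ[X] (aeval U (Polynomial.derivative p)) := by
    have : ∀ q : ℤ[X][X], IsAlgebraic ℤ[X] (aeval U q) := by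
      intro q
      have := (Subalgebra.algebraicClosure ℤ[X] ℤ⟦X⟧).toSubring
      have h3 : aeval U q ∈ Algebra.adjoin ℤ[X] {U} := Polynomial.aeval_mem_adjoin_singleton _ _
      have h4 : Algebra.adjoin ℤ[X] {U} ≤ Subalgebra.algebraicClosure ℤ[X] ℤ⟦X⟧ := by
        rw [Algebra.adjoin_le_iff]
        intro x hx
        rw [Set.mem_singleton_iff] at hx
        rw [hx]
        exact hU
      exact h4 h3
    exact this _
  refine IsAlgebraic.of_mul (mem_nonZeroDivisors_of_ne_zero hd1) halg ?_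
  rw [h1]
  exact IsAlgebraic.neg hA

/-! ### expansions -/

/-- polynomials in `X ^ g` -/
noncomputable abbrev TT (g : ℕ) : Subalgebra ℤ ℤ[X] := (Polynomial.expand ℤ g).range

lemma TT_alg {g : ℕ} (hg : g ≠ 0) (q : ℤ[X]) : IsAlgebraic (TT g) q := by
  have hX : IsAlgebraic (TT g) (Polynomial.X : ℤ[X]) := by
    let t : TT g := ⟨Polynomial.X ^ g, ⟨Polynomial.X, by simp⟩⟩
    refine ⟨Polynomial.X ^ g - Polynomial.C t, Polynomial.X_pow_sub_C_ne_zero
      (Nat.pos_of_ne_zero hg) t, ?_⟩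
    rw [map_sub, map_pow, Polynomial.aeval_X, Polynomial.aeval_C]
    exact sub_self _
  induction q using Polynomial.induction_on' with
  | add p q hp hq => exact hp.add hq
  | monomial n c =>
    rw [← Polynomial.C_mul_X_pow_eq_monomial]
    refine IsAlgebraic.mul ?_ (hX.pow n)
    let t : TT g := ⟨Polynomial.C c, ⟨Polynomial.C c, by simp⟩⟩
    exact isAlgebraic_algebraMap t

lemma expand_coe {g : ℕ} (hg : g ≠ 0) (p : ℤ[X]) :
    ((Polynomial.expand ℤ g p : ℤ[X]) : ℤ⟦X⟧) = PowerSeries.expand g hg (p : ℤ⟦X⟧) := by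
  ext n
  rw [Polynomial.coeff_coe, PowerSeries.coeff_expand, Polynomial.coeff_expand
    (Nat.pos_of_ne_zero hg)]
  split_ifs
  · rw [Polynomial.coeff_coe]
  · rfl

lemma expand_injective {g : ℕ} (hg : g ≠ 0) :
    Function.Injective (PowerSeries.expand (R := ℤ) g hg) := by
  intro U V h
  ext n
  have := congrArg (PowerSeries.coeff (g * n)) h
  rwa [PowerSeries.coeff_expand_mul, PowerSeries.coeff_expand_mul] at this

lemma alg_of_expand {g : ℕ} (hg : g ≠ 0) {V : ℤ⟦X⟧} (h : Alg (PowerSeries.expand g hg V)) :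
    Alg V := by
  have hTalg : Algebra.IsAlgebraic (TT g) ℤ[X] := ⟨fun q => TT_alg hg q⟩
  have h1 : IsAlgebraic (TT g) (PowerSeries.expand g hg V) := by
    have h' : IsAlgebraic ℤ[X] (PowerSeries.expand g hg V) := h
    exact h'.restrictScalars (TT g)
  refine IsAlgebraic.of_ringHom_of_comp_eq (Polynomial.expand ℤ g).rangeRestrict
    (PowerSeries.expand (R := ℤ) g hg) h1 (AlgHom.rangeRestrict_surjective _)
    (expand_injective hg) ?_
  refine RingHom.ext fun p => ?_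
  show algebraMap ℤ[X] ℤ⟦X⟧ (Polynomial.expand ℤ g p) =
    PowerSeries.expand g hg (algebraMap ℤ[X] ℤ⟦X⟧ p)
  rw [algebraMap_eq, algebraMap_eq, expand_coe]

lemma alg_expand {g : ℕ} (hg : g ≠ 0) {V : ℤ⟦X⟧} (h : Alg V) :
    Alg (PowerSeries.expand g hg V) := by
  refine IsAlgebraic.ringHom_of_comp_eq (Polynomial.expand ℤ g)
    (PowerSeries.expand (R := ℤ) g hg) h (Polynomial.expand_injective
      (Nat.pos_of_ne_zero hg)) ?_
  refine RingHom.ext fun p => ?_
  show algebraMap ℤ[X] ℤ⟦X⟧ (Polynomial.expand ℤ g p) =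
    PowerSeries.expand g hg (algebraMap ℤ[X] ℤ⟦X⟧ p)
  rw [algebraMap_eq, algebraMap_eq, expand_coe]

/-! ### rational power series -/

/-- rational power series with integer coefficients -/
def Rat (R : ℤ⟦X⟧) : Prop := ∃ q p : ℤ[X], q ≠ 0 ∧ (q : ℤ⟦X⟧) * R = p

lemma rat_alg {R : ℤ⟦X⟧} (h : Rat R) : Alg R := by
  obtain ⟨q, p, hq, h⟩ := h
  refine IsAlgebraic.of_mul (R := ℤ[X]) (y := (q : ℤ⟦X⟧)) (mem_nonZeroDivisors_of_ne_zero ?_)
    (alg_poly q) ?_
  · intro h'
    apply hq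
    apply Polynomial.coe_injective ℤ
    rw [h']; simp
  · rw [h]; exact alg_poly p

lemma rat_poly (p : ℤ[X]) : Rat (p : ℤ⟦X⟧) := ⟨1, p, one_ne_zero, by simp⟩

lemma rat_add {R S : ℤ⟦X⟧} (hR : Rat R) (hS : Rat S) : Rat (R + S) := by
  obtain ⟨q, p, hq, h⟩ := hR
  obtain ⟨q', p', hq', h'⟩ := hS
  refine ⟨q * q', p * q' + p' * q, mul_ne_zero hq hq', ?_⟩
  rw [Polynomial.coe_add, Polynomial.coe_mul, Polynomial.coe_mul, Polynomial.coe_mul, ← h, ← h']
  ring

lemma rat_neg {R : ℤ⟦X⟧} (hR : Rat R) : Rat (-R) := by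
  obtain ⟨q, p, hq, h⟩ := hR
  refine ⟨q, -p, hq, ?_⟩
  rw [Polynomial.coe_neg, ← h]
  ring

lemma rat_theta {R : ℤ⟦X⟧} (hR : Rat R) : Rat (theta R) := by
  obtain ⟨q, p, hq, h⟩ := hR
  obtain ⟨q', hq'⟩ := theta_poly q
  obtain ⟨p', hp'⟩ := theta_poly p
  refine ⟨q * q, q * p' - q' * p, mul_ne_zero hq hq, ?_⟩
  have h1 := theta_mul (q : ℤ⟦X⟧) R
  rw [h, hp', hq'] at h1
  rw [Polynomial.coe_sub, Polynomial.coe_mul, Polynomial.coe_mul, Polynomial.coe_mul, h1, ← h]
  ring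

lemma rat_zsmul_iff {m : ℤ} (hm : m ≠ 0) {R : ℤ⟦X⟧} (h : Rat (m • R)) : Rat R := by
  obtain ⟨q, p, hq, h⟩ := h
  refine ⟨q * Polynomial.C m, p, mul_ne_zero hq (by simpa using hm), ?_⟩
  rw [← h, Polynomial.coe_mul, zsmul_eq_mul, mul_assoc]
  congr 2
  rw [Polynomial.coe_C]
  exact eq_intCast PowerSeries.C m

lemma poly_of_eventually_zero {R : ℤ⟦X⟧} {N : ℕ} (h : ∀ n, N ≤ n → PowerSeries.coeff n R = 0) :
    ∃ p : ℤ[X], (p : ℤ⟦X⟧) = R := by
  refine ⟨PowerSeries.trunc N R, ?_⟩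
  ext n
  rw [Polynomial.coeff_coe, PowerSeries.coeff_trunc]
  split_ifs with hn
  · rfl
  · exact (h n (not_lt.1 hn)).symm

lemma sieve_poly (m a : ℕ) (p : ℤ[X]) : ∃ q : ℤ[X], (q : ℤ⟦X⟧) = sieve m a (p : ℤ⟦X⟧) := by
  refine poly_of_eventually_zero (N := p.natDegree + 1) fun n hn => ?_
  rw [coeff_sieve, Polynomial.coeff_coe, Polynomial.coeff_eq_zero_of_natDegree_lt (by omega)]
  simp

lemma sieve_expand_mul {m : ℕ} (hm : m ≠ 0) (a : ℕ) (E R : ℤ⟦X⟧) :
    sieve m a (PowerSeries.expand m hm E * R) = PowerSeries.expand m hm E * sieve m a R := by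
  ext n
  rw [coeff_sieve, PowerSeries.coeff_mul, PowerSeries.coeff_mul]
  have key : ∀ ij ∈ Finset.HasAntidiagonal.antidiagonal n, m ∣ ij.1 → ij.2 % m = n % m := by
    rintro ⟨i, j⟩ hij ⟨c, hc⟩
    rw [Finset.HasAntidiagonal.mem_antidiagonal] at hij
    simp only at hij hc ⊢
    rw [← hij, hc, Nat.mul_add_mod]
  by_cases h : n % m = a
  · rw [if_pos h]
    refine Finset.sum_congr rfl fun ij hij => ?_
    by_cases hd : m ∣ ij.1
    · rw [coeff_sieve, if_pos ((key ij hij hd).trans h)]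
    · rw [PowerSeries.coeff_expand_of_not_dvd m hm E hd, zero_mul, zero_mul]
  · rw [if_neg h]
    symm
    refine Finset.sum_eq_zero fun ij hij => ?_
    by_cases hd : m ∣ ij.1
    · rw [coeff_sieve, if_neg (fun h' => h ((key ij hij hd).symm.trans h')), mul_zero]
    · rw [PowerSeries.coeff_expand_of_not_dvd m hm E hd, zero_mul]

lemma rat_sieve {m : ℕ} (hm : m ≠ 0) (a : ℕ) {R : ℤ⟦X⟧} (hR : Rat R) : Rat (sieve m a R) := by
  obtain ⟨q, p, hq, h⟩ := hR
  obtain ⟨r, hr, q', hq'⟩ := (TT_alg hm q).exists_nonzero_dvd (mem_nonZeroDivisors_of_ne_zero hq)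
  obtain ⟨r', hr'⟩ := r.2
  have hr2 : Polynomial.expand ℤ m r' = q * q' := by
    rw [← hq']
    exact hr'
  obtain ⟨s, hs⟩ := sieve_poly m a (p * q')
  refine ⟨Polynomial.expand ℤ m r', s, ?_, ?_⟩
  · intro h0
    apply hr
    apply Subtype.ext
    rw [← hr']
    exact h0
  · rw [hs, expand_coe hm, ← sieve_expand_mul, ← expand_coe hm, hr2]
    congr 1
    rw [Polynomial.coe_mul, Polynomial.coe_mul, ← h]
    ring

end Pool.Agent.R196.Fer
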