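import Mathlib

/-! A countable torsion-free divisible abelian group of infinite rank is `ℚ^(ℕ)`. -/

set_option autoImplicit false

namespace Pool.Agent.R196.Fer

open Cardinal TensorProduct

theorem group_structure {A : Type} [AddCommGroup A] [Countable A]
    (tf : ∀ (m : ℤ) (a : A), m ≠ 0 → m • a = 0 → a = 0)
    (dv : ∀ (m : ℤ) (a : A), m ≠ 0 → ∃ b, m • b = a)
    (f : ℕ → A) (hf : LinearIndependent ℤ f) : Nonempty (A ≃+ (ℕ →₀ ℚ)) := by
  classical
  let V := ℚ ⊗[ℤ] A
  let j : A →ₗ[ℤ] V := TensorProduct.mk ℤ ℚ A 1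
  have hfr : IsLocalization (nonZeroDivisors ℤ) ℚ := (inferInstance : IsFractionRing ℤ ℚ)
  have hj : IsLocalizedModule (nonZeroDivisors ℤ) j := IsLocalization.tensorProduct_isLocalizedModule _ _
  have hinj : Function.Injective j := by
    rw [injective_iff_map_eq_zero]
    intro a ha
    obtain ⟨u, hu⟩ := (IsLocalizedModule.eq_zero_iff (nonZeroDivisors ℤ) j).1 ha
    exact tf u.1 a (nonZeroDivisors.ne_zero u.2) hu
  have hsurj : Function.Surjective j := by
    intro v
    obtain ⟨⟨a, s⟩, h⟩ := IsLocalizedModule.surj (nonZeroDivisors ℤ) j v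
    obtain ⟨b, hb⟩ := dv s.1 a (nonZeroDivisors.ne_zero s.2)
    refine ⟨b, IsLocalizedModule.smul_injective j s ?_⟩
    show s • j b = s • v
    rw [h]
    show s.1 • j b = j a
    rw [← hb, map_smul]
  have e : A ≃+ V := (LinearEquiv.ofBijective j ⟨hinj, hsurj⟩).toAddEquiv
  have hcV : Countable V := Function.Surjective.countable hsurj
  have h1 : Module.rank ℚ V ≤ ℵ₀ := (rank_le_card ℚ V).trans (Cardinal.mk_le_aleph0_iff.2 hcV)
  have hlin : LinearIndependent ℤ (fun n => j (f n)) :=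
    hf.map' j (LinearMap.ker_eq_bot.2 hinj)
  have h2 : LinearIndependent ℚ (fun n => j (f n)) :=
    (LinearIndependent.iff_fractionRing ℤ ℚ).1 hlin
  have h3 : ℵ₀ ≤ Module.rank ℚ V := by
    have := h2.cardinal_le_rank
    rwa [Cardinal.mk_nat] at this
  have h4 : Module.rank ℚ V = Module.rank ℚ (ℕ →₀ ℚ) := by
    rw [le_antisymm h1 h3, rank_finsupp_self']
    simp
  obtain ⟨e'⟩ := nonempty_linearEquiv_of_rank_eq h4
  exact ⟨e.trans e'.toAddEquiv⟩

end Pool.Agent.R196.Fer
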