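import Mathlib

/-! The groups of power series in MP_762bfd_nt: definitions. -/

set_option autoImplicit false

namespace Pool.Agent.R196.Fer

open Polynomial PowerSeries

/-- the group `D` of all `x U'`, `U` algebraic -/
noncomputable def DD : AddSubgroup ℤ⟦X⟧ where
  carrier := {R | ∃ U, IsAlgebraic ℤ[X] U ∧ R = PowerSeries.X * PowerSeries.derivative ℤ U}
  add_mem' := by
    rintro _ _ ⟨U, hU, rfl⟩ ⟨V, hV, rfl⟩
    exact ⟨U + V, hU.add hV, by rw [map_add, mul_add]⟩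
  zero_mem' := ⟨0, isAlgebraic_zero, by simp⟩
  neg_mem' := by
    rintro _ ⟨U, hU, rfl⟩
    exact ⟨-U, hU.neg, by rw [map_neg, mul_neg]⟩

/-- the group `P` of all finite sums of `U(x ^ M)`, `M ≥ 2`, `U` algebraic -/
noncomputable def PP : AddSubgroup ℤ⟦X⟧ :=
  AddSubgroup.closure {R | ∃ (U : ℤ⟦X⟧) (M : ℕ) (hM : M ≠ 0), IsAlgebraic ℤ[X] U ∧ 2 ≤ M ∧
    R = PowerSeries.expand M hM U}

/-- the integer polynomials -/
noncomputable def PolyG : AddSubgroup ℤ⟦X⟧ where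
  carrier := {R | ∃ p : ℤ[X], R = p}
  add_mem' := by
    rintro _ _ ⟨p, rfl⟩ ⟨q, rfl⟩
    exact ⟨p + q, by simp⟩
  zero_mem' := ⟨0, by simp⟩
  neg_mem' := by
    rintro _ ⟨p, rfl⟩
    exact ⟨-p, by simp⟩

/-- the group `F` of the algebraic series with the Fermat property -/
noncomputable def FF : AddSubgroup ℤ⟦X⟧ where
  carrier := {R | IsAlgebraic ℤ[X] R ∧
    ∃ N : ℕ, ∀ p : ℕ, p.Prime → N ≤ p → (p : ℤ) ∣ PowerSeries.coeff p R}
  add_mem' := by
    rintro R S ⟨h1, N, hN⟩ ⟨h2, N', hN'⟩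
    refine ⟨h1.add h2, max N N', fun p hp hpN => ?_⟩
    rw [map_add]
    exact dvd_add (hN p hp (le_trans (le_max_left _ _) hpN))
      (hN' p hp (le_trans (le_max_right _ _) hpN))
  zero_mem' := ⟨isAlgebraic_zero, 0, fun p _ _ => by simp⟩
  neg_mem' := by
    rintro R ⟨h1, N, hN⟩
    refine ⟨h1.neg, N, fun p hp hpN => ?_⟩
    rw [map_neg]
    exact (hN p hp hpN).neg_right

/-- the rational series -/
noncomputable def RatG : AddSubgroup ℤ⟦X⟧ where
  carrier := {R | ∃ q p : ℤ[X], q ≠ 0 ∧ (q : ℤ⟦X⟧) * R = p}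
  add_mem' := by
    rintro R S ⟨q, p, hq, h⟩ ⟨q', p', hq', h'⟩
    refine ⟨q * q', p * q' + p' * q, mul_ne_zero hq hq', ?_⟩
    rw [Polynomial.coe_add, Polynomial.coe_mul, Polynomial.coe_mul, Polynomial.coe_mul, ← h, ← h']
    ring
  zero_mem' := ⟨1, 0, one_ne_zero, by simp⟩
  neg_mem' := by
    rintro R ⟨q, p, hq, h⟩
    refine ⟨q, -p, hq, ?_⟩
    rw [Polynomial.coe_neg, ← h]
    ring

end Pool.Agent.R196.Fer
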