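import Pool.Agent.R196.FerB
import Pool.Agent.R196.FerC
import Pool.Agent.R196.FerDefs

/-! Structure of the Fermat quotient groups. -/

set_option autoImplicit false

namespace Pool.Agent.R196.Fer

open Polynomial PowerSeries

/-- classes of series closed under the operations used -/
structure Cls (C : AddSubgroup ℤ⟦X⟧) : Prop where
  alg : ∀ R ∈ C, Alg R
  sieve : ∀ R ∈ C, ∀ m a : ℕ, a < m → sieve m a R ∈ C
  theta : ∀ R ∈ C, theta R ∈ C
  div : ∀ (m : ℤ) (R : ℤ⟦X⟧), m ≠ 0 → m • R ∈ C → R ∈ C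
  poly : ∀ p : ℤ[X], (p : ℤ⟦X⟧) ∈ C
  geo : ∀ a : ℤ, PowerSeries.mk (fun n => a ^ n) ∈ C

/-- the part with exponents coprime to `M` -/
noncomputable def cop (M : ℕ) (R : ℤ⟦X⟧) : ℤ⟦X⟧ :=
  PowerSeries.mk fun n => if n.Coprime M then PowerSeries.coeff n R else 0

lemma coeff_cop (M : ℕ) (R : ℤ⟦X⟧) (n : ℕ) :
    PowerSeries.coeff n (cop M R) = if n.Coprime M then PowerSeries.coeff n R else 0 :=
  PowerSeries.coeff_mk _ _

lemma coprime_mod {n M : ℕ} : (n % M).Coprime M ↔ n.Coprime M := by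
  unfold Nat.Coprime
  rw [Nat.gcd_comm n M, Nat.gcd_rec M n]

/-- weighted sums of sieves -/
lemma coeff_sum_sieve {M : ℕ} (hM : 0 < M) (w : ℕ → ℤ) (Q : ℕ → Prop) [DecidablePred Q]
    (R : ℤ⟦X⟧) (n : ℕ) :
    PowerSeries.coeff n (∑ a ∈ (Finset.range M).filter Q, w a • sieve M a R) =
      if Q (n % M) then w (n % M) * PowerSeries.coeff n R else 0 := by
  rw [map_sum]
  have h1 : ∀ a ∈ (Finset.range M).filter Q, PowerSeries.coeff n (w a • sieve M a R) =
      if a = n % M then w (n % M) * PowerSeries.coeff n R else 0 := by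
    intro a _
    rw [map_zsmul, coeff_sieve, smul_eq_mul]
    by_cases h : n % M = a
    · rw [if_pos h, if_pos h.symm, h]
    · rw [if_neg h, if_neg (Ne.symm h), mul_zero]
  rw [Finset.sum_congr rfl h1, Finset.sum_ite_eq']
  by_cases h : Q (n % M)
  · rw [if_pos (Finset.mem_filter.2 ⟨Finset.mem_range.2 (Nat.mod_lt n hM), h⟩), if_pos h]
  · rw [if_neg (fun h' => h (Finset.mem_filter.1 h').2), if_neg h]

lemma cop_eq {M : ℕ} (hM : 0 < M) (R : ℤ⟦X⟧) :
    cop M R = ∑ a ∈ (Finset.range M).filter (fun a => a.Coprime M), (1 : ℤ) • sieve M a R := by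
  ext n
  rw [coeff_cop, coeff_sum_sieve hM (fun _ => 1) (fun a => a.Coprime M)]
  simp only [coprime_mod, one_mul]

lemma sub_cop_eq {M : ℕ} (hM : 0 < M) (R : ℤ⟦X⟧) :
    R - cop M R =
      ∑ a ∈ (Finset.range M).filter (fun a => ¬ a.Coprime M), (1 : ℤ) • sieve M a R := by
  ext n
  rw [map_sub, coeff_cop, coeff_sum_sieve hM (fun _ => 1) (fun a => ¬ a.Coprime M)]
  simp only [coprime_mod, one_mul]
  split_ifs <;> simp

variable {C : AddSubgroup ℤ⟦X⟧}

lemma wsum_mem (hC : Cls C) {R : ℤ⟦X⟧} (hR : R ∈ C) (M : ℕ) (w : ℕ → ℤ) (Q : ℕ → Prop)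
    [DecidablePred Q] : ∑ a ∈ (Finset.range M).filter Q, w a • sieve M a R ∈ C :=
  C.sum_mem fun a ha => C.zsmul_mem (hC.sieve R hR M a
    (Finset.mem_range.1 (Finset.mem_filter.1 ha).1)) _

lemma cop_mem (hC : Cls C) {R : ℤ⟦X⟧} (hR : R ∈ C) {M : ℕ} (hM : 0 < M) : cop M R ∈ C := by
  rw [cop_eq hM]
  exact wsum_mem hC hR M (fun _ => 1) _

lemma sieve_mem_PP {M a : ℕ} (ha : a < M) (hc : ¬ a.Coprime M) {R : ℤ⟦X⟧} (hR : Alg R) :
    sieve M a R ∈ PP := by
  apply AddSubgroup.subset_closure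
  have hg0 : Nat.gcd a M ≠ 0 := by
    intro h
    rw [Nat.gcd_eq_zero_iff] at h
    omega
  have hg2 : 2 ≤ Nat.gcd a M := by
    have : Nat.gcd a M ≠ 1 := hc
    omega
  set g := Nat.gcd a M with hg
  have key : sieve M a R =
      PowerSeries.expand g hg0 (PowerSeries.mk fun k => PowerSeries.coeff (g * k) (sieve M a R)) := by
    ext n
    rw [PowerSeries.coeff_expand]
    split_ifs with h
    · rw [PowerSeries.coeff_mk, Nat.mul_div_cancel' h]
    · rw [coeff_sieve, if_neg]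
      intro h'
      apply h
      have h1 : g ∣ M := Nat.gcd_dvd_right a M
      have h2 : g ∣ n % M := by rw [h']; exact Nat.gcd_dvd_left a M
      exact (Nat.dvd_mod_iff h1).1 h2
  refine ⟨_, g, hg0, ?_, hg2, key⟩
  apply alg_of_expand hg0
  rw [← key]
  exact alg_sieve ha hR

lemma sub_cop_mem_PP {M : ℕ} (hM : 0 < M) {R : ℤ⟦X⟧} (hR : Alg R) : R - cop M R ∈ PP := by
  rw [sub_cop_eq hM]
  refine AddSubgroup.sum_mem _ fun a ha => AddSubgroup.zsmul_mem _ ?_ _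
  rw [Finset.mem_filter, Finset.mem_range] at ha
  exact sieve_mem_PP ha.1 ha.2 hR

lemma PP_coeff {R : ℤ⟦X⟧} (hR : R ∈ PP) : ∃ M : ℕ, 0 < M ∧ ∀ n : ℕ, n.Coprime M →
    PowerSeries.coeff n R = 0 := by
  induction hR using AddSubgroup.closure_induction with
  | mem x hx =>
    obtain ⟨U, M, hM, _, h2, rfl⟩ := hx
    refine ⟨M, by omega, fun n hn => ?_⟩
    apply PowerSeries.coeff_expand_of_not_dvd
    intro h
    have : M ∣ 1 := by
      rw [← hn]
      exact Nat.dvd_gcd h dvd_rfl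
    rw [Nat.dvd_one] at this
    omega
  | zero => exact ⟨1, one_pos, fun n _ => by simp⟩
  | add x y _ _ hx hy =>
    obtain ⟨M, hM, h⟩ := hx
    obtain ⟨M', hM', h'⟩ := hy
    refine ⟨M * M', Nat.mul_pos hM hM', fun n hn => ?_⟩
    rw [map_add, h n (Nat.Coprime.coprime_mul_right_right hn),
      h' n (Nat.Coprime.coprime_mul_left_right hn), add_zero]
  | neg x _ hx =>
    obtain ⟨M, hM, h⟩ := hx
    exact ⟨M, hM, fun n hn => by rw [map_neg, h n hn, neg_zero]⟩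

/-- the group of relations inside the class `C` -/
noncomputable def NC (C : AddSubgroup ℤ⟦X⟧) : AddSubgroup ℤ⟦X⟧ := (DD ⊓ C) ⊔ PolyG ⊔ (PP ⊓ C)

lemma key1 {R : ℤ⟦X⟧} (hR : R ∈ NC C) : ∃ U, Alg U ∧ ∃ M : ℕ, 0 < M ∧ ∃ N : ℕ, ∀ n, N ≤ n →
    n.Coprime M → PowerSeries.coeff n R = n * PowerSeries.coeff n U := by
  obtain ⟨x', hx', z, hz, rfl⟩ := AddSubgroup.mem_sup.1 hR
  obtain ⟨x, hx, y, hy, rfl⟩ := AddSubgroup.mem_sup.1 hx'
  obtain ⟨⟨U, hU, rfl⟩, _⟩ := hx
  obtain ⟨p, rfl⟩ := hy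
  obtain ⟨M, hM, hz'⟩ := PP_coeff hz.1
  refine ⟨U, hU, M, hM, p.natDegree + 1, fun n hn hc => ?_⟩
  rw [map_add, map_add, hz' n hc, add_zero, ← theta_eq, coeff_theta, Polynomial.coeff_coe,
    Polynomial.coeff_eq_zero_of_natDegree_lt (by omega), add_zero]

lemma theta_mem_DD {U : ℤ⟦X⟧} (hU : Alg U) : theta U ∈ DD := ⟨U, hU, theta_eq U⟩

lemma alg_trunc {U : ℤ⟦X⟧} (hU : Alg U) {M : ℕ} (hM : 0 < M) (N : ℕ) :
    Alg (PowerSeries.mk fun n => if N ≤ n ∧ n.Coprime M then PowerSeries.coeff n U else 0) := by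
  obtain ⟨p, hp⟩ := poly_of_eventually_zero (N := N)
    (R := cop M U - PowerSeries.mk fun n =>
      if N ≤ n ∧ n.Coprime M then PowerSeries.coeff n U else 0) (fun n hn => by
      rw [map_sub, coeff_cop, PowerSeries.coeff_mk]
      simp only [hn, true_and]
      exact sub_self _)
  have h1 : (PowerSeries.mk fun n => if N ≤ n ∧ n.Coprime M then PowerSeries.coeff n U else 0) =
      cop M U - (p : ℤ⟦X⟧) := by rw [hp]; ring
  rw [h1]
  refine IsAlgebraic.sub ?_ (alg_poly p)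
  rw [cop_eq hM]
  have : (∑ a ∈ (Finset.range M).filter (fun a => a.Coprime M), (1 : ℤ) • sieve M a U) ∈
      Subalgebra.algebraicClosure ℤ[X] ℤ⟦X⟧ := by
    refine Subalgebra.sum_mem _ fun a ha => ?_
    rw [one_smul]
    exact alg_sieve (Finset.mem_range.1 (Finset.mem_filter.1 ha).1) hU
  exact this

lemma key2 (hC : Cls C) {R U : ℤ⟦X⟧} (hR : R ∈ C) (hU : Alg U) {M : ℕ} (hM : 0 < M) (N : ℕ)
    (h : ∀ n, N ≤ n → n.Coprime M → PowerSeries.coeff n R = n * PowerSeries.coeff n U) :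
    R ∈ NC C := by
  set U1 : ℤ⟦X⟧ := PowerSeries.mk fun n =>
    if N ≤ n ∧ n.Coprime M then PowerSeries.coeff n U else 0 with hU1
  have hU1a : Alg U1 := alg_trunc hU hM N
  obtain ⟨p, hp⟩ := poly_of_eventually_zero (N := N) (R := cop M R - theta U1) (fun n hn => by
    rw [map_sub, coeff_cop, coeff_theta, hU1, PowerSeries.coeff_mk]
    by_cases hc : n.Coprime M
    · rw [if_pos hc, if_pos ⟨hn, hc⟩, h n hn hc, sub_self]
    · rw [if_neg hc, if_neg (fun h' => hc h'.2), mul_zero, sub_self])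
  have h1 : R = theta U1 + (p : ℤ⟦X⟧) + (R - cop M R) := by rw [hp]; ring
  have h2 : theta U1 ∈ C := by
    have : theta U1 = cop M R - (p : ℤ⟦X⟧) := by rw [hp]; ring
    rw [this]
    exact C.sub_mem (cop_mem hC hR hM) (hC.poly p)
  rw [h1]
  exact AddSubgroup.add_mem_sup (AddSubgroup.add_mem_sup ⟨theta_mem_DD hU1a, h2⟩ ⟨p, rfl⟩)
    ⟨sub_cop_mem_PP hM (hC.alg R hR), C.sub_mem hR (cop_mem hC hR hM)⟩

lemma torsion_free (hC : Cls C) {R : ℤ⟦X⟧} (hR : R ∈ C) {m : ℤ} (hm : m ≠ 0)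
    (h : m • R ∈ NC C) : R ∈ NC C := by
  obtain ⟨U, hU, M, hM, N, hN⟩ := key1 h
  have hM' : 0 < M * m.natAbs := Nat.mul_pos hM (Int.natAbs_pos.2 hm)
  have hdvd : ∀ n, N ≤ n → n.Coprime (M * m.natAbs) → m ∣ PowerSeries.coeff n U := by
    intro n hn hc
    have h1 := hN n hn (Nat.Coprime.coprime_mul_right_right hc)
    rw [map_zsmul, smul_eq_mul] at h1
    have h2 : IsCoprime m (n : ℤ) := by
      rw [Int.isCoprime_iff_gcd_eq_one, Int.gcd_comm]
      have h3 : n.Coprime m.natAbs := Nat.Coprime.coprime_mul_left_right hc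
      rw [Int.gcd, Int.natAbs_natCast]
      exact h3
    exact h2.dvd_of_dvd_mul_left ⟨_, h1.symm⟩
  have hU2 : Alg (PowerSeries.mk fun n =>
      if N ≤ n ∧ n.Coprime (M * m.natAbs) then PowerSeries.coeff n U / m else 0) := by
    apply alg_zsmul_iff hm
    have : (m • PowerSeries.mk fun n =>
      if N ≤ n ∧ n.Coprime (M * m.natAbs) then PowerSeries.coeff n U / m else 0) =
      PowerSeries.mk fun n =>
        if N ≤ n ∧ n.Coprime (M * m.natAbs) then PowerSeries.coeff n U else 0 := by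
      ext n
      rw [map_zsmul, PowerSeries.coeff_mk, PowerSeries.coeff_mk, smul_eq_mul]
      split_ifs with hn
      · exact Int.mul_ediv_cancel' (hdvd n hn.1 hn.2)
      · exact mul_zero _
    rw [this]
    exact alg_trunc hU hM' N
  refine key2 hC hR hU2 hM' N fun n hn hc => ?_
  rw [PowerSeries.coeff_mk, if_pos ⟨hn, hc⟩]
  have h1 := hN n hn (Nat.Coprime.coprime_mul_right_right hc)
  rw [map_zsmul, smul_eq_mul] at h1
  obtain ⟨c, hc'⟩ := hdvd n hn hc
  rw [hc'] at h1 ⊢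
  rw [Int.mul_ediv_cancel_left _ hm]
  apply mul_left_cancel₀ hm
  rw [h1]; ring

lemma divisible (hC : Cls C) {R : ℤ⟦X⟧} (hR : R ∈ FF ⊓ C) {m : ℤ} (hm : m ≠ 0) :
    ∃ R' ∈ FF ⊓ C, R - m • R' ∈ NC C := by
  classical
  obtain ⟨⟨_, N, hN⟩, hRC⟩ := hR
  have hμ : 0 < m.natAbs := Int.natAbs_pos.2 hm
  have hex : ∀ a : ℕ, ∃ w : ℤ, a.Coprime m.natAbs → m ∣ 1 - a * w := by
    intro a
    by_cases ha : a.Coprime m.natAbs
    · have h1 : IsCoprime (a : ℤ) m := by
        rw [Int.isCoprime_iff_gcd_eq_one, Int.gcd, Int.natAbs_natCast]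
        exact ha
      obtain ⟨u, v, huv⟩ := h1
      exact ⟨u, fun _ => ⟨v, by linear_combination -huv⟩⟩
    · exact ⟨0, fun h => absurd h ha⟩
  choose w hw using hex
  set V : ℤ⟦X⟧ := ∑ a ∈ (Finset.range m.natAbs).filter (fun a => a.Coprime m.natAbs),
    w a • sieve m.natAbs a R with hV
  have hVC : V ∈ C := wsum_mem hC hRC m.natAbs w _
  have hVc : ∀ n, PowerSeries.coeff n V =
      if n.Coprime m.natAbs then w (n % m.natAbs) * PowerSeries.coeff n R else 0 := by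
    intro n
    rw [hV, coeff_sum_sieve hμ w (fun a => a.Coprime m.natAbs)]
    simp only [coprime_mod]
  set R2 : ℤ⟦X⟧ := cop m.natAbs R - theta V with hR2
  have hR2C : R2 ∈ C := C.sub_mem (cop_mem hC hRC hμ) (hC.theta V hVC)
  have hR2c : ∀ n, PowerSeries.coeff n R2 = if n.Coprime m.natAbs then
      (1 - n * w (n % m.natAbs)) * PowerSeries.coeff n R else 0 := by
    intro n
    rw [hR2, map_sub, coeff_cop, coeff_theta, hVc]
    split_ifs
    · ring
    · ring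
  have hdvd : ∀ n, m ∣ PowerSeries.coeff n R2 := by
    intro n
    rw [hR2c]
    split_ifs with hc
    · apply Dvd.dvd.mul_right
      have h1 := hw (n % m.natAbs) (coprime_mod.2 hc)
      have h2 : m ∣ ((n : ℤ) - ((n % m.natAbs : ℕ) : ℤ)) := by
        rw [← Int.natAbs_dvd]
        rw [Int.natCast_mod]
        exact Int.dvd_self_sub_emod
      have h3 : (1 : ℤ) - n * w (n % m.natAbs) = (1 - ((n % m.natAbs : ℕ) : ℤ) *
        w (n % m.natAbs)) - ((n : ℤ) - ((n % m.natAbs : ℕ) : ℤ)) * w (n % m.natAbs) := by ring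
      rw [h3]
      exact dvd_sub h1 (Dvd.dvd.mul_right h2 _)
    · exact dvd_zero m
  set R3 : ℤ⟦X⟧ := PowerSeries.mk fun n => PowerSeries.coeff n R2 / m with hR3
  have hm3 : m • R3 = R2 := by
    ext n
    rw [map_zsmul, hR3, PowerSeries.coeff_mk, smul_eq_mul]
    exact Int.mul_ediv_cancel' (hdvd n)
  have hR3C : R3 ∈ C := hC.div m R3 hm (by rw [hm3]; exact hR2C)
  refine ⟨R3, ⟨⟨hC.alg R3 hR3C, max N (m.natAbs + 1), fun p hp hpN => ?_⟩, hR3C⟩, ?_⟩
  · have h1 : (p : ℤ) ∣ PowerSeries.coeff p R2 := by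
      rw [hR2c]
      split_ifs
      · exact Dvd.dvd.mul_left (hN p hp (le_trans (le_max_left _ _) hpN)) _
      · exact dvd_zero _
    have h2 : PowerSeries.coeff p R2 = m * PowerSeries.coeff p R3 := by
      rw [← hm3, map_zsmul, smul_eq_mul]
    rw [h2] at h1
    refine (Int.Prime.dvd_mul' hp h1).resolve_left fun h3 => ?_
    have h4 := Int.natAbs_dvd_natAbs.2 h3
    rw [Int.natAbs_natCast] at h4
    have h5 := Nat.le_of_dvd hμ h4
    have h6 := le_trans (le_max_right _ _) hpN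
    omega
  · have h1 : R - m • R3 = theta V + 0 + (R - cop m.natAbs R) := by
      rw [hm3, hR2]; ring
    rw [h1]
    exact AddSubgroup.add_mem_sup (AddSubgroup.add_mem_sup
      ⟨theta_mem_DD (hC.alg V hVC), hC.theta V hVC⟩ PolyG.zero_mem)
      ⟨sub_cop_mem_PP hμ (hC.alg R hRC), C.sub_mem hRC (cop_mem hC hRC hμ)⟩

end Pool.Agent.R196.Fer
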