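import Pool.Agent.R196.FerD

/-! Structure of the Fermat quotient groups: main theorem. -/

set_option autoImplicit false

namespace Pool.Agent.R196.Fer

open Polynomial PowerSeries

variable {C : AddSubgroup ℤ⟦X⟧}

/-- the series `∑ (a ^ n - a) x ^ n` -/
noncomputable def Ra (a : ℤ) : ℤ⟦X⟧ := PowerSeries.mk fun n => a ^ n - a

lemma Ra_mem (hC : Cls C) (a : ℤ) : Ra a ∈ FF ⊓ C := by
  have h1 : Ra a = PowerSeries.mk (fun n => a ^ n) - a • PowerSeries.mk (fun n => (1 : ℤ) ^ n) := by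
    ext n
    rw [Ra, map_sub, map_zsmul, PowerSeries.coeff_mk, PowerSeries.coeff_mk, PowerSeries.coeff_mk,
      one_pow, smul_eq_mul, mul_one]
  have h2 : Ra a ∈ C := by
    rw [h1]
    exact C.sub_mem (hC.geo a) (C.zsmul_mem (hC.geo 1) a)
  refine ⟨⟨hC.alg _ h2, 0, fun p hp _ => ?_⟩, h2⟩
  have := Fact.mk hp
  rw [Ra, PowerSeries.coeff_mk, ← ZMod.intCast_zmod_eq_zero_iff_dvd]
  push_cast
  rw [ZMod.pow_card, sub_self]

/-- an integer divisible by infinitely many primes is zero -/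
lemma eq_zero_of_primes {c : ℤ} (h : ∀ N : ℕ, ∃ p : ℕ, N ≤ p ∧ (p : ℤ) ∣ c) : c = 0 := by
  obtain ⟨p, hp, hd⟩ := h (c.natAbs + 1)
  apply Int.eq_zero_of_abs_lt_dvd hd
  rw [Int.abs_eq_natAbs]
  exact_mod_cast hp

lemma independent (hC : Cls C) (s : Finset ℕ) (g : ℕ → ℤ)
    (h : ∑ i ∈ s, g i • Ra ((i : ℤ) + 2) ∈ NC C) : ∀ i ∈ s, g i = 0 := by
  classical
  obtain ⟨U, hU, M, hM, N, hN⟩ := key1 h
  have hcoef : ∀ n, PowerSeries.coeff n (∑ i ∈ s, g i • Ra ((i : ℤ) + 2)) =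
      ∑ i ∈ s, g i * (((i : ℤ) + 2) ^ n - ((i : ℤ) + 2)) := by
    intro n
    rw [map_sum]
    refine Finset.sum_congr rfl fun i _ => ?_
    rw [map_zsmul, Ra, PowerSeries.coeff_mk, smul_eq_mul]
  -- vanishing on a progression
  have hvan : ∀ t : ℕ, ∑ i ∈ s, g i * (((i : ℤ) + 2) ^ (1 + M * t) - ((i : ℤ) + 2)) = 0 := by
    intro t
    apply eq_zero_of_primes
    intro K
    obtain ⟨p, hpK, hp⟩ := Nat.exists_infinite_primes (max K (max N (M + 1)))
    refine ⟨p, le_trans (le_max_left _ _) hpK, ?_⟩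
    have hpN : N ≤ p := le_trans (le_trans (le_max_left _ _) (le_max_right _ _)) hpK
    have hpM : M + 1 ≤ p := le_trans (le_trans (le_max_right _ _) (le_max_right _ _)) hpK
    have hcp : p.Coprime M := by
      rw [Nat.Prime.coprime_iff_not_dvd hp]
      intro hd
      have := Nat.le_of_dvd hM hd
      omega
    have hcr : (1 + M * t).Coprime M := by simp
    have h1 := hN (p * (1 + M * t)) (le_trans hpN (Nat.le_mul_of_pos_right p (by omega)))
      (Nat.Coprime.mul_left hcp hcr)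
    rw [hcoef] at h1
    have := Fact.mk hp
    rw [← ZMod.intCast_zmod_eq_zero_iff_dvd]
    have h2 : ((∑ i ∈ s, g i * (((i : ℤ) + 2) ^ (p * (1 + M * t)) - ((i : ℤ) + 2)) : ℤ) :
        ZMod p) = 0 := by
      rw [ZMod.intCast_zmod_eq_zero_iff_dvd, h1]
      push_cast
      exact ⟨(1 + M * t) * PowerSeries.coeff (p * (1 + M * t)) U, by ring⟩
    rw [← h2]
    push_cast
    refine Finset.sum_congr rfl fun i _ => ?_
    rw [pow_mul, ZMod.pow_card]
  -- all polynomials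
  have hpol : ∀ q : ℤ[X], ∑ i ∈ s, g i * ((i : ℤ) + 2) * q.eval (((i : ℤ) + 2) ^ M) =
      (∑ i ∈ s, g i * ((i : ℤ) + 2)) * q.eval 1 := by
    intro q
    induction q using Polynomial.induction_on' with
    | add p q hp hq =>
      rw [Polynomial.eval_add, mul_add, ← hp, ← hq, ← Finset.sum_add_distrib]
      refine Finset.sum_congr rfl fun i _ => ?_
      rw [Polynomial.eval_add, mul_add]
    | monomial n c =>
      simp only [Polynomial.eval_monomial, one_pow, mul_one]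
      have h3 := hvan n
      have h4 : ∑ i ∈ s, g i * (((i : ℤ) + 2) ^ (1 + M * n) - ((i : ℤ) + 2)) =
          ∑ i ∈ s, g i * ((i : ℤ) + 2) * (((i : ℤ) + 2) ^ M) ^ n -
            ∑ i ∈ s, g i * ((i : ℤ) + 2) := by
        rw [← Finset.sum_sub_distrib]
        refine Finset.sum_congr rfl fun i _ => ?_
        rw [pow_add, pow_one, pow_mul]; ring
      rw [h4, sub_eq_zero] at h3
      rw [← h3, Finset.sum_mul]
      refine Finset.sum_congr rfl fun i _ => ?_
      ring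
  intro i hi
  have hinj : ∀ j : ℕ, j ≠ i → ((i : ℤ) + 2) ^ M ≠ ((j : ℤ) + 2) ^ M := by
    intro j hj h5
    have h6 : (i : ℤ) + 2 = (j : ℤ) + 2 := by
      rwa [pow_left_inj₀ (by positivity) (by positivity) hM.ne'] at h5
    exact hj (by omega)
  have hone : ((i : ℤ) + 2) ^ M ≠ 1 := by
    intro h5
    have h6 : (1 : ℤ) < ((i : ℤ) + 2) ^ M := one_lt_pow₀ (by omega) hM.ne'
    omega
  have h7 := hpol ((Polynomial.X - Polynomial.C 1) *
    ∏ j ∈ s.erase i, (Polynomial.X - Polynomial.C (((j : ℤ) + 2) ^ M)))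
  simp only [Polynomial.eval_mul, Polynomial.eval_sub, Polynomial.eval_X, Polynomial.eval_C,
    Polynomial.eval_prod, sub_self, zero_mul, mul_zero] at h7
  rw [Finset.sum_eq_single i] at h7
  · have h8 : ((i : ℤ) + 2) ^ M - 1 ≠ 0 := sub_ne_zero.2 hone
    have h9 : ∏ j ∈ s.erase i, (((i : ℤ) + 2) ^ M - ((j : ℤ) + 2) ^ M) ≠ 0 := by
      rw [Finset.prod_ne_zero_iff]
      intro j hj
      exact sub_ne_zero.2 (hinj j (Finset.ne_of_mem_erase hj))
    have h10 := mul_eq_zero.1 h7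
    have h11 := (h10.resolve_right (mul_ne_zero h8 h9))
    have h12 : (i : ℤ) + 2 ≠ 0 := by omega
    exact (mul_eq_zero.1 h11).resolve_right h12
  · intro j hj hji
    have : ∏ k ∈ s.erase i, (((j : ℤ) + 2) ^ M - ((k : ℤ) + 2) ^ M) = 0 := by
      rw [Finset.prod_eq_zero_iff]
      exact ⟨j, Finset.mem_erase.2 ⟨hji, hj⟩, sub_self _⟩
    rw [this, mul_zero, mul_zero]
  · intro h'
    exact absurd hi h'

lemma countable_alg : {U : ℤ⟦X⟧ | IsAlgebraic ℤ[X] U}.Countable := by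
  have : Countable ℤ[X] := by
    rw [← Cardinal.mk_le_aleph0_iff]
    refine Polynomial.cardinalMk_le_max.trans ?_
    simp
  have h1 : Function.Injective (algebraMap ℤ[X] ℤ⟦X⟧) := by
    intro p q h
    rw [algebraMap_eq, algebraMap_eq] at h
    exact Polynomial.coe_injective ℤ h
  have : Module.IsTorsionFree ℤ[X] ℤ⟦X⟧ := Module.isTorsionFree_iff_algebraMap_injective.2 h1
  exact Algebraic.countable ℤ[X] ℤ⟦X⟧

theorem main (hC : Cls C) :
    Nonempty (((FF ⊓ C : AddSubgroup ℤ⟦X⟧) ⧸ (NC C).addSubgroupOf (FF ⊓ C)) ≃+ (ℕ →₀ ℚ)) := by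
  classical
  have hcount : Countable (FF ⊓ C : AddSubgroup ℤ⟦X⟧) :=
    (countable_alg.mono fun R hR => hR.1.1 : ((FF ⊓ C : AddSubgroup ℤ⟦X⟧) : Set ℤ⟦X⟧).Countable)
  have hcount2 : Countable ((FF ⊓ C : AddSubgroup ℤ⟦X⟧) ⧸ (NC C).addSubgroupOf (FF ⊓ C)) :=
    (QuotientAddGroup.mk'_surjective ((NC C).addSubgroupOf (FF ⊓ C))).countable
  refine group_structure ?_ ?_ (fun i => QuotientAddGroup.mk' _ ⟨Ra ((i : ℤ) + 2), Ra_mem hC _⟩) ?_
  · intro m a hm ha
    obtain ⟨⟨R, hR⟩, rfl⟩ := QuotientAddGroup.mk'_surjective _ a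
    rw [← map_zsmul, QuotientAddGroup.mk'_apply, QuotientAddGroup.eq_zero_iff,
      AddSubgroup.mem_addSubgroupOf] at ha
    rw [QuotientAddGroup.mk'_apply, QuotientAddGroup.eq_zero_iff, AddSubgroup.mem_addSubgroupOf]
    exact torsion_free hC hR.2 hm ha
  · intro m a hm
    obtain ⟨⟨R, hR⟩, rfl⟩ := QuotientAddGroup.mk'_surjective _ a
    obtain ⟨R', hR', h⟩ := divisible hC hR hm
    refine ⟨QuotientAddGroup.mk' _ ⟨R', hR'⟩, ?_⟩
    rw [← map_zsmul]
    symm
    rw [← sub_eq_zero, ← map_sub, QuotientAddGroup.mk'_apply, QuotientAddGroup.eq_zero_iff,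
      AddSubgroup.mem_addSubgroupOf]
    exact h
  · rw [linearIndependent_iff']
    intro s g hg
    apply independent hC s g
    have h1 : ∑ i ∈ s, g i • (QuotientAddGroup.mk' ((NC C).addSubgroupOf (FF ⊓ C)))
        ⟨Ra ((i : ℤ) + 2), Ra_mem hC _⟩ = (QuotientAddGroup.mk' ((NC C).addSubgroupOf (FF ⊓ C)))
        (∑ i ∈ s, g i • ⟨Ra ((i : ℤ) + 2), Ra_mem hC _⟩) := by
      rw [map_sum]
      refine Finset.sum_congr rfl fun i _ => ?_
      rw [map_zsmul]
    rw [h1, QuotientAddGroup.mk'_apply, QuotientAddGroup.eq_zero_iff,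
      AddSubgroup.mem_addSubgroupOf] at hg
    rw [AddSubgroup.val_finsetSum] at hg
    exact hg

/-- the algebraic series -/
noncomputable def AlgG : AddSubgroup ℤ⟦X⟧ where
  carrier := {R | IsAlgebraic ℤ[X] R}
  add_mem' := fun h h' => h.add h'
  zero_mem' := isAlgebraic_zero
  neg_mem' := fun h => h.neg

lemma rat_geo (a : ℤ) : Rat (PowerSeries.mk fun n => a ^ n) := by
  refine ⟨1 - Polynomial.C a * Polynomial.X, 1, ?_, ?_⟩
  · intro h
    have := congrArg (Polynomial.eval 0) h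
    simp at this
  · ext n
    rw [Polynomial.coe_sub, Polynomial.coe_mul, Polynomial.coe_one, Polynomial.coe_C,
      Polynomial.coe_X, sub_mul, one_mul, map_sub, PowerSeries.coeff_mk, mul_assoc,
      PowerSeries.coeff_C_mul]
    cases n with
    | zero => simp
    | succ n =>
      rw [PowerSeries.coeff_succ_X_mul, PowerSeries.coeff_mk, PowerSeries.coeff_one,
        if_neg (Nat.succ_ne_zero n)]
      ring

lemma cls_rat : Cls RatG where
  alg := fun _ h => rat_alg h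
  sieve := fun _ h m a ha => rat_sieve (by omega) a h
  theta := fun _ h => rat_theta h
  div := fun _ _ hm h => rat_zsmul_iff hm h
  poly := fun p => rat_poly p
  geo := rat_geo

lemma cls_alg : Cls AlgG where
  alg := fun _ h => h
  sieve := fun _ h m a ha => alg_sieve ha h
  theta := fun _ h => alg_theta h
  div := fun _ _ hm h => alg_zsmul_iff hm h
  poly := fun p => alg_poly p
  geo := fun a => rat_alg (rat_geo a)

theorem main_rat : Nonempty (((FF ⊓ RatG : AddSubgroup ℤ⟦X⟧) ⧸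
    ((DD ⊓ RatG) ⊔ PolyG ⊔ (PP ⊓ RatG)).addSubgroupOf (FF ⊓ RatG)) ≃+ (ℕ →₀ ℚ)) :=
  main cls_rat

theorem main_alg : Nonempty ((FF ⧸ (DD ⊔ PolyG ⊔ PP).addSubgroupOf FF) ≃+ (ℕ →₀ ℚ)) := by
  have h := main cls_alg
  have h1 : FF ⊓ AlgG = FF := inf_eq_left.2 fun R hR => hR.1
  have h2 : DD ⊓ AlgG = DD := inf_eq_left.2 fun R hR => by
    obtain ⟨U, hU, rfl⟩ := hR
    rw [← theta_eq]
    exact alg_theta hU
  have h3 : PP ⊓ AlgG = PP := by
    rw [inf_eq_left]
    unfold PP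
    rw [AddSubgroup.closure_le]
    rintro _ ⟨U, M, hM, hU, _, rfl⟩
    exact alg_expand hM hU
  unfold NC at h
  rw [h1, h2, h3] at h
  exact h

end Pool.Agent.R196.Fer
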