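import Pool.Agent.R196.LocT

/-!
# Closing on homogeneous periodic submanifolds by perturbations with prescribed support
-/

set_option autoImplicit false
set_option linter.unusedSectionVars false

open scoped Manifold ContDiff Topology NNReal
open Filter Set Metric

universe u

namespace Pool.Agent.R196.Loc

open Pool.Agent.H718R2.G Pool.Agent.W564.SC Pool.Agent.TH290.CL Pool.Agent.TH80.CLX

/-- The displacement accumulated along the orbit: `b k x` is the value of the bump function at the
point of displacement `x` at time `k`. -/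
def disp (b : ℕ → ℝ → ℝ) (t : ℝ) : ℕ → ℝ
  | 0 => 0
  | k + 1 => disp b t k + t * b k (disp b t k)

theorem disp_cont (b : ℕ → ℝ → ℝ) (hb : ∀ k, Continuous (b k)) (k : ℕ) :
    Continuous (fun t => disp b t k) := by
  induction k with
  | zero => exact continuous_const
  | succ k ih =>
    show Continuous (fun t => disp b t k + t * b k (disp b t k))
    exact ih.add (continuous_id.mul ((hb k).comp ih))

theorem disp_zero (b : ℕ → ℝ → ℝ) (k : ℕ) : disp b 0 k = 0 := by
  induction k with
  | zero => rfl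
  | succ k ih =>
    show disp b 0 k + 0 * b k (disp b 0 k) = 0
    rw [ih, zero_mul, add_zero]

theorem disp_mono (b : ℕ → ℝ → ℝ) (hb : ∀ k x, 0 ≤ b k x) {t : ℝ} (ht : 0 ≤ t) :
    Monotone (disp b t) := by
  apply monotone_nat_of_le_succ
  intro k
  show disp b t k ≤ disp b t k + t * b k (disp b t k)
  have := mul_nonneg ht (hb k (disp b t k))
  linarith

/-- The intermediate value argument: if the displacement, as long as it is at most `T`, increases by at
least `ε / 2` at the times `l * n₀`, then it takes the value `T` for some `t ∈ [0, ε]`. -/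
theorem disp_ivt (b : ℕ → ℝ → ℝ) (hb : ∀ k, Continuous (b k)) (hb0 : ∀ k x, 0 ≤ b k x)
    {ε T : ℝ} (hε : 0 < ε) (hT : 0 ≤ T) (K n₀ : ℕ) (hn₀ : 1 ≤ n₀) (hK : T ≤ K * (ε / 2))
    (hret : ∀ l < K, ∀ x, 0 ≤ x → x < T → 1 / 2 ≤ b (l * n₀) x) :
    ∃ t, 0 ≤ t ∧ t ≤ ε ∧ disp b t (K * n₀) = T := by
  have hend : T ≤ disp b ε (K * n₀) := by
    by_contra hlt
    push Not at hlt
    have hm := disp_mono b hb0 hε.le
    have h0 : ∀ k, 0 ≤ disp b ε k := fun k => by
      have := hm (Nat.zero_le k)
      exact this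
    have key : ∀ l ≤ K, (l : ℝ) * (ε / 2) ≤ disp b ε (l * n₀) := by
      intro l
      induction l with
      | zero => intro _; simpa using h0 _
      | succ l ih =>
        intro hl
        have h1 := ih (by omega)
        have h2 : disp b ε (l * n₀) < T :=
          (hm (Nat.mul_le_mul_right n₀ (by omega : l ≤ K))).trans_lt hlt
        have h3 := hret l (by omega) _ (h0 _) h2
        have h4 : disp b ε (l * n₀ + 1) = disp b ε (l * n₀) + ε * b (l * n₀) (disp b ε (l * n₀)) :=
          rfl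
        have h5 : disp b ε (l * n₀ + 1) ≤ disp b ε ((l + 1) * n₀) := by
          apply hm
          rw [Nat.succ_mul]
          omega
        have h6 : ε * (1 / 2) ≤ ε * b (l * n₀) (disp b ε (l * n₀)) :=
          mul_le_mul_of_nonneg_left h3 hε.le
        push_cast
        linarith
    have := key K le_rfl
    linarith
  have hc : ContinuousOn (fun t => disp b t (K * n₀)) (Icc 0 ε) :=
    (disp_cont b hb (K * n₀)).continuousOn
  have himg := intermediate_value_Icc hε.le hc
  have hmem : T ∈ Icc (disp b 0 (K * n₀)) (disp b ε (K * n₀)) := by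
    rw [disp_zero]
    exact ⟨hT, hend⟩
  obtain ⟨t, ht, htT⟩ := himg hmem
  exact ⟨t, ht.1, ht.2, htT⟩

variable {n : ℕ} {N : Type u} [TopologicalSpace N] [T2Space N] [CompactSpace N]
  [ChartedSpace (V n) N] [IsManifold (𝓡 n) ∞ N]

/-- Closing with prescribed support near a point of a homogeneous periodic submanifold. -/
theorem local_closing (r : ℕ∞) (hr : 1 ≤ r) (F : DiffM n N r) (z : N)
    (h : IsHomPer n N F z) (W : Set N) (hW : W ∈ 𝓝 z) (U : Set (DiffM n N r))
    (hU : IsOpen[strongTop n N r] U) (hFU : F ∈ U) :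
    ∃ H ∈ U, IsPer H z ∧ ∀ y, y ∉ W → H y = F y := by
  classical
  obtain ⟨G, iG, iT, iC, q, ι, O, act, hact, hzO, m, hm1, ⟨g, hg⟩, hcom, hdis⟩ := h
  obtain ⟨j, c, hcadd, hcs, hcg, hct⟩ := exists_ret ι hact.rep_cont hact.rep_inj g
  have hc0 : c 0 = 1 := by
    have h1 := hcadd 0 0
    rw [add_zero] at h1
    exact (mul_eq_left.1 h1.symm)
  have hinv : ∀ (a : G), ∀ y ∈ O, act a⁻¹ (act a y) = y := by
    intro a y hy
    rw [← hact.mul _ _ y hy, inv_mul_cancel, hact.one y hy]
  -- saturations of compact sets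
  have hsat : ∀ K : Set N, IsCompact K → K ⊆ O →
      IsCompact ((fun p : G × N => act p.1 p.2) '' (univ ×ˢ K)) := by
    intro K hK hKO
    exact (isCompact_univ.prod hK).image_of_continuousOn
      (hact.cont.mono (prod_mono_right hKO))
  obtain ⟨C, hC⟩ : ∃ C : Set N, C = (fun p : G × N => act p.1 p.2) '' (univ ×ˢ {z}) := ⟨_, rfl⟩
  have hCc : IsCompact C := by
    rw [hC]
    exact hsat _ isCompact_singleton (singleton_subset_iff.2 hzO)
  have hCmem : ∀ a : G, act a z ∈ C := by
    intro a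
    rw [hC]
    exact ⟨(a, z), ⟨mem_univ _, rfl⟩, rfl⟩
  have hCmem' : ∀ y ∈ C, ∃ a : G, act a z = y := by
    intro y hy
    rw [hC] at hy
    obtain ⟨⟨a, w⟩, ⟨-, hw⟩, ha⟩ := hy
    rw [mem_singleton_iff] at hw
    refine ⟨a, ?_⟩
    rw [← ha]
    show act a z = act a w
    rw [show w = z from hw]
  have hCO : C ⊆ O := by
    intro y hy
    obtain ⟨a, ha⟩ := hCmem' y hy
    rw [← ha]
    exact hact.maps a z hzO
  have hzC : z ∈ C := by
    have := hCmem 1
    rwa [hact.one z hzO] at this
  obtain ⟨C0, hC0⟩ : ∃ C0 : Set N, C0 = ⋃ i ∈ Finset.Ico 1 m, F^[i] '' C := ⟨_, rfl⟩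
  have hFc : ∀ i : ℕ, Continuous (F^[i]) := fun i => F.continuous.iterate i
  have hC0c : IsClosed C0 := by
    rw [hC0]
    exact isClosed_biUnion_finset fun i _ => (hCc.image (hFc i)).isClosed
  have hdisj0 : Disjoint C0 C := by
    rw [Set.disjoint_left]
    intro y hy1 hy2
    rw [hC0] at hy1
    simp only [mem_iUnion, Finset.mem_Ico] at hy1
    obtain ⟨i, ⟨hi1, hi2⟩, w, hw, hwy⟩ := hy1
    obtain ⟨a, ha⟩ := hCmem' w hw
    obtain ⟨b, hb⟩ := hCmem' y hy2
    apply hdis i hi1 hi2 a b
    rw [ha, hwy, hb]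
  -- a compact neighbourhood of the orbit
  obtain ⟨O₁, hO₁, hCO₁, hO₁O, hO₁c⟩ := exists_open_between_and_isCompact_closure hCc hact.isOpen hCO
  have hD : IsClosed (C0 ∪ O₁ᶜ ∪ (interior W)ᶜ) :=
    (hC0c.union hO₁.isClosed_compl).union isOpen_interior.isClosed_compl
  have hdisj : Disjoint (C0 ∪ O₁ᶜ ∪ (interior W)ᶜ) {z} := by
    rw [Set.disjoint_singleton_right]
    rintro ((h1 | h1) | h1)
    · exact Set.disjoint_left.1 hdisj0 h1 hzC
    · exact h1 (hCO₁ hzC)
    · exact h1 (mem_interior_iff_mem_nhds.2 hW)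
  obtain ⟨f, hf0, hf1, hf01⟩ := exists_contMDiffMap_zero_one_of_isClosed (n := ⊤) (𝓡 n) hD
    isClosed_singleton hdisj
  have hρ : ContMDiff (𝓡 n) 𝓘(ℝ, ℝ) ∞ (f : N → ℝ) := f.contMDiff
  have hfz : f z = 1 := hf1 rfl
  have hfn : ∀ y, 0 ≤ f y := fun y => (hf01 y).1
  obtain ⟨K, hKdef⟩ : ∃ K : Set N, K = (fun p : G × N => act p.1 p.2) '' (univ ×ˢ closure O₁) :=
    ⟨_, rfl⟩
  have hKc : IsCompact K := by
    rw [hKdef]
    exact hsat _ hO₁c hO₁O
  have hKO : K ⊆ O := by
    rw [hKdef]
    rintro y ⟨⟨a, w⟩, ⟨-, hw⟩, ha⟩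
    rw [← ha]
    exact hact.maps a w (hO₁O hw)
  have hρ0 : ∀ y ∈ O, y ∉ K → ∀ s, f (act (c s) y) = 0 := by
    intro y hy hyK s
    apply hf0
    left; right
    intro h1
    apply hyK
    rw [hKdef]
    exact ⟨((c s)⁻¹, act (c s) y), ⟨mem_univ _, subset_closure h1⟩, hinv _ y hy⟩
  have hA : LAct j n N O (fun s y => act (c s) y) :=
    { isOpen := hact.isOpen
      maps := fun s y hy => hact.maps _ y hy
      smooth := hact.smooth j c hcs
      zero := fun y hy => by
        show act (c 0) y = y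
        rw [hc0, hact.one y hy]
      add := fun s t y hy => by
        show act (c (s + t)) y = act (c s) (act (c t) y)
        rw [hcadd, hact.mul _ _ y hy] }
  -- the family
  obtain ⟨H, κ, hκ, hH0, hfam, hH⟩ := lact_fam hA hρ K hKc hKc.isClosed hKO hρ0 r F
  obtain ⟨κ', hκ', hmem⟩ := fam_mem r hr H hfam z U hU (by rw [hH0]; exact hFU)
  -- continuity of the bump function along the action
  have hcontA : ∀ y ∈ O, Continuous (fun s : V j => f (act (c s) y)) := by
    intro y hy
    have h1 : Continuous (fun s : V j => act (c s) y) := by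
      rw [continuous_iff_continuousAt]
      intro s
      have h2 := (hA.at s y hy).continuousAt
      exact ContinuousAt.comp (g := fun q : V j × N => act (c q.1) q.2)
        (f := fun s : V j => (s, y)) h2 (Continuous.prodMk_left y).continuousAt
    exact f.contMDiff.continuous.comp h1
  obtain ⟨η, hη, hfη⟩ : ∃ η : ℝ, 0 < η ∧ ∀ s : V j, ‖s‖ < η → 1 / 2 ≤ f (act (c s) z) := by
    have h1 := (hcontA z hzO).tendsto 0
    rw [hc0, hact.one z hzO, hfz] at h1
    have h2 : ∀ᶠ s : V j in 𝓝 0, 1 / 2 < f (act (c s) z) :=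
      h1.eventually (lt_mem_nhds (by norm_num))
    obtain ⟨η, hη, h3⟩ := Metric.eventually_nhds_iff.1 h2
    exact ⟨η, hη, fun s hs => (h3 (by rwa [dist_zero_right])).le⟩
  set ε : ℝ := min κ κ' / 2 with hεdef
  have hε : 0 < ε := by
    have := lt_min hκ hκ'
    positivity
  have hεκ : ε < κ := by
    have h1 := min_le_left κ κ'
    have h2 := lt_min hκ hκ'
    rw [hεdef]; linarith
  have hεκ' : ε < κ' := by
    have h1 := min_le_right κ κ'
    have h2 := lt_min hκ hκ'
    rw [hεdef]; linarith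
  obtain ⟨M, hM⟩ := exists_nat_gt (η / (ε / 2))
  have hM1 : (0 : ℝ) < M := lt_of_le_of_lt (by positivity) hM
  have hMη : η < M * (ε / 2) := by rwa [div_lt_iff₀ (by positivity)] at hM
  obtain ⟨v, hv, n₀, hn₀, hvg⟩ := hct (η / M) (by positivity)
  have hvη : M * ‖v‖ < η := by
    rw [lt_div_iff₀ hM1] at hv
    linarith
  -- powers of `g`
  have hcnsmul : ∀ l : ℕ, c ((l : ℝ) • v) = c v ^ l := by
    intro l
    induction l with
    | zero => simp [hc0]
    | succ l ih => rw [Nat.cast_succ, add_smul, one_smul, hcadd, ih, pow_succ]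
  have hcomg : Commute (c v) (g ^ n₀) := by
    have h1 : Commute (c v) g := hcg v
    exact h1.pow_right n₀
  have hpow : ∀ l : ℕ, c ((l : ℝ) • v) * g ^ (l * n₀) = 1 := by
    intro l
    rw [hcnsmul, mul_comm l n₀, pow_mul, ← hcomg.mul_pow, hvg, one_pow]
  by_cases hv0 : v = 0
  · -- the point is periodic already
    refine ⟨F, hFU, ⟨m * n₀, Nat.mul_pos hm1 hn₀, ?_⟩, fun _ _ => rfl⟩
    rw [hv0, hc0, one_mul] at hvg
    have h3 : ∀ l : ℕ, F^[m * l] z = act (g ^ l) z := by
      intro l
      induction l with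
      | zero =>
        rw [pow_zero, hact.one z hzO]
        rfl
      | succ l ih =>
        rw [Nat.mul_succ, Nat.add_comm, Function.iterate_add_apply, ih, hcom, hg,
          ← hact.mul _ _ z hzO, ← pow_succ]
    rw [h3, hvg, hact.one z hzO]
  have hnv : 0 < ‖v‖ := norm_pos_iff.2 hv0
  obtain ⟨u, hudef⟩ : ∃ u : V j, u = ‖v‖⁻¹ • v := ⟨_, rfl⟩
  have hu1 : ‖u‖ = 1 := by
    rw [hudef, norm_smul, norm_inv, norm_norm, inv_mul_cancel₀ hnv.ne']
  have hvu : ‖v‖ • u = v := by
    rw [hudef, smul_smul, mul_inv_cancel₀ hnv.ne', one_smul]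
  let b : ℕ → ℝ → ℝ := fun k x => f (act (c (x • u)) (act (g ^ k) z))
  have hgO : ∀ k : ℕ, act (g ^ k) z ∈ O := fun k => hact.maps _ z hzO
  have hbc : ∀ k, Continuous (b k) := by
    intro k
    have h1 : Continuous (fun x : ℝ => x • u) := continuous_id.smul continuous_const
    exact (hcontA _ (hgO k)).comp h1
  have hb0 : ∀ k x, 0 ≤ b k x := fun k x => hfn _
  have hret : ∀ l < M, ∀ x, 0 ≤ x → x < M * ‖v‖ → 1 / 2 ≤ b (l * n₀) x := by
    intro l hl x hx0 hx
    have e : act (c (x • u)) (act (g ^ (l * n₀)) z) = act (c ((x - l * ‖v‖) • u)) z := by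
      rw [← hact.mul _ _ z hzO]
      congr 1
      have e1 : x • u = (x - l * ‖v‖) • u + (l : ℝ) • v := by
        have e0 : (l : ℝ) • v = (l * ‖v‖) • u := by rw [mul_smul, hvu]
        rw [e0, ← add_smul]
        congr 1
        ring
      rw [e1, hcadd, mul_assoc, hpow, mul_one]
    show 1 / 2 ≤ f (act (c (x • u)) (act (g ^ (l * n₀)) z))
    rw [e]
    apply hfη
    rw [norm_smul, hu1, mul_one, Real.norm_eq_abs, abs_lt]
    have h1 : (l : ℝ) * ‖v‖ ≤ M * ‖v‖ := by
      have : (l : ℝ) ≤ M := by exact_mod_cast hl.le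
      exact mul_le_mul_of_nonneg_right this hnv.le
    have h2 : 0 ≤ (l : ℝ) * ‖v‖ := by positivity
    constructor <;> linarith
  obtain ⟨t, ht0, htε, htT⟩ := disp_ivt b hbc hb0 hε (T := M * ‖v‖) (by positivity) M n₀ hn₀
    (by linarith) hret
  have hts : ‖t • u‖ < κ := by
    rw [norm_smul, hu1, mul_one, Real.norm_eq_abs, abs_of_nonneg ht0]
    exact htε.trans_lt hεκ
  have hts' : ‖t • u‖ < κ' := by
    rw [norm_smul, hu1, mul_one, Real.norm_eq_abs, abs_of_nonneg ht0]
    exact htε.trans_lt hεκ'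
  have hMn : 1 ≤ M * n₀ := Nat.mul_pos (by exact_mod_cast hM1) hn₀
  refine ⟨H (t • u), hmem _ hts', ⟨m * (M * n₀), Nat.mul_pos hm1 hMn, ?_⟩, ?_⟩
  swap
  · intro y hy
    rw [hH _ hts]
    have h1 : f y = 0 := hf0 (Or.inr fun h => hy (interior_subset h))
    by_cases hyO : y ∈ O
    · rw [if_pos hyO, h1, zero_smul]
      show F (act (c 0) y) = F y
      rw [hc0, hact.one y hyO]
    · rw [if_neg hyO]
  have hHs := hH (t • u) hts
  -- the orbit of a point of the first orbit
  have h1 : ∀ (a : G) (i : ℕ), 1 ≤ i → i ≤ m →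
      (H (t • u))^[i] (act a z) = F^[i] (act (c (f (act a z) • (t • u)) * a) z) := by
    intro a i hi
    induction i with
    | zero => omega
    | succ i ih =>
      intro him
      rcases Nat.eq_zero_or_pos i with h0 | h0
      · subst h0
        show H (t • u) (act a z) = F (act (c (f (act a z) • (t • u)) * a) z)
        rw [hHs, if_pos (hCO (hCmem a))]
        show F (act (c (f (act a z) • (t • u))) (act a z)) = _
        rw [← hact.mul _ _ z hzO]
      · rw [Function.iterate_succ_apply', ih h0 (by omega), hHs,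
          Function.iterate_succ_apply' F]
        have h2 : f (F^[i] (act (c (f (act a z) • (t • u)) * a) z)) = 0 := hf0 (by
          left; left
          rw [hC0]
          simp only [mem_iUnion, Finset.mem_Ico]
          exact ⟨i, ⟨h0, by omega⟩, _, hCmem _, rfl⟩)
        congr 1
        by_cases hO : F^[i] (act (c (f (act a z) • (t • u)) * a) z) ∈ O
        · rw [if_pos hO, h2, zero_smul]
          show act (c 0) _ = _
          rw [hc0, hact.one _ hO]
        · rw [if_neg hO]
  have h2 : ∀ a : G, (H (t • u))^[m] (act a z) = act (c (f (act a z) • (t • u)) * a * g) z := by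
    intro a
    rw [h1 a m hm1 le_rfl, hcom, hg, ← hact.mul _ _ z hzO]
  have h3 : ∀ l : ℕ, (H (t • u))^[m * l] z = act (c (disp b t l • u) * g ^ l) z := by
    intro l
    induction l with
    | zero =>
      show z = act (c ((0 : ℝ) • u) * g ^ 0) z
      rw [zero_smul, hc0, pow_zero, mul_one, hact.one z hzO]
    | succ l ih =>
      rw [Nat.mul_succ, Nat.add_comm, Function.iterate_add_apply, ih, h2]
      congr 1
      have e1 : f (act (c (disp b t l • u) * g ^ l) z) = b l (disp b t l) := by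
        show _ = f (act (c (disp b t l • u)) (act (g ^ l) z))
        rw [hact.mul _ _ z hzO]
      rw [e1]
      have e2 : disp b t (l + 1) • u = (b l (disp b t l)) • (t • u) + disp b t l • u := by
        show (disp b t l + t * b l (disp b t l)) • u = _
        rw [add_smul, add_comm, mul_comm t, mul_smul]
      rw [e2, hcadd, pow_succ]
      simp only [mul_assoc]
  rw [h3, htT]
  have e3 : ((M : ℝ) * ‖v‖) • u = (M : ℝ) • v := by
    rw [mul_smul, hvu]
  rw [e3, hpow, hact.one z hzO]

/-- `y` lies on a homogeneous periodic submanifold of `F` of period `m ≥ 1`: some compact Lie group `G`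
acts smoothly on an open set `O` which contains `y`, the orbit `C = G y` is periodic with period `m`
(`F^m(C) = C`, and `F^i(C)` does not meet `C` for `1 ≤ i < m`), and `F^m` commutes on `C` with the
action. Nothing is required of `F` outside of `C, F(C), ..., F^(m-1)(C)`. -/
def IsHomPerOf (n : ℕ) (N : Type u) [TopologicalSpace N] [ChartedSpace (V n) N] (F : N → N)
    (m : ℕ) (y : N) : Prop :=
  1 ≤ m ∧ ∃ (G : Type) (_ : Group G) (_ : TopologicalSpace G) (_ : CompactSpace G) (q : ℕ)
    (ι : G →* Matrix (Fin q) (Fin q) ℂ) (O : Set N) (act : G → N → N),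
    IsLieAction n N ι O act ∧ y ∈ O ∧
    (∃ g, F^[m] y = act g y) ∧ (∀ g, F^[m] (act g y) = act g (F^[m] y)) ∧
      ∀ i, 1 ≤ i → i < m → ∀ g h, F^[i] (act g y) ≠ act h y

/-- The points `F^(m l)(y)` lie on the same homogeneous periodic submanifold. -/
theorem homPer_orbit (F : N → N) (m : ℕ) (y : N) (h : IsHomPerOf n N F m y) (l : ℕ) :
    IsHomPer n N F (F^[m * l] y) := by
  obtain ⟨hm, G, iG, iT, iC, q, ι, O, act, hact, hyO, ⟨g, hg⟩, hcom, hdis⟩ := h
  have h3 : F^[m * l] y = act (g ^ l) y := by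
    induction l with
    | zero =>
      rw [pow_zero, hact.one y hyO]
      rfl
    | succ l ih =>
      rw [Nat.mul_succ, Nat.add_comm, Function.iterate_add_apply, ih, hcom, hg,
        ← hact.mul _ _ y hyO, ← pow_succ]
  rw [h3]
  refine ⟨G, iG, iT, iC, q, ι, O, act, hact, hact.maps _ y hyO, m, hm, ⟨g, ?_⟩, fun a => ?_,
    fun i hi1 hi2 a b => ?_⟩
  · rw [hcom, hg, ← hact.mul _ _ y hyO, ← hact.mul _ _ y hyO, ← pow_succ, ← pow_succ']
  · rw [← hact.mul _ _ y hyO, hcom, hcom, hact.mul _ _ _ (by rw [hg]; exact hact.maps _ y hyO)]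
  · rw [← hact.mul _ _ y hyO, ← hact.mul _ _ y hyO]
    exact hdis i hi1 hi2 _ _

/-- Closing with prescribed support anywhere along the orbit. -/
theorem support_closing (r : ℕ∞) (hr : 1 ≤ r) (F : DiffM n N r) (m : ℕ) (z : N)
    (h : IsHomPerOf n N F m z) (W : Set N) (hWo : IsOpen W)
    (hW : ∃ l : ℕ, F^[m * l] z ∈ W) (U : Set (DiffM n N r))
    (hU : IsOpen[strongTop n N r] U) (hFU : F ∈ U) :
    ∃ H ∈ U, IsPer H z ∧ ∀ y, y ∉ W → H y = F y := by
  obtain ⟨l, hl⟩ := hW
  by_cases hex : ∃ i < m * l, F^[i] z = F^[m * l] z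
  · obtain ⟨i, hi, hiz⟩ := hex
    refine ⟨F, hFU, ⟨m * l - i, by omega, ?_⟩, fun _ _ => rfl⟩
    have h1 : F^[i] (F^[m * l - i] z) = F^[i] z := by
      rw [← Function.iterate_add_apply, show i + (m * l - i) = m * l by omega, hiz]
    exact (F.injective.iterate i) h1
  · push Not at hex
    -- remove the first points of the orbit
    have hfin : {y | ∃ i < m * l, F^[i] z = y}.Finite := by
      have : {y | ∃ i < m * l, F^[i] z = y} = (fun i => F^[i] z) '' (Iio (m * l)) := by
        ext y; simp [Set.mem_image]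
      rw [this]
      exact (Set.finite_Iio _).image _
    have hW' : W \ {y | ∃ i < m * l, F^[i] z = y} ∈ 𝓝 (F^[m * l] z) := by
      apply (hWo.sdiff hfin.isClosed).mem_nhds
      refine ⟨hl, ?_⟩
      rintro ⟨i, hi, hiz⟩
      exact hex i hi hiz
    obtain ⟨H, hHU, ⟨p, hp, hpz⟩, hHF⟩ := local_closing r hr F (F^[m * l] z)
      (homPer_orbit F m z h l) _ hW' U hU hFU
    have hit : ∀ i ≤ m * l, H^[i] z = F^[i] z := by
      intro i
      induction i with
      | zero => intro _; rfl
      | succ i ih =>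
        intro hi
        rw [Function.iterate_succ_apply', Function.iterate_succ_apply', ih (by omega)]
        apply hHF
        rintro ⟨-, h2⟩
        exact h2 ⟨i, by omega, rfl⟩
    refine ⟨H, hHU, ⟨p, hp, ?_⟩, fun y hy => hHF y fun h => hy h.1⟩
    have h1 : H^[m * l] (H^[p] z) = H^[m * l] z := by
      rw [← Function.iterate_add_apply, Nat.add_comm, Function.iterate_add_apply, hit _ le_rfl, hpz]
    exact (H.injective.iterate (m * l)) h1

end Pool.Agent.R196.Loc
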