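import Pool.Agent.TH80.CLX.Step

/-!
# Powers of an element of a compact group of matrices in one-parameter subgroups

Variants of `torsion_alg`, `exists_small_abs`, `exists_small` of `Pool/Agent/TH80/CLX/Tors.lean`.
-/

set_option autoImplicit false

open scoped ContDiff Topology
open Filter Set Metric

namespace Pool.Agent.R196.Loc

open NormedSpace Pool.Agent.TH80.CLX

section alg

variable {A : Type*} [NormedCommRing A] [NormedAlgebra ℝ A] [FiniteDimensional ℝ A]

theorem ret_alg (S : Set A) (hS : IsClosed S) (h1 : (1 : A) ∈ S)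
    (hmul : ∀ a ∈ S, ∀ b ∈ S, a * b ∈ S) (hinv : ∀ a ∈ S, ∃ b ∈ S, a * b = 1)
    (g : A) (hg : g ∈ S) (hrec : ∀ η : ℝ, 0 < η → ∃ n : ℕ, 1 ≤ n ∧ ‖g ^ n - 1‖ < η) :
    ∃ W : Submodule ℝ A, (∀ x ∈ W, exp x ∈ S) ∧
      ∀ ε : ℝ, 0 < ε → ∃ x ∈ W, ‖x‖ < ε ∧ ∃ n : ℕ, 1 ≤ n ∧ exp x * g ^ n = 1 := by
  obtain ⟨W, hW, δ, hδ, hW2⟩ := closed_subgroup S hS h1 hmul hinv
  refine ⟨W, hW, fun ε hε => ?_⟩
  obtain ⟨η, hη, hon⟩ := exp_onto (A := A) (min ε δ) (lt_min hε hδ)
  obtain ⟨n, hn, hgn⟩ := hrec η hη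
  obtain ⟨y, hy, hyg⟩ := hon _ hgn
  have hyS : exp y ∈ S := by
    rw [hyg]
    clear hgn hyg
    induction n with
    | zero => simpa using h1
    | succ n ih =>
      rcases Nat.eq_zero_or_pos n with h0 | h0
      · subst h0
        simpa using hg
      · rw [pow_succ]
        exact hmul _ (ih h0) _ hg
  have hyW := hW2 y (hy.trans_le (min_le_right _ _)) hyS
  refine ⟨-y, W.neg_mem hyW, ?_, n, hn, ?_⟩
  · rw [norm_neg]
    exact hy.trans_le (min_le_left _ _)
  · rw [← hyg, ← exp_add', neg_add_cancel, exp_zero]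

end alg

section grp

variable {G : Type*} [Group G] [TopologicalSpace G] [CompactSpace G] {q : ℕ}
  (ι : G →* Matrix (Fin q) (Fin q) ℂ)

theorem exists_ret_abs {A : Type*} [NormedCommRing A] [NormedAlgebra ℝ A] [FiniteDimensional ℝ A]
    (val : A →ₐ[ℝ] Matrix (Fin q) (Fin q) ℂ) (hval : Function.Injective val)
    (hc : Continuous ι) (hi : Function.Injective ι) (g : G) (gA : A) (hgA : val gA = ι g) :
    ∃ (j : ℕ) (c : EuclideanSpace ℝ (Fin j) → G), (∀ s t, c (s + t) = c s * c t) ∧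
      (∀ a b, ContDiff ℝ ∞ (fun s => ι (c s) a b)) ∧ (∀ s, c s * g = g * c s) ∧
      ∀ ε : ℝ, 0 < ε → ∃ s, ‖s‖ < ε ∧ ∃ n : ℕ, 1 ≤ n ∧ c s * g ^ n = 1 := by
  have hemb : Topology.IsClosedEmbedding val.toLinearMap :=
    LinearMap.isClosedEmbedding_of_injective (LinearMap.ker_eq_bot.2 hval)
  have hvc : Continuous val := hemb.continuous
  obtain ⟨S, hS⟩ : ∃ S : Set A, ∀ x : A, x ∈ S ↔ ∃ h : G, ι h = val x :=
    ⟨{x : A | ∃ h : G, ι h = val x}, fun x => Iff.rfl⟩
  have hSc : IsClosed S := by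
    have h1 : IsClosed (range ι) := (isCompact_range hc).isClosed
    have h2 : S = val ⁻¹' (range ι) := by
      ext x
      rw [hS]
      rfl
    rw [h2]
    exact h1.preimage hvc
  have h1S : (1 : A) ∈ S := by
    rw [hS]
    exact ⟨1, by rw [map_one, map_one]⟩
  have hmul : ∀ a ∈ S, ∀ b ∈ S, a * b ∈ S := by
    intro a ha b hb
    rw [hS] at ha hb ⊢
    obtain ⟨x, hx⟩ := ha
    obtain ⟨y, hy⟩ := hb
    exact ⟨x * y, by rw [map_mul, map_mul, hx, hy]⟩
  have hinv : ∀ a ∈ S, ∃ b ∈ S, a * b = 1 := by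
    intro a ha
    obtain ⟨x, hx⟩ := (hS a).1 ha
    have h1 : ι x⁻¹ * val a = 1 := by
      rw [← hx, ← map_mul, inv_mul_cancel, map_one]
    have hinj : Function.Injective (LinearMap.mulLeft ℝ a) := by
      intro u v huv
      have h2 : val a * val u = val a * val v := by
        rw [← map_mul, ← map_mul]
        exact congrArg val huv
      apply hval
      calc val u = (ι x⁻¹ * val a) * val u := by rw [h1, one_mul]
        _ = ι x⁻¹ * (val a * val u) := by rw [mul_assoc]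
        _ = (ι x⁻¹ * val a) * val v := by rw [h2, mul_assoc]
        _ = val v := by rw [h1, one_mul]
    obtain ⟨b, hb⟩ := (LinearMap.injective_iff_surjective.1 hinj) 1
    have hab : a * b = 1 := hb
    have h2 : val a * val b = 1 := by rw [← map_mul, hab, map_one]
    refine ⟨b, (hS b).2 ⟨x⁻¹, ?_⟩, hab⟩
    calc ι x⁻¹ = ι x⁻¹ * (val a * val b) := by rw [h2, mul_one]
      _ = val b := by rw [← mul_assoc, h1, one_mul]
  have hrec : ∀ η : ℝ, 0 < η → ∃ n : ℕ, 1 ≤ n ∧ ‖gA ^ n - 1‖ < η := by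
    intro η hη
    have h1 : ball (1 : A) η ∈ 𝓝 (1 : A) := ball_mem_nhds _ hη
    have h2 : 𝓝 (1 : A) = comap val (𝓝 (val 1)) := hemb.isInducing.nhds_eq_comap 1
    rw [h2, map_one] at h1
    obtain ⟨O, hO, h3⟩ := h1
    obtain ⟨n, hn, h4⟩ := recur ι hc g O hO
    refine ⟨n, hn, ?_⟩
    have h5 : gA ^ n ∈ ball (1 : A) η := h3 (by
      show val (gA ^ n) ∈ O
      rw [map_pow, hgA]
      exact h4)
    rwa [mem_ball, dist_eq_norm] at h5
  obtain ⟨W, hW, htor⟩ := ret_alg (A := A) S hSc h1S hmul hinv gA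
    ((hS _).2 ⟨g, hgA.symm⟩) hrec
  have hcG : ∀ x : W, ∃ h : G, ι h = val (exp (x : A)) :=
    fun x => (hS _).1 (hW x x.2)
  choose d hd using hcG
  have hdadd : ∀ x y : W, d (x + y) = d x * d y := by
    intro x y
    apply hi
    rw [map_mul, hd, hd, hd, ← map_mul]
    congr 1
    exact exp_add' (A := A) _ _
  have hdg : ∀ x : W, d x * g = g * d x := by
    intro x
    apply hi
    rw [map_mul, map_mul, hd, ← hgA, ← map_mul, ← map_mul, mul_comm]
  -- linear coordinates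
  obtain ⟨e⟩ : Nonempty (EuclideanSpace ℝ (Fin (Module.finrank ℝ W)) ≃L[ℝ] W) :=
    ⟨(ContinuousLinearEquiv.ofFinrankEq (by rw [finrank_euclideanSpace_fin]))⟩
  refine ⟨Module.finrank ℝ W, fun s => d (e s), fun s t => ?_, ?_, fun s => hdg _, ?_⟩
  · show d (e (s + t)) = d (e s) * d (e t)
    rw [map_add, hdadd]
  · intro a b
    have h1 : ContDiff ℝ ∞ (fun s => exp ((e s : W) : A)) :=
      (exp_smooth (A := A)).comp ((W.subtypeL.contDiff).comp e.contDiff)
    let L : A →ₗ[ℝ] ℂ :=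
      { toFun := fun x => (val x) a b
        map_add' := fun x y => by rw [map_add]; rfl
        map_smul' := fun r x => by rw [map_smul]; rfl }
    have h2 : ContDiff ℝ ∞ (fun s => (LinearMap.toContinuousLinearMap L) (exp ((e s : W) : A))) :=
      (LinearMap.toContinuousLinearMap L).contDiff.comp h1
    have h3 : (fun s => ι (d (e s)) a b) =
        fun s => (LinearMap.toContinuousLinearMap L) (exp ((e s : W) : A)) := by
      funext s
      rw [hd]
      rfl
    show ContDiff ℝ ∞ (fun s => ι (d (e s)) a b)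
    rw [h3]
    exact h2
  · intro ε hε
    have h1 : ∃ δ : ℝ, 0 < δ ∧ ∀ x : W, ‖x‖ < δ → ‖e.symm x‖ < ε := by
      have h2 : Tendsto (fun x : W => ‖e.symm x‖) (𝓝 0) (𝓝 ‖e.symm 0‖) :=
        (e.symm.continuous.norm).tendsto 0
      rw [map_zero, norm_zero] at h2
      obtain ⟨δ, hδ, h3⟩ := Metric.eventually_nhds_iff.1 (h2.eventually (gt_mem_nhds hε))
      exact ⟨δ, hδ, fun x hx => h3 (by rwa [dist_zero_right])⟩
    obtain ⟨δ, hδ, h3⟩ := h1
    obtain ⟨x, hxW, hxδ, n, hn, hxn⟩ := htor δ hδ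
    refine ⟨e.symm ⟨x, hxW⟩, h3 _ hxδ, n, hn, ?_⟩
    show d (e (e.symm ⟨x, hxW⟩)) * g ^ n = 1
    rw [e.apply_symm_apply]
    apply hi
    rw [map_mul, map_pow, hd, map_one, ← hgA, ← map_pow, ← map_mul, hxn, map_one]

end grp

section fin

attribute [local instance] Matrix.linftyOpNormedRing Matrix.linftyOpNormedAlgebra

variable {G : Type*} [Group G] [TopologicalSpace G] [CompactSpace G] {q : ℕ}
  (ι : G →* Matrix (Fin q) (Fin q) ℂ)

/-- Arbitrarily small elements of a linear torus commuting with a given element of a compact group of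
matrices are inverses of powers of this element. -/
theorem exists_ret (hc : Continuous ι) (hi : Function.Injective ι) (g : G) :
    ∃ (j : ℕ) (c : EuclideanSpace ℝ (Fin j) → G), (∀ s t, c (s + t) = c s * c t) ∧
      (∀ a b, ContDiff ℝ ∞ (fun s => ι (c s) a b)) ∧ (∀ s, c s * g = g * c s) ∧
      ∀ ε : ℝ, 0 < ε → ∃ s, ‖s‖ < ε ∧ ∃ n : ℕ, 1 ≤ n ∧ c s * g ^ n = 1 := by
  obtain ⟨C, hC⟩ : ∃ C : Subalgebra ℝ (Matrix (Fin q) (Fin q) ℂ), C = Algebra.adjoin ℝ {ι g} :=
    ⟨_, rfl⟩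
  have hgC : ι g ∈ C := by
    rw [hC]
    exact Algebra.self_mem_adjoin_singleton ℝ _
  have hcomm : ∀ x y : C, x * y = y * x := by
    have h1 : ∀ x ∈ C, ∀ y ∈ C, x * y = y * x := by
      rw [hC]
      intro x hx y hy
      exact (Algebra.commute_of_mem_adjoin_singleton_of_commute hy
        (Algebra.commute_of_mem_adjoin_self hx).symm).eq
    intro x y
    exact Subtype.ext (h1 x x.2 y y.2)
  let nc : NormedCommRing C := { (inferInstance : NormedRing C) with mul_comm := hcomm }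
  let na : NormedAlgebra ℝ C := { (inferInstance : Algebra ℝ C) with
    norm_smul_le := fun a b => norm_smul_le a b }
  have hfd : FiniteDimensional ℝ C := inferInstanceAs (FiniteDimensional ℝ C)
  exact exists_ret_abs ι (A := C) C.val Subtype.val_injective hc hi g ⟨ι g, hgC⟩ rfl

end fin

end Pool.Agent.R196.Loc
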