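import Mathlib

/-!
# All-symbol PIR and batch codes: definitions and the ternary lower bound

`pirLengths F k t` is the set of lengths `n` for which some `k`-dimensional linear code of length
`n` over `F` has the `t`-all-symbol PIR property, `batchLengths F k t` the same for the
`t`-all-symbol batch property.  We prove that every element of `pirLengths (ZMod 3) 3 7` is at
least `14`.
-/

namespace Pool.Agent.R196.Pir

section Defs

variable {F : Type*} [Field F] {k n : ℕ}

/-- The `j`-th column of the matrix `G`. -/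
def col (G : Matrix (Fin k) (Fin n) F) (j : Fin n) : Fin k → F := fun i => G i j

/-- The matrix `G` serves the family `v 0, ..., v (t-1)`: there are pairwise disjoint sets of
columns `R 0, ..., R (t-1)` such that `v i` lies in the span of the columns indexed by `R i`. -/
def Serves (G : Matrix (Fin k) (Fin n) F) {t : ℕ} (v : Fin t → Fin k → F) : Prop :=
  ∃ R : Fin t → Finset (Fin n), (∀ i j, i ≠ j → Disjoint (R i) (R j)) ∧
    ∀ i, v i ∈ Submodule.span F (col G '' (R i : Set (Fin n)))

/-- The `t`-all-symbol PIR property: `t` copies of any column are served. -/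
def AllSymbolPIR (G : Matrix (Fin k) (Fin n) F) (t : ℕ) : Prop :=
  ∀ j : Fin n, Serves G (fun _ : Fin t => col G j)

/-- The `t`-all-symbol batch property: every family of `t` columns (repetitions allowed) is
served. -/
def AllSymbolBatch (G : Matrix (Fin k) (Fin n) F) (t : ℕ) : Prop :=
  ∀ f : Fin t → Fin n, Serves G (fun i => col G (f i))

end Defs

/-- Lengths of the `k`-dimensional linear codes over `F` (given by a generator matrix, that is a
`k × n` matrix with linearly independent rows) with the `t`-all-symbol PIR property. -/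
def pirLengths (F : Type*) [Field F] (k t : ℕ) : Set ℕ :=
  {n | ∃ G : Matrix (Fin k) (Fin n) F, LinearIndependent F (fun i => G i) ∧ AllSymbolPIR G t}

/-- Lengths of the `k`-dimensional linear codes over `F` with the `t`-all-symbol batch property. -/
def batchLengths (F : Type*) [Field F] (k t : ℕ) : Set ℕ :=
  {n | ∃ G : Matrix (Fin k) (Fin n) F, LinearIndependent F (fun i => G i) ∧ AllSymbolBatch G t}

lemma AllSymbolBatch.pir {F : Type*} [Field F] {k n t : ℕ} {G : Matrix (Fin k) (Fin n) F}
    (h : AllSymbolBatch G t) : AllSymbolPIR G t := fun j => h (fun _ => j)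

lemma batchLengths_subset (F : Type*) [Field F] (k t : ℕ) :
    batchLengths F k t ⊆ pirLengths F k t := by
  rintro n ⟨G, hG, hb⟩
  exact ⟨G, hG, hb.pir⟩

/-- `t` copies of the identity matrix. -/
lemma batchLengths_nonempty (F : Type*) [Field F] (k t : ℕ) (ht : 0 < t) :
    (batchLengths F k t).Nonempty := by
  let G : Matrix (Fin k) (Fin (k * t)) F :=
    fun a j => if (finProdFinEquiv.symm j).1 = a then 1 else 0
  have hG : ∀ a i b, G b (finProdFinEquiv (a, i)) = if a = b then 1 else 0 := by
    intro a i b
    show (if (finProdFinEquiv.symm (finProdFinEquiv (a, i))).1 = b then (1 : F) else 0) = _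
    rw [Equiv.symm_apply_apply]
  refine ⟨k * t, G, ?_, ?_⟩
  · rw [Fintype.linearIndependent_iff]
    intro g hg a
    have h := congrFun hg (finProdFinEquiv (a, ⟨0, ht⟩))
    rw [Finset.sum_apply] at h
    simp only [Pi.smul_apply, hG, smul_eq_mul, mul_ite, mul_one, mul_zero, Finset.sum_ite_eq,
      Finset.mem_univ, if_true, Pi.zero_apply] at h
    exact h
  · intro f
    refine ⟨fun i => {finProdFinEquiv ((finProdFinEquiv.symm (f i)).1, i)}, ?_, ?_⟩
    · intro i j hij
      rw [Finset.disjoint_singleton]
      intro h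
      have := finProdFinEquiv.injective h
      exact hij (Prod.ext_iff.1 this).2
    · intro i
      apply Submodule.subset_span
      refine ⟨finProdFinEquiv ((finProdFinEquiv.symm (f i)).1, i), by simp, ?_⟩
      funext a
      show G a (finProdFinEquiv ((finProdFinEquiv.symm (f i)).1, i)) = G a (f i)
      rw [hG]

/-! ### The projective plane of order three as a cyclic plane -/

/-- the vectors `α ^ i` for a primitive element `α` of the field with 27 elements -/
def P : Fin 13 → Fin 3 → ZMod 3 := ![![1, 0, 0], ![0, 1, 0], ![0, 0, 1], ![1, 1, 0], ![0, 1, 1],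
  ![1, 1, 1], ![1, 2, 1], ![1, 2, 2], ![2, 0, 2], ![2, 1, 0], ![0, 2, 1], ![1, 1, 2], ![2, 0, 1]]

/-- the linear forms cutting out the lines `{s, s + 1, s + 3, s + 9}` -/
def H : Fin 13 → Fin 3 → ZMod 3 := ![![0, 0, 1], ![1, 0, 0], ![1, 2, 0], ![1, 2, 1], ![0, 1, 2],
  ![1, 0, 2], ![1, 1, 0], ![1, 2, 2], ![1, 1, 2], ![1, 1, 1], ![0, 1, 1], ![1, 0, 1], ![0, 1, 0]]

/-- the line with number `s` -/
def Ln (s : Fin 13) : Finset (Fin 13) := {s, s + 1, s + 3, s + 9}

/-- the other three points of the four lines through `k` -/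
def Tr (k : Fin 13) : Fin 4 → Finset (Fin 13) :=
  ![{k + 1, k + 3, k + 9}, {k + 12, k + 2, k + 8}, {k + 10, k + 11, k + 6}, {k + 4, k + 5, k + 7}]

lemma H_P : ∀ s k : Fin 13, (H s ⬝ᵥ P k = 0 ↔ k ∈ Ln s) := by decide +kernel

lemma H_ne : ∀ s : Fin 13, H s ≠ 0 := by decide +kernel

lemma P_ne : ∀ s : Fin 13, P s ≠ 0 := by decide +kernel

lemma classes : ∀ a b c : ZMod 3, ![a, b, c] = 0 ∨ ∃ k, ![a, b, c] = P k ∨ ![a, b, c] = - P k := by
  decide +kernel

lemma classes' (v : Fin 3 → ZMod 3) : v = 0 ∨ ∃ k, v = P k ∨ v = - P k := by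
  have h := classes (v 0) (v 1) (v 2)
  have e : ![v 0, v 1, v 2] = v := by
    funext i; fin_cases i <;> rfl
  rwa [e] at h

lemma P_inj : ∀ k l : Fin 13, (P k = P l ∨ P k = - P l) → k = l := by decide +kernel

lemma third_line : ∀ k x y : Fin 13, x = k ∨ y = k ∨
    (x ≠ y ∧ ∃ u : Fin 4, x ∈ Tr k u ∧ y ∈ Tr k u) ∨ ∃ s, x ∈ Ln s ∧ y ∈ Ln s ∧ k ∉ Ln s := by
  decide +kernel

lemma Tr_cover : ∀ k : Fin 13, ∀ u : Fin 4, k ∉ Tr k u := by decide +kernel

/-- the column `v` is a nonzero multiple of `P k` -/
def Is (k : Fin 13) (v : Fin 3 → ZMod 3) : Prop := v = P k ∨ v = - P k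

instance (k : Fin 13) (v : Fin 3 → ZMod 3) : Decidable (Is k v) := by unfold Is; infer_instance

lemma Is.unique {k l : Fin 13} {v : Fin 3 → ZMod 3} (h1 : Is k v) (h2 : Is l v) : k = l := by
  rcases h1 with h1 | h1 <;> rcases h2 with h2 | h2
  · exact P_inj k l (Or.inl (h1.symm.trans h2))
  · exact P_inj k l (Or.inr (h1.symm.trans h2))
  · refine P_inj k l (Or.inr ?_)
    rw [← h2, h1, neg_neg]
  · refine P_inj k l (Or.inl ?_)
    exact neg_injective (h1.symm.trans h2)

lemma Is.dot {k s : Fin 13} {v : Fin 3 → ZMod 3} (h : Is k v) : (H s ⬝ᵥ v = 0 ↔ k ∈ Ln s) := by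
  rcases h with rfl | rfl
  · exact H_P s k
  · rw [dotProduct_neg, neg_eq_zero]; exact H_P s k

section Count

variable {n : ℕ} (g : Fin n → Fin 3 → ZMod 3)

/-- the columns of class `k` -/
def Cl (k : Fin 13) : Finset (Fin n) := Finset.univ.filter (fun i => Is k (g i))

/-- the multiplicity of the point `k` -/
def mult (k : Fin 13) : ℕ := (Cl g k).card

/-- the columns with class in `K` -/
def ClS (K : Finset (Fin 13)) : Finset (Fin n) := K.biUnion (Cl g)

lemma mem_Cl {k : Fin 13} {i : Fin n} : i ∈ Cl g k ↔ Is k (g i) := by simp [Cl]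

lemma mem_ClS {K : Finset (Fin 13)} {i : Fin n} : i ∈ ClS g K ↔ ∃ k ∈ K, Is k (g i) := by
  simp [ClS, mem_Cl]

lemma card_ClS (K : Finset (Fin 13)) : (ClS g K).card = ∑ k ∈ K, mult g k := by
  unfold ClS mult
  apply Finset.card_biUnion
  intro k _ l _ hkl
  show Disjoint (Cl g k) (Cl g l)
  rw [Finset.disjoint_left]
  intro i hi hi'
  rw [mem_Cl] at hi hi'
  exact hkl (hi.unique hi')

lemma counting (R : Fin 7 → Finset (Fin n)) (hR : ∀ i j, i ≠ j → Disjoint (R i) (R j))
    (S : Finset (Fin n)) (T : Finset (Fin 7)) (m : ℕ) (h : ∀ r ∈ T, m ≤ (R r ∩ S).card) :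
    m * T.card ≤ S.card := by
  calc m * T.card = ∑ _r ∈ T, m := by rw [Finset.sum_const, smul_eq_mul, mul_comm]
    _ ≤ ∑ r ∈ T, (R r ∩ S).card := Finset.sum_le_sum h
    _ = (T.biUnion (fun r => R r ∩ S)).card := by
        rw [Finset.card_biUnion]
        intro i _ j _ hij
        exact (hR i j hij).mono Finset.inter_subset_left Finset.inter_subset_left
    _ ≤ S.card := Finset.card_le_card (by
        intro i hi
        rw [Finset.mem_biUnion] at hi
        obtain ⟨r, _, hr⟩ := hi
        exact (Finset.mem_inter.1 hr).2)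

lemma span_dot (s : Fin 13) (R : Finset (Fin n)) (v : Fin 3 → ZMod 3)
    (h : ∀ i ∈ R, H s ⬝ᵥ g i = 0)
    (hv : v ∈ Submodule.span (ZMod 3) (g '' (R : Set (Fin n)))) : H s ⬝ᵥ v = 0 := by
  induction hv using Submodule.span_induction with
  | mem x hx => obtain ⟨i, hi, rfl⟩ := hx; exact h i hi
  | zero => simp
  | add x y _ _ hx hy => rw [dotProduct_add, hx, hy, add_zero]
  | smul a x _ hx => rw [dotProduct_smul, hx, smul_zero]

/-- Condition on lines: at least seven columns lie outside every line. -/
lemma line_cond (h7 : ∀ j, ∃ R : Fin 7 → Finset (Fin n), (∀ i j, i ≠ j → Disjoint (R i) (R j)) ∧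
      ∀ i, g j ∈ Submodule.span (ZMod 3) (g '' (R i : Set (Fin n))))
    (s : Fin 13) (hs : ∃ j, H s ⬝ᵥ g j ≠ 0) :
    ∑ k ∈ Ln s, mult g k + 7 ≤ ∑ k, mult g k := by
  obtain ⟨j, hj⟩ := hs
  obtain ⟨R, hR, hsp⟩ := h7 j
  have h1 : 1 * (Finset.univ : Finset (Fin 7)).card ≤ (ClS g (Ln s)ᶜ).card := by
    apply counting R hR
    intro r _
    rw [Nat.one_le_iff_ne_zero, Finset.card_ne_zero]
    by_contra hne
    rw [Finset.not_nonempty_iff_eq_empty] at hne
    apply hj
    apply span_dot g s (R r) _ _ (hsp r)
    intro i hi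
    rcases classes' (g i) with h0 | ⟨k, hk⟩
    · rw [h0, dotProduct_zero]
    · rw [Is.dot (k := k) hk]
      by_contra hk'
      have : i ∈ R r ∩ ClS g (Ln s)ᶜ := by
        rw [Finset.mem_inter, mem_ClS]
        exact ⟨hi, k, by simpa using hk', hk⟩
      rw [hne] at this
      simp at this
  rw [card_ClS] at h1
  simp only [Finset.card_univ, Fintype.card_fin, one_mul] at h1
  have h2 := Finset.sum_add_sum_compl (Ln s) (mult g)
  omega

/-- Condition at a point. -/
lemma point_cond (h7 : ∀ j, ∃ R : Fin 7 → Finset (Fin n), (∀ i j, i ≠ j → Disjoint (R i) (R j)) ∧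
      ∀ i, g j ∈ Submodule.span (ZMod 3) (g '' (R i : Set (Fin n))))
    (k : Fin 13) (hk : 1 ≤ mult g k) :
    ∃ b : Fin 4 → ℕ, 21 ≤ ∑ x, mult g x + 2 * mult g k + ∑ u, b u ∧
      ∀ u, 2 * b u ≤ ∑ x ∈ Tr k u, mult g x ∧
        ∀ x₀ ∈ Tr k u, b u ≤ ∑ x ∈ (Tr k u).erase x₀, mult g x := by
  classical
  obtain ⟨j, hj⟩ := Finset.card_pos.1 hk
  rw [mem_Cl] at hj
  obtain ⟨R, hR, hsp⟩ := h7 j
  let A : Finset (Fin 7) := Finset.univ.filter (fun r => ∃ i ∈ R r, Is k (g i))
  let Bp : Fin 4 → Fin 7 → Prop := fun u r => ∃ i ∈ R r, ∃ i' ∈ R r, ∃ x y : Fin 13,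
      x ≠ y ∧ x ∈ Tr k u ∧ y ∈ Tr k u ∧ Is x (g i) ∧ Is y (g i')
  let B : Fin 4 → Finset (Fin 7) := fun u => Finset.univ.filter (fun r => Bp u r)
  -- two distinct elements
  have hpair : ∀ u r, Bp u r → 2 ≤ (R r ∩ ClS g (Tr k u)).card := by
    rintro u r ⟨i, hi, i', hi', x, y, hxy, hx, hy, hxi, hyi⟩
    rw [Nat.succ_le_iff, Finset.one_lt_card]
    refine ⟨i, ?_, i', ?_, ?_⟩
    · rw [Finset.mem_inter, mem_ClS]; exact ⟨hi, x, hx, hxi⟩
    · rw [Finset.mem_inter, mem_ClS]; exact ⟨hi', y, hy, hyi⟩
    · rintro rfl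
      exact hxy (hxi.unique hyi)
  refine ⟨fun u => (B u).card, ?_, ?_⟩
  · -- the main count
    show 21 ≤ ∑ x, mult g x + 2 * mult g k + ∑ u, (B u).card
    have hA : 1 * A.card ≤ (Cl g k).card := by
      apply counting R hR
      intro r hr
      simp only [A, Finset.mem_filter, Finset.mem_univ, true_and] at hr
      obtain ⟨i, hi, hik⟩ := hr
      rw [Nat.one_le_iff_ne_zero, Finset.card_ne_zero]
      exact ⟨i, by rw [Finset.mem_inter, mem_Cl]; exact ⟨hi, hik⟩⟩
    have key : ∀ r : Fin 7, 3 ≤ (R r ∩ ClS g Finset.univ).card +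
        2 * (if ∃ i ∈ R r, Is k (g i) then 1 else 0) + ∑ u, (if Bp u r then 1 else 0) := by
      intro r
      by_cases hrA : ∃ i ∈ R r, Is k (g i)
      · obtain ⟨i, hi, hik⟩ := hrA
        have h1 : 1 ≤ (R r ∩ ClS g Finset.univ).card := by
          rw [Nat.one_le_iff_ne_zero, Finset.card_ne_zero]
          exact ⟨i, by rw [Finset.mem_inter, mem_ClS]; exact ⟨hi, k, Finset.mem_univ _, hik⟩⟩
        rw [if_pos ⟨i, hi, hik⟩]
        omega
      · rw [if_neg hrA]
        by_cases hrB : ∃ u, Bp u r
        · obtain ⟨u, hu⟩ := hrB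
          have h1 : 2 ≤ (R r ∩ ClS g Finset.univ).card := by
            refine (hpair u r hu).trans (Finset.card_le_card ?_)
            apply Finset.inter_subset_inter_left
            exact Finset.biUnion_subset_biUnion_of_subset_left _ (Finset.subset_univ _)
          have h2 : 1 ≤ ∑ u, (if Bp u r then 1 else 0) := by
            calc 1 = (if Bp u r then 1 else 0) := by rw [if_pos hu]
              _ ≤ _ := Finset.single_le_sum (f := fun u => if Bp u r then 1 else 0)
                (fun _ _ => Nat.zero_le _) (Finset.mem_univ u)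
          omega
        · push Not at hrB
          have h3 : 3 ≤ (R r ∩ ClS g Finset.univ).card := by
            by_contra hlt
            have hle : (R r ∩ ClS g Finset.univ).card ≤ 2 := by omega
            have hcls : ∀ i ∈ R r, g i ≠ 0 → i ∈ R r ∩ ClS g Finset.univ := by
              intro i hi h0
              rcases classes' (g i) with h | ⟨z, hz⟩
              · exact absurd h h0
              · rw [Finset.mem_inter, mem_ClS]
                exact ⟨hi, z, Finset.mem_univ _, hz⟩
            -- there are two classes containing all nonzero columns of `R r`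
            obtain ⟨x, y, hxy, hxk, hyk, hno⟩ : ∃ x y : Fin 13,
                (∀ i ∈ R r, g i = 0 ∨ Is x (g i) ∨ Is y (g i)) ∧ x ≠ k ∧ y ≠ k ∧
                ¬ (x ≠ y ∧ ∃ u : Fin 4, x ∈ Tr k u ∧ y ∈ Tr k u) := by
              have hcases : (R r ∩ ClS g Finset.univ).card = 0 ∨
                  (R r ∩ ClS g Finset.univ).card = 1 ∨ (R r ∩ ClS g Finset.univ).card = 2 := by
                omega
              rcases hcases with h0 | h1 | h2
              · rw [Finset.card_eq_zero] at h0
                refine ⟨k + 1, k + 1, ?_, ?_, ?_, ?_⟩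
                · intro i hi
                  left
                  by_contra hne
                  have := hcls i hi hne
                  rw [h0] at this
                  simp at this
                · simp
                · simp
                · simp
              · obtain ⟨i₁, hi₁⟩ := Finset.card_eq_one.1 h1
                have hm : i₁ ∈ R r ∩ ClS g Finset.univ := by rw [hi₁]; simp
                rw [Finset.mem_inter, mem_ClS] at hm
                obtain ⟨hmR, x, _, hx⟩ := hm
                refine ⟨x, x, ?_, ?_, ?_, by simp⟩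
                · intro i hi
                  by_cases hne : g i = 0
                  · left; exact hne
                  · right; left
                    have := hcls i hi hne
                    rw [hi₁, Finset.mem_singleton] at this
                    rw [this]; exact hx
                · rintro rfl; exact hrA ⟨i₁, hmR, hx⟩
                · rintro rfl; exact hrA ⟨i₁, hmR, hx⟩
              · obtain ⟨i₁, i₂, _, hi₁₂⟩ := Finset.card_eq_two.1 h2
                have hm₁ : i₁ ∈ R r ∩ ClS g Finset.univ := by rw [hi₁₂]; simp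
                have hm₂ : i₂ ∈ R r ∩ ClS g Finset.univ := by rw [hi₁₂]; simp
                rw [Finset.mem_inter, mem_ClS] at hm₁ hm₂
                obtain ⟨hmR₁, x, _, hx⟩ := hm₁
                obtain ⟨hmR₂, y, _, hy⟩ := hm₂
                refine ⟨x, y, ?_, ?_, ?_, ?_⟩
                · intro i hi
                  by_cases hne : g i = 0
                  · left; exact hne
                  · right
                    have := hcls i hi hne
                    rw [hi₁₂, Finset.mem_insert, Finset.mem_singleton] at this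
                    rcases this with rfl | rfl
                    · left; exact hx
                    · right; exact hy
                · rintro rfl; exact hrA ⟨i₁, hmR₁, hx⟩
                · rintro rfl; exact hrA ⟨i₂, hmR₂, hy⟩
                · rintro ⟨hne, u, hxu, hyu⟩
                  exact hrB u ⟨i₁, hmR₁, i₂, hmR₂, x, y, hne, hxu, hyu, hx, hy⟩
            rcases third_line k x y with h | h | h | ⟨s, hxs, hys, hks⟩
            · exact hxk h
            · exact hyk h
            · exact hno h
            · apply hks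
              rw [← Is.dot hj]
              apply span_dot g s (R r) _ _ (hsp r)
              intro i hi
              rcases hxy i hi with h0 | hx | hy
              · rw [h0, dotProduct_zero]
              · rwa [Is.dot hx]
              · rwa [Is.dot hy]
          omega
    have htot : ∑ r : Fin 7, (R r ∩ ClS g Finset.univ).card ≤ ∑ x, mult g x := by
      rw [← card_ClS, ← Finset.card_biUnion]
      · apply Finset.card_le_card
        intro i hi
        rw [Finset.mem_biUnion] at hi
        obtain ⟨r, _, hr⟩ := hi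
        exact (Finset.mem_inter.1 hr).2
      · intro i _ j _ hij
        exact (hR i j hij).mono Finset.inter_subset_left Finset.inter_subset_left
    have hsum := Finset.sum_le_sum (fun r (_ : r ∈ (Finset.univ : Finset (Fin 7))) => key r)
    rw [Finset.sum_add_distrib, Finset.sum_add_distrib, ← Finset.mul_sum, Finset.sum_comm,
      Finset.sum_const, Finset.card_univ, Fintype.card_fin] at hsum
    have hA' : ∑ r : Fin 7, (if ∃ i ∈ R r, Is k (g i) then 1 else 0) = A.card := by
      rw [Finset.card_filter]
    have hB' : ∀ u, ∑ r : Fin 7, (if Bp u r then 1 else 0) = (B u).card := by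
      intro u
      rw [Finset.card_filter]
    rw [hA'] at hsum
    simp_rw [hB'] at hsum
    unfold mult at *
    simp only [smul_eq_mul] at hsum
    omega
  · intro u
    refine ⟨?_, ?_⟩
    · rw [← card_ClS]
      apply counting R hR
      intro r hr
      simp only [B, Finset.mem_filter, Finset.mem_univ, true_and] at hr
      exact hpair u r hr
    · intro x₀ hx₀
      show (B u).card ≤ _
      rw [← card_ClS, ← one_mul (B u).card]
      apply counting R hR
      intro r hr
      simp only [B, Finset.mem_filter, Finset.mem_univ, true_and] at hr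
      obtain ⟨i, hi, i', hi', x, y, hxy, hx, hy, hxi, hyi⟩ := hr
      rw [Nat.one_le_iff_ne_zero, Finset.card_ne_zero]
      by_cases hxx : x = x₀
      · refine ⟨i', ?_⟩
        rw [Finset.mem_inter, mem_ClS]
        exact ⟨hi', y, Finset.mem_erase.2 ⟨fun h => hxy (hxx.trans h.symm), hy⟩, hyi⟩
      · refine ⟨i, ?_⟩
        rw [Finset.mem_inter, mem_ClS]
        exact ⟨hi, x, Finset.mem_erase.2 ⟨hxx, hx⟩, hxi⟩

end Count

end Pool.Agent.R196.Pir
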