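import Pool.Agent.R196.Pir

namespace Pool.Agent.R196.Pir

/-! ### The numerical contradiction -/

/-- `b` pairs of distinct points can be taken from three points with multiplicities `x, y, z` -/
def Tri (b x y z : ℕ) : Prop := 2 * b ≤ x + y + z ∧ b ≤ x + y ∧ b ≤ x + z ∧ b ≤ y + z

/-- the numerical conditions -/
structure Good (c : Fin 13 → ℕ) : Prop where
  total : ∑ k, c k ≤ 13
  pos : ∃ k, 1 ≤ c k
  line : ∀ s, c s + c (s + 1) + c (s + 3) + c (s + 9) + 7 ≤ ∑ k, c k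
  point : ∀ k, 1 ≤ c k → ∃ b0 b1 b2 b3 : ℕ,
    21 ≤ ∑ x, c x + 2 * c k + (b0 + b1 + b2 + b3) ∧
    Tri b0 (c (k + 1)) (c (k + 3)) (c (k + 9)) ∧ Tri b1 (c (k + 12)) (c (k + 2)) (c (k + 8)) ∧
    Tri b2 (c (k + 10)) (c (k + 11)) (c (k + 6)) ∧ Tri b3 (c (k + 4)) (c (k + 5)) (c (k + 7))

lemma sum_Ln (c : Fin 13 → ℕ) (s : Fin 13) :
    ∑ k ∈ Ln s, c k = c s + c (s + 1) + c (s + 3) + c (s + 9) := by
  have h1 : s ∉ ({s + 1, s + 3, s + 9} : Finset (Fin 13)) := by revert s; decide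
  have h2 : s + 1 ∉ ({s + 3, s + 9} : Finset (Fin 13)) := by revert s; decide
  have h3 : s + 3 ∉ ({s + 9} : Finset (Fin 13)) := by revert s; decide
  unfold Ln
  rw [Finset.sum_insert h1, Finset.sum_insert h2, Finset.sum_insert h3, Finset.sum_singleton]
  ring

lemma sum_three (c : Fin 13 → ℕ) (x y z : Fin 13) (h1 : x ∉ ({y, z} : Finset (Fin 13)))
    (h2 : y ∉ ({z} : Finset (Fin 13))) :
    ∑ k ∈ ({x, y, z} : Finset (Fin 13)), c k = c x + c y + c z := by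
  rw [Finset.sum_insert h1, Finset.sum_insert h2, Finset.sum_singleton]
  ring

lemma tri_of (c : Fin 13 → ℕ) (x y z : Fin 13) (b : ℕ) (h1 : x ∉ ({y, z} : Finset (Fin 13)))
    (h2 : y ∉ ({z} : Finset (Fin 13)))
    (hb : 2 * b ≤ ∑ k ∈ ({x, y, z} : Finset (Fin 13)), c k)
    (hb' : ∀ x₀ ∈ ({x, y, z} : Finset (Fin 13)),
      b ≤ ∑ k ∈ ({x, y, z} : Finset (Fin 13)).erase x₀, c k) : Tri b (c x) (c y) (c z) := by
  have e : ∀ x₀ ∈ ({x, y, z} : Finset (Fin 13)), b + c x₀ ≤ c x + c y + c z := by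
    intro x₀ hx₀
    have h := hb' x₀ hx₀
    have h' := Finset.add_sum_erase _ c hx₀
    rw [sum_three c x y z h1 h2] at h'
    omega
  rw [sum_three c x y z h1 h2] at hb
  have ex := e x (by simp)
  have ey := e y (by simp)
  have ez := e z (by simp)
  refine ⟨hb, ?_, ?_, ?_⟩ <;> omega

lemma Good.shift {c : Fin 13 → ℕ} (h : Good c) (k : Fin 13) : Good (fun x => c (x + k)) := by
  have hs : ∑ x, c (x + k) = ∑ x, c x := Equiv.sum_comp (Equiv.addRight k) c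
  refine ⟨?_, ?_, ?_, ?_⟩
  · rw [hs]; exact h.total
  · obtain ⟨l, hl⟩ := h.pos
    exact ⟨l - k, by simpa using hl⟩
  · intro s
    rw [hs]
    have := h.line (s + k)
    simpa only [add_right_comm _ k] using this
  · intro s hs1
    rw [hs]
    have := h.point (s + k) hs1
    simpa only [add_right_comm _ k] using this

/-- maximal `b` in `Tri b x y z` -/
def triB (x y z : ℕ) : ℕ := min ((x + y + z) / 2) (min (x + y) (min (x + z) (y + z)))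

lemma le_triB {b x y z : ℕ} (h : Tri b x y z) : b ≤ triB x y z := by
  obtain ⟨h1, h2, h3, h4⟩ := h
  unfold triB
  simp only [le_min_iff]
  omega

def lineBad (a b c d : ℕ) : Bool := Nat.blt 6 (a + b + c + d)

def pointBad (m x1 y1 z1 x2 y2 z2 x3 y3 z3 x4 y4 z4 : ℕ) : Bool :=
  Nat.ble 1 m && Nat.blt (13 + 2 * m + (triB x1 y1 z1 + triB x2 y2 z2 + triB x3 y3 z3 +
    triB x4 y4 z4)) 21

lemma Good.lineBad_false {c : Fin 13 → ℕ} (h : Good c) (hN : ∑ k, c k = 13) (s : Fin 13) :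
    lineBad (c s) (c (s + 1)) (c (s + 3)) (c (s + 9)) = false := by
  have h1 := h.line s
  unfold lineBad
  rw [Bool.eq_false_iff]
  intro h2
  have h3 := Nat.le_of_ble_eq_true h2
  omega

lemma Good.pointBad_false {c : Fin 13 → ℕ} (h : Good c) (hN : ∑ k, c k = 13) (k : Fin 13) :
    pointBad (c k) (c (k + 1)) (c (k + 3)) (c (k + 9)) (c (k + 12)) (c (k + 2)) (c (k + 8))
      (c (k + 10)) (c (k + 11)) (c (k + 6)) (c (k + 4)) (c (k + 5)) (c (k + 7)) = false := by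
  unfold pointBad
  rw [Bool.eq_false_iff]
  intro h2
  rw [Bool.and_eq_true] at h2
  have h3 := Nat.le_of_ble_eq_true h2.1
  have h4 := Nat.le_of_ble_eq_true h2.2
  obtain ⟨b0, b1, b2, b3, hb, t0, t1, t2, t3⟩ := h.point k h3
  have := le_triB t0
  have := le_triB t1
  have := le_triB t2
  have := le_triB t3
  omega

def bad (c0 c1 c2 c3 c4 c5 c6 c7 c8 c9 c10 c11 c12 : ℕ) : Bool :=
  lineBad c0 c1 c3 c9 ||
  lineBad c1 c2 c4 c10 ||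
  lineBad c2 c3 c5 c11 ||
  lineBad c3 c4 c6 c12 ||
  lineBad c4 c5 c7 c0 ||
  lineBad c5 c6 c8 c1 ||
  lineBad c6 c7 c9 c2 ||
  lineBad c7 c8 c10 c3 ||
  lineBad c8 c9 c11 c4 ||
  lineBad c9 c10 c12 c5 ||
  lineBad c10 c11 c0 c6 ||
  lineBad c11 c12 c1 c7 ||
  lineBad c12 c0 c2 c8 ||
  pointBad c0 c1 c3 c9 c12 c2 c8 c10 c11 c6 c4 c5 c7 ||
  pointBad c1 c2 c4 c10 c0 c3 c9 c11 c12 c7 c5 c6 c8 ||
  pointBad c2 c3 c5 c11 c1 c4 c10 c12 c0 c8 c6 c7 c9 ||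
  pointBad c3 c4 c6 c12 c2 c5 c11 c0 c1 c9 c7 c8 c10 ||
  pointBad c4 c5 c7 c0 c3 c6 c12 c1 c2 c10 c8 c9 c11 ||
  pointBad c5 c6 c8 c1 c4 c7 c0 c2 c3 c11 c9 c10 c12 ||
  pointBad c6 c7 c9 c2 c5 c8 c1 c3 c4 c12 c10 c11 c0 ||
  pointBad c7 c8 c10 c3 c6 c9 c2 c4 c5 c0 c11 c12 c1 ||
  pointBad c8 c9 c11 c4 c7 c10 c3 c5 c6 c1 c12 c0 c2 ||
  pointBad c9 c10 c12 c5 c8 c11 c4 c6 c7 c2 c0 c1 c3 ||
  pointBad c10 c11 c0 c6 c9 c12 c5 c7 c8 c3 c1 c2 c4 ||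
  pointBad c11 c12 c1 c7 c10 c0 c6 c8 c9 c4 c2 c3 c5 ||
  pointBad c12 c0 c2 c8 c11 c1 c7 c9 c10 c5 c3 c4 c6

/-- the possible multiplicities of the other three points on a line through a simple point -/
def TL : List (ℕ × ℕ × ℕ) := [(0, 0, 0), (1, 1, 0), (1, 0, 1), (0, 1, 1), (2, 2, 0), (2, 0, 2),
  (0, 2, 2), (2, 1, 1), (1, 2, 1), (1, 1, 2)]

def sum3 (t : ℕ × ℕ × ℕ) : ℕ := t.1 + t.2.1 + t.2.2

def check : Bool :=
  TL.all fun t1 => TL.all fun t2 => TL.all fun t3 => TL.all fun t4 =>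
    !(Nat.beq (sum3 t1 + sum3 t2 + sum3 t3 + sum3 t4) 12) ||
    bad 1 t1.1 t2.2.1 t1.2.1 t4.1 t4.2.1 t3.2.2 t4.2.2 t2.2.2 t1.2.2 t3.1 t3.2.1 t2.1

lemma check_true : check = true := by decide +kernel

lemma mem_TL {b x y z : ℕ} (h : 2 * b = x + y + z) (hb : b ≤ 2) (h1 : x ≤ b) (h2 : y ≤ b)
    (h3 : z ≤ b) : (x, y, z) ∈ TL := by
  interval_cases b <;> interval_cases x <;> interval_cases y <;> interval_cases z <;>
    first | omega | decide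

lemma sum13 (c : Fin 13 → ℕ) : ∑ k, c k = c 0 + (c 1 + (c 2 + (c 3 + (c 4 + (c 5 + (c 6 + (c 7 +
    (c 8 + (c 9 + (c 10 + (c 11 + (c 12 + 0)))))))))))) := by
  simp only [Fin.sum_univ_succ, Fin.sum_univ_zero]
  rfl

lemma check_spec : ∀ t1 ∈ TL, ∀ t2 ∈ TL, ∀ t3 ∈ TL, ∀ t4 ∈ TL,
    sum3 t1 + sum3 t2 + sum3 t3 + sum3 t4 = 12 →
    bad 1 t1.1 t2.2.1 t1.2.1 t4.1 t4.2.1 t3.2.2 t4.2.2 t2.2.2 t1.2.2 t3.1 t3.2.1 t2.1 = true := by
  intro t1 h1 t2 h2 t3 h3 t4 h4 hs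
  have h : check = true := check_true
  unfold check at h
  rw [List.all_eq_true] at h
  have h := h t1 h1
  rw [List.all_eq_true] at h
  have h := h t2 h2
  rw [List.all_eq_true] at h
  have h := h t3 h3
  rw [List.all_eq_true] at h
  have h := h t4 h4
  rw [Bool.or_eq_true] at h
  rcases h with h | h
  · exfalso
    rw [Bool.not_eq_true', ← Bool.not_eq_true, Nat.beq_eq] at h
    exact h hs
  · exact h

lemma arith_small (b x y z : ℕ) (t : Tri b x y z) (e : x + y + z ≤ 2 * b) (l : x + y + z ≤ 5) :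
    2 * b = x + y + z ∧ b ≤ 2 ∧ x ≤ b ∧ y ≤ b ∧ z ≤ b := by
  obtain ⟨p0, p1, p2, p3⟩ := t
  refine ⟨?_, ?_, ?_, ?_, ?_⟩ <;> omega

lemma arith_sums (S0 S1 S2 S3 N b0 b1 b2 b3 : ℕ) (hN1 : N ≤ 13) (hsum : N = 1 + (S0 + S1 + S2 + S3))
    (hb : 21 ≤ N + 2 + (b0 + b1 + b2 + b3)) (t0 : 2 * b0 ≤ S0) (t1 : 2 * b1 ≤ S1)
    (t2 : 2 * b2 ≤ S2) (t3 : 2 * b3 ≤ S3) :
    N = 13 ∧ S0 ≤ 2 * b0 ∧ S1 ≤ 2 * b1 ∧ S2 ≤ 2 * b2 ∧ S3 ≤ 2 * b3 := by
  omega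

lemma arith_one (c0 c1 c2 c3 c4 c5 c6 c7 c8 c9 c10 c11 c12 N b0 b1 b2 b3 : ℕ) (hN1 : N ≤ 13)
    (hsum : N = c0 + (c1 + (c2 + (c3 + (c4 + (c5 + (c6 + (c7 + (c8 + (c9 + (c10 + (c11 +
      (c12 + 0))))))))))))) (h0 : c0 = 1)
    (hb : 21 ≤ N + 2 * c0 + (b0 + b1 + b2 + b3))
    (t0 : Tri b0 c1 c3 c9) (t1 : Tri b1 c12 c2 c8) (t2 : Tri b2 c10 c11 c6) (t3 : Tri b3 c4 c5 c7)
    (l0 : c0 + c1 + c3 + c9 + 7 ≤ N) (l12 : c12 + c0 + c2 + c8 + 7 ≤ N)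
    (l10 : c10 + c11 + c0 + c6 + 7 ≤ N) (l4 : c4 + c5 + c7 + c0 + 7 ≤ N) :
    N = 13 ∧ (2 * b0 = c1 + c3 + c9 ∧ b0 ≤ 2 ∧ c1 ≤ b0 ∧ c3 ≤ b0 ∧ c9 ≤ b0) ∧
      (2 * b1 = c12 + c2 + c8 ∧ b1 ≤ 2 ∧ c12 ≤ b1 ∧ c2 ≤ b1 ∧ c8 ≤ b1) ∧
      (2 * b2 = c10 + c11 + c6 ∧ b2 ≤ 2 ∧ c10 ≤ b2 ∧ c11 ≤ b2 ∧ c6 ≤ b2) ∧
      (2 * b3 = c4 + c5 + c7 ∧ b3 ≤ 2 ∧ c4 ≤ b3 ∧ c5 ≤ b3 ∧ c7 ≤ b3) := by
  subst h0
  obtain ⟨hN, e0, e1, e2, e3⟩ := arith_sums (c1 + c3 + c9) (c12 + c2 + c8) (c10 + c11 + c6)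
    (c4 + c5 + c7) N b0 b1 b2 b3 hN1 (by rw [hsum]; ring) (by linarith) t0.1 t1.1 t2.1 t3.1
  subst hN
  exact ⟨rfl, arith_small _ _ _ _ t0 e0 (by linarith), arith_small _ _ _ _ t1 e1 (by linarith),
    arith_small _ _ _ _ t2 e2 (by linarith), arith_small _ _ _ _ t3 e3 (by linarith)⟩

/-- The case of a point of multiplicity one. -/
lemma no_simple (c : Fin 13 → ℕ) (h : Good c) (h0 : c 0 = 1) : False := by
  obtain ⟨b0, b1, b2, b3, hb, t0, t1, t2, t3⟩ := h.point 0 (le_of_eq h0.symm)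
  obtain ⟨hN, ⟨e0, f0, g0, i0, j0⟩, ⟨e1, f1, g1, i1, j1⟩, ⟨e2, f2, g2, i2, j2⟩,
      ⟨e3, f3, g3, i3, j3⟩⟩ :=
    arith_one (c 0) (c 1) (c 2) (c 3) (c 4) (c 5) (c 6) (c 7) (c 8) (c 9) (c 10) (c 11) (c 12)
      (∑ k, c k) b0 b1 b2 b3 h.total (sum13 c) h0 hb t0 t1 t2 t3 (h.line 0) (h.line 12)
      (h.line 10) (h.line 4)
  have m1 : (c 1, c 3, c 9) ∈ TL := mem_TL e0 f0 g0 i0 j0
  have m2 : (c 12, c 2, c 8) ∈ TL := mem_TL e1 f1 g1 i1 j1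
  have m3 : (c 10, c 11, c 6) ∈ TL := mem_TL e2 f2 g2 i2 j2
  have m4 : (c 4, c 5, c 7) ∈ TL := mem_TL e3 f3 g3 i3 j3
  have hs12 : sum3 (c 1, c 3, c 9) + sum3 (c 12, c 2, c 8) + sum3 (c 10, c 11, c 6) +
      sum3 (c 4, c 5, c 7) = 12 := by
    simp only [sum3]
    have hs := sum13 c
    rw [hN, h0] at hs
    linarith
  have hc := check_spec _ m1 _ m2 _ m3 _ m4 hs12
  have hc' : bad (c 0) (c 1) (c 2) (c 3) (c 4) (c 5) (c 6) (c 7) (c 8) (c 9) (c 10) (c 11) (c 12)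
      = true := by
    rw [h0]; exact hc
  have L0 : lineBad (c 0) (c 1) (c 3) (c 9) = false := h.lineBad_false hN 0
  have L1 : lineBad (c 1) (c 2) (c 4) (c 10) = false := h.lineBad_false hN 1
  have L2 : lineBad (c 2) (c 3) (c 5) (c 11) = false := h.lineBad_false hN 2
  have L3 : lineBad (c 3) (c 4) (c 6) (c 12) = false := h.lineBad_false hN 3
  have L4 : lineBad (c 4) (c 5) (c 7) (c 0) = false := h.lineBad_false hN 4
  have L5 : lineBad (c 5) (c 6) (c 8) (c 1) = false := h.lineBad_false hN 5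
  have L6 : lineBad (c 6) (c 7) (c 9) (c 2) = false := h.lineBad_false hN 6
  have L7 : lineBad (c 7) (c 8) (c 10) (c 3) = false := h.lineBad_false hN 7
  have L8 : lineBad (c 8) (c 9) (c 11) (c 4) = false := h.lineBad_false hN 8
  have L9 : lineBad (c 9) (c 10) (c 12) (c 5) = false := h.lineBad_false hN 9
  have L10 : lineBad (c 10) (c 11) (c 0) (c 6) = false := h.lineBad_false hN 10
  have L11 : lineBad (c 11) (c 12) (c 1) (c 7) = false := h.lineBad_false hN 11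
  have L12 : lineBad (c 12) (c 0) (c 2) (c 8) = false := h.lineBad_false hN 12
  have P0 : pointBad (c 0) (c 1) (c 3) (c 9) (c 12) (c 2) (c 8) (c 10) (c 11) (c 6) (c 4) (c 5) (c 7) = false :=
    h.pointBad_false hN 0
  have P1 : pointBad (c 1) (c 2) (c 4) (c 10) (c 0) (c 3) (c 9) (c 11) (c 12) (c 7) (c 5) (c 6) (c 8) = false :=
    h.pointBad_false hN 1
  have P2 : pointBad (c 2) (c 3) (c 5) (c 11) (c 1) (c 4) (c 10) (c 12) (c 0) (c 8) (c 6) (c 7) (c 9) = false :=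
    h.pointBad_false hN 2
  have P3 : pointBad (c 3) (c 4) (c 6) (c 12) (c 2) (c 5) (c 11) (c 0) (c 1) (c 9) (c 7) (c 8) (c 10) = false :=
    h.pointBad_false hN 3
  have P4 : pointBad (c 4) (c 5) (c 7) (c 0) (c 3) (c 6) (c 12) (c 1) (c 2) (c 10) (c 8) (c 9) (c 11) = false :=
    h.pointBad_false hN 4
  have P5 : pointBad (c 5) (c 6) (c 8) (c 1) (c 4) (c 7) (c 0) (c 2) (c 3) (c 11) (c 9) (c 10) (c 12) = false :=
    h.pointBad_false hN 5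
  have P6 : pointBad (c 6) (c 7) (c 9) (c 2) (c 5) (c 8) (c 1) (c 3) (c 4) (c 12) (c 10) (c 11) (c 0) = false :=
    h.pointBad_false hN 6
  have P7 : pointBad (c 7) (c 8) (c 10) (c 3) (c 6) (c 9) (c 2) (c 4) (c 5) (c 0) (c 11) (c 12) (c 1) = false :=
    h.pointBad_false hN 7
  have P8 : pointBad (c 8) (c 9) (c 11) (c 4) (c 7) (c 10) (c 3) (c 5) (c 6) (c 1) (c 12) (c 0) (c 2) = false :=
    h.pointBad_false hN 8
  have P9 : pointBad (c 9) (c 10) (c 12) (c 5) (c 8) (c 11) (c 4) (c 6) (c 7) (c 2) (c 0) (c 1) (c 3) = false :=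
    h.pointBad_false hN 9
  have P10 : pointBad (c 10) (c 11) (c 0) (c 6) (c 9) (c 12) (c 5) (c 7) (c 8) (c 3) (c 1) (c 2) (c 4) = false :=
    h.pointBad_false hN 10
  have P11 : pointBad (c 11) (c 12) (c 1) (c 7) (c 10) (c 0) (c 6) (c 8) (c 9) (c 4) (c 2) (c 3) (c 5) = false :=
    h.pointBad_false hN 11
  have P12 : pointBad (c 12) (c 0) (c 2) (c 8) (c 11) (c 1) (c 7) (c 9) (c 10) (c 5) (c 3) (c 4) (c 6) = false :=
    h.pointBad_false hN 12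
  unfold bad at hc'
  rw [L0, L1, L2, L3, L4, L5, L6, L7, L8, L9, L10, L11, L12, P0, P1, P2, P3, P4, P5, P6, P7, P8,
    P9, P10, P11, P12] at hc'
  simp at hc'

lemma arith_two_key (c0 b x y z N : ℕ) (t : Tri b x y z) (hx : x ≠ 1) (hy : y ≠ 1) (hz : z ≠ 1)
    (hN : c0 + (x + y + z) + 7 ≤ N) :
    (b = 0 ∨ c0 + 11 ≤ N) ∧ (x + y + z = 0 ∨ c0 + 9 ≤ N) := by
  obtain ⟨h1, h2, h3, h4⟩ := t
  constructor <;> omega

lemma arith_two (c0 c1 c2 c3 c4 c5 c6 c7 c8 c9 c10 c11 c12 N b0 b1 b2 b3 : ℕ) (hN1 : N ≤ 13)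
    (hsum : N = c0 + (c1 + (c2 + (c3 + (c4 + (c5 + (c6 + (c7 + (c8 + (c9 + (c10 + (c11 +
      (c12 + 0))))))))))))) (h0 : c0 ≠ 1)
    (hb : 21 ≤ N + 2 * c0 + (b0 + b1 + b2 + b3))
    (k0 : b0 = 0 ∨ c0 + 11 ≤ N) (k0' : c1 + c3 + c9 = 0 ∨ c0 + 9 ≤ N)
    (k1 : b1 = 0 ∨ c0 + 11 ≤ N) (k1' : c12 + c2 + c8 = 0 ∨ c0 + 9 ≤ N)
    (k2 : b2 = 0 ∨ c0 + 11 ≤ N) (k2' : c10 + c11 + c6 = 0 ∨ c0 + 9 ≤ N)
    (k3 : b3 = 0 ∨ c0 + 11 ≤ N) (k3' : c4 + c5 + c7 = 0 ∨ c0 + 9 ≤ N)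
    (l0 : c0 + (c1 + c3 + c9) + 7 ≤ N) (h01 : 1 ≤ c0) : (c0 = 2 ∨ c0 = 4) ∧ N = 13 := by
  have hA : c0 + 9 ≤ N := by
    rcases k0' with e | e
    · rcases k1' with e' | e'
      · rcases k2' with e'' | e''
        · rcases k3' with e''' | e'''
          · omega
          · exact e'''
        · exact e''
      · exact e'
    · exact e
  have hB : b0 + b1 + b2 + b3 = 0 ∨ c0 + 11 ≤ N := by
    rcases k0 with e | e
    · rcases k1 with e' | e'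
      · rcases k2 with e'' | e''
        · rcases k3 with e''' | e'''
          · left; omega
          · right; exact e'''
        · right; exact e''
      · right; exact e'
    · right; exact e
  clear k0 k0' k1 k1' k2 k2' k3 k3' hsum
  rcases hB with hB | hB
  · constructor <;> omega
  · constructor <;> omega

/-- A point of multiplicity at least two when there is no point of multiplicity one. -/
lemma no_simple_two (c : Fin 13 → ℕ) (h : Good c) (hne : ∀ k, c k ≠ 1) (h0 : 1 ≤ c 0) :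
    (c 0 = 2 ∨ c 0 = 4) ∧ ∑ k, c k = 13 := by
  obtain ⟨b0, b1, b2, b3, hb, t0, t1, t2, t3⟩ := h.point 0 h0
  have l0 : c 0 + (c 1 + c 3 + c 9) + 7 ≤ ∑ k, c k := by
    have := h.line 0
    rw [← add_assoc, ← add_assoc]; exact this
  have l12 : c 0 + (c 12 + c 2 + c 8) + 7 ≤ ∑ k, c k := by
    have : c 12 + c 0 + c 2 + c 8 + 7 ≤ ∑ k, c k := h.line 12
    linarith
  have l10 : c 0 + (c 10 + c 11 + c 6) + 7 ≤ ∑ k, c k := by
    have : c 10 + c 11 + c 0 + c 6 + 7 ≤ ∑ k, c k := h.line 10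
    linarith
  have l4 : c 0 + (c 4 + c 5 + c 7) + 7 ≤ ∑ k, c k := by
    have : c 4 + c 5 + c 7 + c 0 + 7 ≤ ∑ k, c k := h.line 4
    linarith
  obtain ⟨k0, k0'⟩ := arith_two_key _ b0 _ _ _ _ t0 (hne 1) (hne 3) (hne 9) l0
  obtain ⟨k1, k1'⟩ := arith_two_key _ b1 _ _ _ _ t1 (hne 12) (hne 2) (hne 8) l12
  obtain ⟨k2, k2'⟩ := arith_two_key _ b2 _ _ _ _ t2 (hne 10) (hne 11) (hne 6) l10
  obtain ⟨k3, k3'⟩ := arith_two_key _ b3 _ _ _ _ t3 (hne 4) (hne 5) (hne 7) l4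
  exact arith_two (c 0) (c 1) (c 2) (c 3) (c 4) (c 5) (c 6) (c 7) (c 8) (c 9) (c 10) (c 11) (c 12)
      (∑ k, c k) b0 b1 b2 b3 h.total (sum13 c) (hne 0) hb k0 k0' k1 k1' k2 k2' k3 k3' l0 h0

/-- The numerical conditions are contradictory. -/
lemma not_good (c : Fin 13 → ℕ) : ¬ Good c := by
  intro h
  by_cases h1 : ∃ k, c k = 1
  · obtain ⟨k, hk⟩ := h1
    exact no_simple _ (h.shift k) (by simpa using hk)
  · push Not at h1
    have key : ∀ k, 1 ≤ c k → (c k = 2 ∨ c k = 4) ∧ ∑ k, c k = 13 := by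
      intro k hk
      have h2 := no_simple_two _ (h.shift k) (fun l => h1 _) (by simpa using hk)
      have hs : ∑ x, c (x + k) = ∑ x, c x := Equiv.sum_comp (Equiv.addRight k) c
      rw [hs] at h2
      simpa using h2
    obtain ⟨k, hk⟩ := h.pos
    have hN := (key k hk).2
    have hdvd : 2 ∣ ∑ k, c k := by
      apply Finset.dvd_sum
      intro l _
      by_cases hl : 1 ≤ c l
      · rcases (key l hl).1 with e | e <;> rw [e] <;> decide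
      · have : c l = 0 := by omega
        rw [this]; decide
    rw [hN] at hdvd
    omega

lemma dis : ∀ k : Fin 13, k + 1 ∉ ({k + 3, k + 9} : Finset (Fin 13)) ∧
    k + 3 ∉ ({k + 9} : Finset (Fin 13)) ∧ k + 12 ∉ ({k + 2, k + 8} : Finset (Fin 13)) ∧
    k + 2 ∉ ({k + 8} : Finset (Fin 13)) ∧ k + 10 ∉ ({k + 11, k + 6} : Finset (Fin 13)) ∧
    k + 11 ∉ ({k + 6} : Finset (Fin 13)) ∧ k + 4 ∉ ({k + 5, k + 7} : Finset (Fin 13)) ∧
    k + 5 ∉ ({k + 7} : Finset (Fin 13)) := by decide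

/-- **The lower bound**: a ternary three-dimensional code with the `7`-all-symbol PIR property
has length at least `14`. -/
theorem pir_lower_bound {n : ℕ} (hn : n ∈ pirLengths (ZMod 3) 3 7) : 14 ≤ n := by
  obtain ⟨G, hli, hpir⟩ := hn
  by_contra hlt
  let g : Fin n → Fin 3 → ZMod 3 := col G
  have hns : ∀ s, ∃ j, H s ⬝ᵥ g j ≠ 0 := by
    intro s
    by_contra hcon
    push Not at hcon
    apply H_ne s
    rw [Fintype.linearIndependent_iff] at hli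
    funext a
    apply hli (H s)
    funext j
    rw [Finset.sum_apply]
    exact hcon j
  apply not_good (mult g)
  refine ⟨?_, ?_, ?_, ?_⟩
  · rw [← card_ClS]
    refine (Finset.card_le_univ _).trans ?_
    rw [Fintype.card_fin]
    omega
  · obtain ⟨j, hj⟩ := hns 0
    rcases classes' (g j) with h0 | ⟨k, hk⟩
    · rw [h0, dotProduct_zero] at hj
      exact absurd rfl hj
    · refine ⟨k, Finset.card_pos.2 ⟨j, ?_⟩⟩
      rw [mem_Cl]; exact hk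
  · intro s
    have := line_cond g hpir s (hns s)
    rwa [sum_Ln] at this
  · intro k hk
    obtain ⟨b, hb, hb'⟩ := point_cond g hpir k hk
    refine ⟨b 0, b 1, b 2, b 3, ?_, ?_, ?_, ?_, ?_⟩
    · rwa [Fin.sum_univ_four] at hb
    · exact tri_of _ _ _ _ _ (dis k).1 (dis k).2.1 (hb' 0).1 (hb' 0).2
    · exact tri_of _ _ _ _ _ (dis k).2.2.1 (dis k).2.2.2.1 (hb' 1).1 (hb' 1).2
    · exact tri_of _ _ _ _ _ (dis k).2.2.2.2.1 (dis k).2.2.2.2.2.1 (hb' 2).1 (hb' 2).2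
    · exact tri_of _ _ _ _ _ (dis k).2.2.2.2.2.2.1 (dis k).2.2.2.2.2.2.2 (hb' 3).1 (hb' 3).2

end Pool.Agent.R196.Pir
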