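import Pool.Agent.R196.Pir

/-!
# Two short ternary all-symbol batch codes

The affine plane `AG(2,3)` gives a ternary `[9,3]` code with the `5`-all-symbol batch property and
a frame gives a `[4,3]` code with the `2`-all-symbol batch property.
-/

namespace Pool.Agent.R196.Pir

/-- columns `(1, a, b)` -/
def G9 : Matrix (Fin 3) (Fin 9) (ZMod 3) :=
  ![![1, 1, 1, 1, 1, 1, 1, 1, 1], ![0, 0, 0, 1, 1, 1, 2, 2, 2], ![0, 1, 2, 0, 1, 2, 0, 1, 2]]

/-- recovery combinations -/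
def tbl : Fin 9 → List (List (Fin 9 × ZMod 3)) := ![
  [[(0, 1)], [(1, 2), (2, 2)], [(3, 2), (6, 2)], [(4, 2), (8, 2)], [(5, 2), (7, 2)], [(1, 2),
    (5, 1), (8, 1)], [(2, 2), (4, 1), (7, 1)], [(3, 2), (7, 1), (8, 1)], [(4, 2), (6, 1), (7,
    1)], [(5, 2), (8, 1), (6, 1)], [(6, 2), (4, 1), (5, 1)], [(7, 2), (3, 1), (4, 1)], [(8, 2),
    (5, 1), (3, 1)]],
  [[(1, 1)], [(2, 2), (0, 2)], [(4, 2), (7, 2)], [(5, 2), (6, 2)], [(3, 2), (8, 2)], [(2, 2),
    (3, 1), (6, 1)], [(0, 2), (5, 1), (8, 1)], [(4, 2), (8, 1), (6, 1)], [(5, 2), (7, 1), (8,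
    1)], [(3, 2), (6, 1), (7, 1)], [(7, 2), (5, 1), (3, 1)], [(8, 2), (4, 1), (5, 1)], [(6, 2),
    (3, 1), (4, 1)]],
  [[(2, 1)], [(0, 2), (1, 2)], [(5, 2), (8, 2)], [(3, 2), (7, 2)], [(4, 2), (6, 2)], [(0, 2),
    (4, 1), (7, 1)], [(1, 2), (3, 1), (6, 1)], [(5, 2), (6, 1), (7, 1)], [(3, 2), (8, 1), (6,
    1)], [(4, 2), (7, 1), (8, 1)], [(8, 2), (3, 1), (4, 1)], [(6, 2), (5, 1), (3, 1)], [(7, 2),
    (4, 1), (5, 1)]],
  [[(3, 1)], [(4, 2), (5, 2)], [(6, 2), (0, 2)], [(7, 2), (2, 2)], [(8, 2), (1, 2)], [(4, 2),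
    (8, 1), (2, 1)], [(5, 2), (7, 1), (1, 1)], [(6, 2), (1, 1), (2, 1)], [(7, 2), (0, 1), (1,
    1)], [(8, 2), (2, 1), (0, 1)], [(0, 2), (7, 1), (8, 1)], [(1, 2), (6, 1), (7, 1)], [(2, 2),
    (8, 1), (6, 1)]],
  [[(4, 1)], [(5, 2), (3, 2)], [(7, 2), (1, 2)], [(8, 2), (0, 2)], [(6, 2), (2, 2)], [(5, 2),
    (6, 1), (0, 1)], [(3, 2), (8, 1), (2, 1)], [(7, 2), (2, 1), (0, 1)], [(8, 2), (1, 1), (2,
    1)], [(6, 2), (0, 1), (1, 1)], [(1, 2), (8, 1), (6, 1)], [(2, 2), (7, 1), (8, 1)], [(0, 2),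
    (6, 1), (7, 1)]],
  [[(5, 1)], [(3, 2), (4, 2)], [(8, 2), (2, 2)], [(6, 2), (1, 2)], [(7, 2), (0, 2)], [(3, 2),
    (7, 1), (1, 1)], [(4, 2), (6, 1), (0, 1)], [(8, 2), (0, 1), (1, 1)], [(6, 2), (2, 1), (0,
    1)], [(7, 2), (1, 1), (2, 1)], [(2, 2), (6, 1), (7, 1)], [(0, 2), (8, 1), (6, 1)], [(1, 2),
    (7, 1), (8, 1)]],
  [[(6, 1)], [(7, 2), (8, 2)], [(0, 2), (3, 2)], [(1, 2), (5, 2)], [(2, 2), (4, 2)], [(7, 2),
    (2, 1), (5, 1)], [(8, 2), (1, 1), (4, 1)], [(0, 2), (4, 1), (5, 1)], [(1, 2), (3, 1), (4,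
    1)], [(2, 2), (5, 1), (3, 1)], [(3, 2), (1, 1), (2, 1)], [(4, 2), (0, 1), (1, 1)], [(5, 2),
    (2, 1), (0, 1)]],
  [[(7, 1)], [(8, 2), (6, 2)], [(1, 2), (4, 2)], [(2, 2), (3, 2)], [(0, 2), (5, 2)], [(8, 2),
    (0, 1), (3, 1)], [(6, 2), (2, 1), (5, 1)], [(1, 2), (5, 1), (3, 1)], [(2, 2), (4, 1), (5,
    1)], [(0, 2), (3, 1), (4, 1)], [(4, 2), (2, 1), (0, 1)], [(5, 2), (1, 1), (2, 1)], [(3, 2),
    (0, 1), (1, 1)]],
  [[(8, 1)], [(6, 2), (7, 2)], [(2, 2), (5, 2)], [(0, 2), (4, 2)], [(1, 2), (3, 2)], [(6, 2),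
    (1, 1), (4, 1)], [(7, 2), (0, 1), (3, 1)], [(2, 2), (3, 1), (4, 1)], [(0, 2), (5, 1), (3,
    1)], [(1, 2), (4, 1), (5, 1)], [(5, 2), (0, 1), (1, 1)], [(3, 2), (2, 1), (0, 1)], [(4, 2),
    (1, 1), (2, 1)]]]

/-- the supports of the recovery combinations as bit masks -/
def masks : Fin 9 → List ℕ := ![
  [1, 6, 72, 272, 160, 290, 148, 392, 208, 352, 112, 152, 296],
  [2, 5, 144, 96, 264, 76, 289, 336, 416, 200, 168, 304, 88],
  [4, 3, 288, 136, 80, 145, 74, 224, 328, 400, 280, 104, 176],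
  [8, 48, 65, 132, 258, 276, 162, 70, 131, 261, 385, 194, 324],
  [16, 40, 130, 257, 68, 97, 268, 133, 262, 67, 322, 388, 193],
  [32, 24, 260, 66, 129, 138, 81, 259, 69, 134, 196, 321, 386],
  [64, 384, 9, 34, 20, 164, 274, 49, 26, 44, 14, 19, 37],
  [128, 320, 18, 12, 33, 265, 100, 42, 52, 25, 21, 38, 11],
  [256, 192, 36, 17, 10, 82, 137, 28, 41, 50, 35, 13, 22]]

def maskOf (r : List (Fin 9 × ZMod 3)) : ℕ := r.foldl (fun m p => m ||| 2 ^ (p.1 : ℕ)) 0

def toSet (m : ℕ) : Finset (Fin 9) := Finset.univ.filter (fun i => m.testBit i = true)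

lemma mem_toSet {m : ℕ} {i : Fin 9} : i ∈ toSet m ↔ m.testBit i = true := by simp [toSet]

lemma masks_tbl : ∀ j : Fin 9, ∀ m ∈ masks j, ∃ r ∈ tbl j, maskOf r = m := by decide +kernel

lemma tbl_bit : ∀ j : Fin 9, ∀ r ∈ tbl j, ∀ p ∈ r, (maskOf r).testBit p.1 = true := by
  decide +kernel

lemma tbl_sum : ∀ j : Fin 9, ∀ r ∈ tbl j, (r.map (fun p => p.2 • col G9 p.1)).sum = col G9 j := by
  decide +kernel

lemma valid (j : Fin 9) (m : ℕ) (hm : m ∈ masks j) :
    col G9 j ∈ Submodule.span (ZMod 3) (col G9 '' (toSet m : Set (Fin 9))) := by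
  obtain ⟨r, hr, rfl⟩ := masks_tbl j m hm
  rw [← tbl_sum j r hr]
  apply list_sum_mem
  intro x hx
  rw [List.mem_map] at hx
  obtain ⟨p, hp, rfl⟩ := hx
  apply Submodule.smul_mem
  apply Submodule.subset_span
  exact ⟨p.1, by rw [Finset.mem_coe, mem_toSet]; exact tbl_bit j r hr p hp, rfl⟩

/-- search for disjoint recovery sets -/
def search : (t : ℕ) → (Fin t → Fin 9) → ℕ → Bool
  | 0, _, _ => true
  | t + 1, f, used => (masks (f 0)).any
      (fun m => Nat.beq (m &&& used) 0 && search t (fun i => f i.succ) (used ||| m))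

lemma disjoint_of_land {m u : ℕ} (h : m &&& u = 0) : Disjoint (toSet m) (toSet u) := by
  rw [Finset.disjoint_left]
  intro i hi hi'
  rw [mem_toSet] at hi hi'
  have h1 : (m &&& u).testBit i = true := by rw [Nat.testBit_land, hi, hi']; rfl
  rw [h, Nat.zero_testBit] at h1
  exact absurd h1 (by decide)

lemma toSet_lor_left (m u : ℕ) : toSet m ⊆ toSet (m ||| u) := by
  intro i hi
  rw [mem_toSet] at hi ⊢
  rw [Nat.testBit_lor, hi]; rfl

lemma toSet_lor_right (m u : ℕ) : toSet u ⊆ toSet (m ||| u) := by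
  intro i hi
  rw [mem_toSet] at hi ⊢
  rw [Nat.testBit_lor, hi, Bool.or_true]

lemma search_sound : ∀ (t : ℕ) (f : Fin t → Fin 9) (used : ℕ), search t f used = true →
    ∃ R : Fin t → Finset (Fin 9), (∀ i j, i ≠ j → Disjoint (R i) (R j)) ∧
      (∀ i, Disjoint (R i) (toSet used)) ∧
      ∀ i, col G9 (f i) ∈ Submodule.span (ZMod 3) (col G9 '' (R i : Set (Fin 9))) := by
  intro t
  induction t with
  | zero =>
    intro f used _
    exact ⟨fun i => i.elim0, fun i => i.elim0, fun i => i.elim0, fun i => i.elim0⟩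
  | succ t ih =>
    intro f used h
    rw [search, List.any_eq_true] at h
    obtain ⟨m, hm, h⟩ := h
    rw [Bool.and_eq_true, Nat.beq_eq] at h
    obtain ⟨R, h1, h2, h3⟩ := ih _ _ h.2
    have hdm : Disjoint (toSet m) (toSet used) := disjoint_of_land h.1
    refine ⟨Fin.cons (toSet m) R, ?_, ?_, ?_⟩
    · intro i j hij
      induction i using Fin.cases with
      | zero =>
        induction j using Fin.cases with
        | zero => exact absurd rfl hij
        | succ j =>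
          rw [Fin.cons_zero, Fin.cons_succ]
          exact ((h2 j).mono_right (toSet_lor_right used m)).symm
      | succ i =>
        induction j using Fin.cases with
        | zero =>
          rw [Fin.cons_zero, Fin.cons_succ]
          exact (h2 i).mono_right (toSet_lor_right used m)
        | succ j =>
          rw [Fin.cons_succ, Fin.cons_succ]
          exact h1 i j (fun h => hij (by rw [h]))
    · intro i
      induction i using Fin.cases with
      | zero => rw [Fin.cons_zero]; exact hdm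
      | succ i => rw [Fin.cons_succ]; exact (h2 i).mono_right (toSet_lor_left used m)
    · intro i
      induction i using Fin.cases with
      | zero => rw [Fin.cons_zero]; exact valid _ _ hm
      | succ i => rw [Fin.cons_succ]; exact h3 i

lemma check5 : ∀ a b : Fin 9, a ≤ b → ∀ c : Fin 9, b ≤ c → ∀ d : Fin 9, c ≤ d → ∀ e : Fin 9,
    d ≤ e → search 5 ![a, b, c, d, e] 0 = true := by
  decide +kernel

lemma batch_nine : AllSymbolBatch G9 5 := by
  intro f
  have hm : Monotone (f ∘ Tuple.sort f) := Tuple.monotone_sort f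
  set g : Fin 5 → Fin 9 := f ∘ Tuple.sort f with hg
  have e : ![g 0, g 1, g 2, g 3, g 4] = g := by
    funext i; fin_cases i <;> rfl
  have hs := check5 (g 0) (g 1) (hm (by decide)) (g 2) (hm (by decide)) (g 3) (hm (by decide))
    (g 4) (hm (by decide))
  rw [e] at hs
  obtain ⟨R, h1, _, h3⟩ := search_sound 5 g 0 hs
  refine ⟨fun i => R ((Tuple.sort f).symm i), ?_, ?_⟩
  · intro i j hij
    exact h1 _ _ (fun h => hij ((Tuple.sort f).symm.injective h))
  · intro i
    have := h3 ((Tuple.sort f).symm i)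
    simpa [hg] using this

theorem nine_mem : 9 ∈ batchLengths (ZMod 3) 3 5 := by
  refine ⟨G9, ?_, batch_nine⟩
  rw [Fintype.linearIndependent_iff]
  intro x hx
  have h0 := congrFun hx 0
  have h1 := congrFun hx 1
  have h3 := congrFun hx 3
  rw [Fin.sum_univ_three] at h0 h1 h3
  simp [G9] at h0 h1 h3
  intro i
  fin_cases i
  · exact h0
  · simpa [h0] using h3
  · simpa [h0] using h1

/-- the frame -/
def G4 : Matrix (Fin 3) (Fin 4) (ZMod 3) := ![![1, 0, 0, 1], ![0, 1, 0, 1], ![0, 0, 1, 1]]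

lemma G4_rec : ∀ j : Fin 4, ∃ c : Fin 4 → ZMod 3, c j = 0 ∧ ∑ i, c i • col G4 i = col G4 j := by
  intro j
  fin_cases j
  · exact ⟨![0, 2, 2, 1], by decide, by decide⟩
  · exact ⟨![2, 0, 2, 1], by decide, by decide⟩
  · exact ⟨![2, 2, 0, 1], by decide, by decide⟩
  · exact ⟨![1, 1, 1, 0], by decide, by decide⟩

lemma batch_four : AllSymbolBatch G4 2 := by
  intro f
  by_cases h : f 0 = f 1
  · refine ⟨![{f 0}, {f 0}ᶜ], ?_, ?_⟩
    · intro i j hij
      fin_cases i <;> fin_cases j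
      · exact absurd rfl hij
      · exact disjoint_compl_right
      · exact disjoint_compl_left
      · exact absurd rfl hij
    · intro i
      fin_cases i
      · exact Submodule.subset_span ⟨f 0, by simp, rfl⟩
      · show col G4 (f 1) ∈ _
        rw [← h]
        obtain ⟨c, hc, hsum⟩ := G4_rec (f 0)
        rw [← hsum]
        apply Submodule.sum_mem
        intro i _
        by_cases hi : i = f 0
        · rw [hi, hc, zero_smul]; exact Submodule.zero_mem _
        · apply Submodule.smul_mem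
          exact Submodule.subset_span ⟨i, by simpa using hi, rfl⟩
  · refine ⟨fun i => {f i}, ?_, ?_⟩
    · intro i j hij
      rw [Finset.disjoint_singleton]
      fin_cases i <;> fin_cases j
      · exact absurd rfl hij
      · exact h
      · exact fun h' => h h'.symm
      · exact absurd rfl hij
    · intro i
      exact Submodule.subset_span ⟨f i, by simp, rfl⟩

theorem four_mem : 4 ∈ batchLengths (ZMod 3) 3 2 := by
  refine ⟨G4, ?_, batch_four⟩
  rw [Fintype.linearIndependent_iff]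
  intro x hx
  have h0 := congrFun hx 0
  have h1 := congrFun hx 1
  have h2 := congrFun hx 2
  rw [Fin.sum_univ_three] at h0 h1 h2
  simp [G4] at h0 h1 h2
  intro i
  fin_cases i
  · exact h0
  · exact h1
  · exact h2

end Pool.Agent.R196.Pir
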